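import Pool.Agent.Q193.ST.Stm

namespace Pool.Agent.Q193.ST

open Set Metric Filter Topology

/-- a compact set splits along a clopen piece contained in a neighbourhood of a component -/
theorem split {L O : Set ℂ} (hL : IsCompact L) {z : ℂ} (hz : z ∈ L) (hO : IsOpen O)
    (h : connectedComponentIn L z ⊆ O) :
    ∃ Q : Set ℂ, IsClosed Q ∧ IsClosed (L \ Q) ∧ Q ⊆ L ∧ z ∈ Q ∧ Q ⊆ O := by
  haveI : CompactSpace L := isCompact_iff_compactSpace.1 hL
  set x : L := ⟨z, hz⟩
  have hcomp : connectedComponent x ⊆ (Subtype.val : L → ℂ) ⁻¹' O := by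
    intro y hy
    apply h
    rw [connectedComponentIn_eq_image hz]
    exact ⟨y, hy, rfl⟩
  have hO' : IsOpen ((Subtype.val : L → ℂ) ⁻¹' O) := hO.preimage continuous_subtype_val
  obtain ⟨s, hs, hxs, hsO⟩ : ∃ s : Set L, IsClopen s ∧ x ∈ s ∧ s ⊆ (Subtype.val : L → ℂ) ⁻¹' O := by
    have H1 := hO'.isClosed_compl.isCompact.inter_iInter_nonempty
      (fun s : { s : Set L // IsClopen s ∧ x ∈ s } => s) fun s => s.2.1.1
    rw [← not_disjoint_iff_nonempty_inter, imp_not_comm, not_forall] at H1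
    rw [connectedComponent_eq_iInter_isClopen] at hcomp
    obtain ⟨si, H2⟩ := H1 (disjoint_compl_left_iff_subset.2 hcomp)
    refine ⟨⋂ U ∈ si, Subtype.val U, ?_, ?_, ?_⟩
    · exact isClopen_biInter_finset fun s _ => s.2.1
    · exact mem_iInter₂.2 fun s _ => s.2.2
    · rwa [← disjoint_compl_left_iff_subset, disjoint_iff_inter_eq_empty,
        ← not_nonempty_iff_eq_empty]
  refine ⟨Subtype.val '' s, ?_, ?_, ?_, ⟨x, hxs, rfl⟩, ?_⟩
  · exact (hs.1.isCompact.image continuous_subtype_val).isClosed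
  · have e : L \ (Subtype.val '' s) = Subtype.val '' sᶜ := by
      ext y
      constructor
      · rintro ⟨hy, hys⟩
        exact ⟨⟨y, hy⟩, fun hc => hys ⟨_, hc, rfl⟩, rfl⟩
      · rintro ⟨y', hy', rfl⟩
        refine ⟨y'.2, ?_⟩
        rintro ⟨y'', hy'', he⟩
        rw [Subtype.val_injective he] at hy''
        exact hy' hy''
    rw [e]
    exact (hs.2.isClosed_compl.isCompact.image continuous_subtype_val).isClosed
  · rintro _ ⟨y, -, rfl⟩
    exact y.2
  · rintro _ ⟨y, hy, rfl⟩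
    exact hsO hy

theorem level_compact {Y : Type} [TopologicalSpace Y] [T2Space Y] {X : Set ℂ} {G : ℂ → Y}
    (hX : IsCompact X) (hG : ContinuousOn G X) (c : Y) : IsCompact {w | w ∈ X ∧ G w = c} := by
  have h := hG.preimage_isClosed_of_isClosed hX.isClosed (isClosed_singleton (x := c))
  exact hX.of_isClosed_subset h (fun w hw => hw.1)

theorem t_COMP : J_COMP := by
  intro X C G hX hC hG
  rw [← isOpen_compl_iff, isOpen_iff_mem_nhds]
  intro z hz
  by_cases hzX : z ∈ X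
  · set L : Set ℂ := {w | w ∈ X ∧ G w = G z} with hL
    have hLc : IsCompact L := level_compact hX hG _
    have hzL : z ∈ L := ⟨hzX, rfl⟩
    have hKC : connectedComponentIn L z ⊆ Cᶜ := by
      intro w hw hwC
      exact hz ⟨hzX, w, hw, hwC⟩
    obtain ⟨P, hP, hLP, hPL, hzP, hPC⟩ := split hLc hzL hC.isOpen_compl hKC
    have hPc : IsCompact P := hLc.of_isClosed_subset hP hPL
    have hQc : IsCompact (L \ P) := hLc.of_isClosed_subset hLP diff_subset
    obtain ⟨V, W, hV, hW, hPV, hQW, hVW⟩ := SeparatedNhds.of_isCompact_isCompact hPc hQc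
      disjoint_sdiff_right
    have hPV' : P ⊆ V ∩ Cᶜ := subset_inter hPV hPC
    -- values near G z
    have hrest : IsCompact (X \ ((V ∩ Cᶜ) ∪ W)) :=
      hX.diff ((hV.inter hC.isOpen_compl).union hW)
    have hnb : ∃ N ∈ 𝓝 (G z), ∀ w ∈ X, G w ∈ N → w ∈ (V ∩ Cᶜ) ∪ W := by
      have himg : IsClosed (G '' (X \ ((V ∩ Cᶜ) ∪ W))) :=
        (hrest.image_of_continuousOn (hG.mono diff_subset)).isClosed
      have hnot : G z ∉ G '' (X \ ((V ∩ Cᶜ) ∪ W)) := by
        rintro ⟨w, ⟨hwX, hw⟩, hwz⟩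
        apply hw
        by_cases hwP : w ∈ P
        · exact Or.inl (hPV' hwP)
        · exact Or.inr (hQW ⟨⟨hwX, hwz⟩, hwP⟩)
      refine ⟨(G '' (X \ ((V ∩ Cᶜ) ∪ W)))ᶜ, himg.isOpen_compl.mem_nhds hnot, ?_⟩
      intro w hwX hw
      by_contra hcon
      exact hw ⟨w, ⟨hwX, hcon⟩, rfl⟩
    obtain ⟨N, hN, hNX⟩ := hnb
    have hnhds : ∀ᶠ z' in 𝓝[X] z, G z' ∈ N ∧ z' ∈ V ∩ Cᶜ := by
      refine ((hG z hzX).eventually_mem hN).and ?_
      exact mem_nhdsWithin_of_mem_nhds
        ((hV.inter hC.isOpen_compl).mem_nhds (hPV' hzP))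
    rw [eventually_nhdsWithin_iff] at hnhds
    filter_upwards [hnhds] with z' hz' hcon
    obtain ⟨hz'X, w, hwK, hwC⟩ := hcon
    obtain ⟨hGN, hz'V⟩ := hz' hz'X
    -- the component of z' is contained in V ∩ Cᶜ
    have hsub : connectedComponentIn {w | w ∈ X ∧ G w = G z'} z' ⊆ (V ∩ Cᶜ) ∪ W := by
      intro y hy
      have := connectedComponentIn_subset _ _ hy
      exact hNX y this.1 (by rw [this.2]; exact hGN)
    have hpre : IsPreconnected (connectedComponentIn {w | w ∈ X ∧ G w = G z'} z') :=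
      isPreconnected_connectedComponentIn
    have hz'K : z' ∈ connectedComponentIn {w | w ∈ X ∧ G w = G z'} z' :=
      mem_connectedComponentIn ⟨hz'X, rfl⟩
    have hdisj : Disjoint (V ∩ Cᶜ) W := hVW.mono_left inter_subset_left
    have hin : connectedComponentIn {w | w ∈ X ∧ G w = G z'} z' ⊆ V ∩ Cᶜ := by
      refine hpre.subset_left_of_subset_union (hV.inter hC.isOpen_compl) hW hdisj hsub
        ⟨z', hz'K, hz'V⟩
    exact (hin hwK).2 hwC
  · filter_upwards [hX.isClosed.isOpen_compl.mem_nhds hzX] with z' hz' hcon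
    exact hz' hcon.1

theorem t_REACH : J_REACH := by
  intro Y _ _ X F G hX hF hG hray hthr z hz
  set L : Set ℂ := {w | w ∈ X ∧ G w = G z} with hL
  have hLc : IsCompact L := level_compact hX hG _
  have hzL : z ∈ L := ⟨hz, rfl⟩
  set K : Set ℂ := connectedComponentIn L z with hK
  have hKL : K ⊆ L := connectedComponentIn_subset _ _
  have hzK : z ∈ K := mem_connectedComponentIn hzL
  by_cases hfr : (K ∩ frontier X).Nonempty
  · exact ⟨K, isPreconnected_connectedComponentIn, hzK, fun w hw => (hKL hw).1,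
      fun w hw => (hKL hw).2, hfr⟩
  exfalso
  have hKI : K ⊆ interior X := by
    intro w hw
    by_contra hcon
    exact hfr ⟨w, hw, subset_closure (hKL hw).1, hcon⟩
  have hKO : K ⊆ interior X ∩ Fᶜ := by
    intro w hw
    refine ⟨hKI hw, ?_⟩
    intro hwF
    obtain ⟨S, hS1, hS2, hS3, hS4, s0, hs0, hs0f⟩ := hray w ⟨hKI hw, hwF⟩
    have hSL : S ⊆ L := fun y hy => ⟨hS3 hy, by rw [hS4 y hy, (hKL hw).2]⟩
    have hSK : S ⊆ K := by
      have h3 := hS1.subset_connectedComponentIn hS2 hSL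
      rwa [← connectedComponentIn_eq hw] at h3
    exact hfr ⟨s0, hSK hs0, hs0f⟩
  obtain ⟨Q, hQ, hLQ, hQL, hzQ, hQO⟩ := split hLc hzL (isOpen_interior.inter hF.isOpen_compl) hKO
  have hQc : IsCompact Q := hLc.of_isClosed_subset hQ hQL
  obtain ⟨q, hq⟩ := hQc.extremePoints_nonempty ⟨z, hzQ⟩
  have hqQ : q ∈ Q := hq.1
  obtain ⟨v, hv0, hvX, hvG⟩ := hthr q ⟨(hQO hqQ).1, (hQO hqQ).2⟩
  have hsegL : segment ℝ (q - v) (q + v) ⊆ L := fun w hw =>
    ⟨hvX hw, by rw [hvG w hw, (hQL hqQ).2]⟩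
  have hqmem : q ∈ openSegment ℝ (q - v) (q + v) := by
    refine ⟨1/2, 1/2, by norm_num, by norm_num, by norm_num, ?_⟩
    simp only [Complex.real_smul]
    push_cast
    ring
  have hsegQ : segment ℝ (q - v) (q + v) ⊆ Q := by
    have hpre : IsPreconnected (segment ℝ (q - v) (q + v)) := (convex_segment _ _).isPreconnected
    by_contra hcon
    rw [not_subset] at hcon
    obtain ⟨y, hy, hyQ⟩ := hcon
    obtain ⟨x, -, hx1, hx2⟩ := isPreconnected_closed_iff.1 hpre Q (L \ Q) hQ hLQ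
      (fun w hw => by
        by_cases hwQ : w ∈ Q
        · exact Or.inl hwQ
        · exact Or.inr ⟨hsegL hw, hwQ⟩)
      ⟨q, openSegment_subset_segment ℝ _ _ hqmem, hqQ⟩ ⟨y, hy, hsegL hy, hyQ⟩
    exact hx2.2 hx1
  have hext := mem_extremePoints.1 hq
  have h3 := hext.2 (q - v) (hsegQ (left_mem_segment ℝ _ _)) (q + v)
    (hsegQ (right_mem_segment ℝ _ _)) hqmem
  apply hv0
  have h4 := h3.1
  exact sub_eq_self.1 h4

end Pool.Agent.Q193.ST
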