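import Pool.Agent.Q193.ST.Stm

namespace Pool.Agent.Q193.ST

open Set Metric Filter Topology

theorem center {φ : ℝ → ℝ} (hφ : ContinuousOn φ (Icc 0 1)) {c : ℝ}
    (h : ∀ t ∈ Icc (0:ℝ) 1, 0 ≤ Real.cos (φ t - c)) (h0 : |φ 0 - c| ≤ Real.pi / 2) :
    |φ 1 - c| ≤ Real.pi / 2 := by
  have hpi := Real.pi_pos
  obtain ⟨h1, h2⟩ := abs_le.1 h0
  rw [abs_le]
  constructor
  · by_contra hcon
    push Not at hcon
    have hv1 : φ 1 ≤ max (φ 1) (c - Real.pi) := le_max_left _ _
    have hv2 : max (φ 1) (c - Real.pi) ≤ φ 0 := by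
      apply max_le <;> linarith
    obtain ⟨t, ht, htv⟩ := intermediate_value_Icc' zero_le_one hφ ⟨hv1, hv2⟩
    have h3 := h t ht
    rw [htv] at h3
    have h4 : max (φ 1) (c - Real.pi) - c < -(Real.pi / 2) := by
      rcases max_choice (φ 1) (c - Real.pi) with hm | hm
      · rw [hm]; linarith
      · rw [hm]; linarith
    have h5 : -Real.pi ≤ max (φ 1) (c - Real.pi) - c := by
      have := le_max_right (φ 1) (c - Real.pi)
      linarith
    have h6 : Real.cos (max (φ 1) (c - Real.pi) - c) < 0 := by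
      rw [← Real.cos_neg]
      apply Real.cos_neg_of_pi_div_two_lt_of_lt
      · linarith
      · linarith
    linarith
  · by_contra hcon
    push Not at hcon
    have hv1 : min (φ 1) (c + Real.pi) ≤ φ 1 := min_le_left _ _
    have hv2 : φ 0 ≤ min (φ 1) (c + Real.pi) := by
      apply le_min <;> linarith
    obtain ⟨t, ht, htv⟩ := intermediate_value_Icc zero_le_one hφ ⟨hv2, hv1⟩
    have h3 := h t ht
    rw [htv] at h3
    have h4 : Real.pi / 2 < min (φ 1) (c + Real.pi) - c := by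
      rcases min_choice (φ 1) (c + Real.pi) with hm | hm
      · rw [hm]; linarith
      · rw [hm]; linarith
    have h5 : min (φ 1) (c + Real.pi) - c ≤ Real.pi := by
      have := min_le_right (φ 1) (c + Real.pi)
      linarith
    have h6 : Real.cos (min (φ 1) (c + Real.pi) - c) < 0 := by
      apply Real.cos_neg_of_pi_div_two_lt_of_lt
      · linarith
      · linarith
    linarith

theorem sin_pin {τ : ℝ} (h : |τ| ≤ Real.pi / 2) {s : ℝ} (hs : Real.sin τ = s) :
    τ = Real.arcsin s := by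
  rw [← hs, Real.arcsin_sin (abs_le.1 h).1 (abs_le.1 h).2]

theorem joined {K : Set ℂ} (hK : IsPreconnected K) (hre : ∀ z ∈ K, z.re ≤ 1) {δ : ℝ}
    (hδ : 0 < δ) {a b : ℂ} (ha : a ∈ K) (hb : b ∈ K) :
    JoinedIn (thickening δ K ∩ {z : ℂ | z.re ≤ 1}) a b := by
  refine hK.induction₂ (fun x y => JoinedIn (thickening δ K ∩ {z : ℂ | z.re ≤ 1}) x y) ?_ ?_ ?_
    ha hb
  · intro x hx
    have h1 : ball x δ ∈ 𝓝 x := ball_mem_nhds x hδ
    filter_upwards [mem_nhdsWithin_of_mem_nhds h1, self_mem_nhdsWithin] with y hy hyK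
    refine JoinedIn.of_segment_subset ?_
    intro w hw
    constructor
    · have h2 : segment ℝ x y ⊆ ball x δ :=
        (convex_ball x δ).segment_subset (mem_ball_self hδ) hy
      exact mem_thickening_iff.2 ⟨x, hx, h2 hw⟩
    · have hc : Convex ℝ {z : ℂ | z.re ≤ 1} := by
        intro z hz w hw a b ha hb hab
        simp only [mem_ofPred_eq] at hz hw ⊢
        simp only [Complex.add_re, Complex.real_smul, Complex.re_ofReal_mul]
        have h3 := mul_le_mul_of_nonneg_left hz ha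
        have h4 := mul_le_mul_of_nonneg_left hw hb
        linarith
      exact hc.segment_subset (hre x hx) (hre y hyK) hw
  · intro x y z _ _ _ h1 h2
    exact h1.trans h2
  · intro x y _ _ h1
    exact h1.symm

theorem t_CROSS (h1 : J_LIFT) : J_CROSS := by
  intro K K' hK hK' hKp hKp' hre hre' hdisj a ha b hb a' ha' b' hb' ra rb ra' rb' i1 i2 i3
  obtain ⟨δ, hδ, hδd⟩ := hdisj.exists_thickenings hK hK'.isClosed
  have hP := joined hKp hre hδ ha hb
  have hQ := joined hKp' hre' hδ ha' hb'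
  set P : ℝ → ℂ := fun t => hP.somePath.extend t with hPdef
  set Q : ℝ → ℂ := fun t => hQ.somePath.extend t with hQdef
  have hPc : Continuous P := hP.somePath.extend.continuous
  have hQc : Continuous Q := hQ.somePath.extend.continuous
  have hP0 : P 0 = a := hP.somePath.extend_zero
  have hP1 : P 1 = b := hP.somePath.extend_one
  have hQ0 : Q 0 = a' := hQ.somePath.extend_zero
  have hQ1 : Q 1 = b' := hQ.somePath.extend_one
  have hPm : ∀ t ∈ Icc (0:ℝ) 1, P t ∈ thickening δ K ∩ {z : ℂ | z.re ≤ 1} := by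
    intro t ht
    simp only [hPdef]
    rw [Path.extend_apply _ ht]
    exact hP.somePath_mem ⟨t, ht⟩
  have hQm : ∀ t ∈ Icc (0:ℝ) 1, Q t ∈ thickening δ K' ∩ {z : ℂ | z.re ≤ 1} := by
    intro t ht
    simp only [hQdef]
    rw [Path.extend_apply _ ht]
    exact hQ.somePath_mem ⟨t, ht⟩
  set X : Set (ℝ × ℝ) := Icc (0:ℝ) 1 ×ˢ Icc (0:ℝ) 1 with hX
  have hne : ∀ x ∈ X, P x.1 - Q x.2 ≠ 0 := by
    rintro ⟨t, s⟩ ⟨ht, hs⟩ h0
    have h2 : P t = Q s := sub_eq_zero.1 h0
    exact (disjoint_left.1 hδd) (hPm t ht).1 (by rw [h2]; exact (hQm s hs).1)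
  set u : ℝ × ℝ → ℂ := fun x => (P x.1 - Q x.2) / (‖P x.1 - Q x.2‖ : ℝ) with hu
  have huc : ContinuousOn u X := by
    rw [hu]
    refine ContinuousOn.div ?_ ?_ ?_
    · exact ((hPc.comp continuous_fst).sub (hQc.comp continuous_snd)).continuousOn
    · exact (Complex.continuous_ofReal.comp
        ((hPc.comp continuous_fst).sub (hQc.comp continuous_snd)).norm).continuousOn
    · intro x hx
      have := norm_ne_zero_iff.2 (hne x hx)
      exact_mod_cast this
  have hun : ∀ x ∈ X, ‖u x‖ = 1 := by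
    intro x hx
    have h2 := norm_ne_zero_iff.2 (hne x hx)
    rw [hu]
    simp only
    rw [norm_div, Complex.norm_real, Real.norm_of_nonneg (norm_nonneg _), div_self h2]
  obtain ⟨θ, hθc, hθ⟩ := h1 (ℝ × ℝ) X ((convex_Icc 0 1).prod (convex_Icc 0 1))
    (isCompact_Icc.prod isCompact_Icc) u huc hun
  -- real and imaginary parts
  have hcos : ∀ x ∈ X, Real.cos (θ x) = (P x.1 - Q x.2).re / ‖P x.1 - Q x.2‖ := by
    intro x hx
    have h2 := congrArg Complex.re (hθ x hx)
    rw [Complex.exp_ofReal_mul_I_re] at h2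
    rw [← h2, hu]
    simp only
    rw [Complex.div_ofReal_re]
  have hsin : ∀ x ∈ X, Real.sin (θ x) = (P x.1 - Q x.2).im / ‖P x.1 - Q x.2‖ := by
    intro x hx
    have h2 := congrArg Complex.im (hθ x hx)
    rw [Complex.exp_ofReal_mul_I_im] at h2
    rw [← h2, hu]
    simp only
    rw [Complex.div_ofReal_im]
  -- corner values
  have hdown : ∀ x ∈ X, (P x.1 - Q x.2).re = 0 → (P x.1 - Q x.2).im < 0 →
      Real.cos (θ x) = 0 ∧ Real.sin (θ x) = -1 := by
    intro x hx h2 h3
    rw [hcos x hx, hsin x hx, h2, zero_div]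
    refine ⟨rfl, ?_⟩
    have h4 : ‖P x.1 - Q x.2‖ = -(P x.1 - Q x.2).im := by
      have h5 : ‖P x.1 - Q x.2‖ = |(P x.1 - Q x.2).im| := (Complex.abs_im_eq_norm.2 h2).symm
      rw [h5, abs_of_neg h3]
    rw [h4, div_neg, div_self h3.ne]
  have hup : ∀ x ∈ X, (P x.1 - Q x.2).re = 0 → 0 < (P x.1 - Q x.2).im →
      Real.cos (θ x) = 0 ∧ Real.sin (θ x) = 1 := by
    intro x hx h2 h3
    rw [hcos x hx, hsin x hx, h2, zero_div]
    refine ⟨rfl, ?_⟩
    have h4 : ‖P x.1 - Q x.2‖ = (P x.1 - Q x.2).im := by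
      have h5 : ‖P x.1 - Q x.2‖ = |(P x.1 - Q x.2).im| := (Complex.abs_im_eq_norm.2 h2).symm
      rw [h5, abs_of_pos h3]
    rw [h4, div_self h3.ne']
  have m0 : (0:ℝ) ∈ Icc (0:ℝ) 1 := ⟨le_rfl, zero_le_one⟩
  have m1 : (1:ℝ) ∈ Icc (0:ℝ) 1 := ⟨zero_le_one, le_rfl⟩
  obtain ⟨c00, s00⟩ := hdown (0, 0) ⟨m0, m0⟩ (by simp only [hP0, hQ0, Complex.sub_re]; linarith)
    (by simp only [hP0, hQ0, Complex.sub_im]; linarith)
  obtain ⟨c01, s01⟩ := hdown (0, 1) ⟨m0, m1⟩ (by simp only [hP0, hQ1, Complex.sub_re]; linarith)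
    (by simp only [hP0, hQ1, Complex.sub_im]; linarith)
  obtain ⟨c11, s11⟩ := hdown (1, 1) ⟨m1, m1⟩ (by simp only [hP1, hQ1, Complex.sub_re]; linarith)
    (by simp only [hP1, hQ1, Complex.sub_im]; linarith)
  obtain ⟨c10, s10⟩ := hup (1, 0) ⟨m1, m0⟩ (by simp only [hP1, hQ0, Complex.sub_re]; linarith)
    (by simp only [hP1, hQ0, Complex.sub_im]; linarith)
  -- the centre
  set c1 : ℝ := θ (0, 0) + Real.pi / 2 with hc1
  have hcc : Real.cos c1 = 1 := by rw [hc1, Real.cos_add_pi_div_two, s00]; norm_num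
  have hsc : Real.sin c1 = 0 := by rw [hc1, Real.sin_add_pi_div_two, c00]
  have cosm : ∀ x, Real.cos (x - c1) = Real.cos x := by
    intro x
    rw [Real.cos_sub, hcc, hsc]; ring
  have sinm : ∀ x, Real.sin (x - c1) = Real.sin x := by
    intro x
    rw [Real.sin_sub, hcc, hsc]; ring
  have hpi := Real.pi_pos
  -- edge t = 0
  have e1 : |θ (0, 1) - c1| ≤ Real.pi / 2 := by
    refine center (φ := fun s => θ (0, s)) (c := c1) ?_ ?_ ?_
    · exact hθc.comp (by fun_prop) (fun s hs => ⟨m0, hs⟩)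
    · intro s hs
      rw [cosm, hcos (0, s) ⟨m0, hs⟩]
      refine div_nonneg ?_ (norm_nonneg _)
      simp only [hP0, Complex.sub_re]
      have := (hQm s hs).2
      simp only [mem_ofPred_eq] at this
      linarith
    · rw [hc1, abs_of_nonpos (by linarith)]
      linarith
  have v01 : θ (0, 1) - c1 = -(Real.pi / 2) := by
    rw [sin_pin e1 (s := -1) (by rw [sinm, s01]), Real.arcsin_neg_one]
  -- edge s = 1
  have e2 : |θ (1, 1) - (c1 - Real.pi)| ≤ Real.pi / 2 := by
    refine center (φ := fun t => θ (t, 1)) (c := c1 - Real.pi) ?_ ?_ ?_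
    · exact hθc.comp (by fun_prop) (fun s hs => ⟨hs, m1⟩)
    · intro t ht
      have e : θ (t, 1) - (c1 - Real.pi) = (θ (t, 1) - c1) + Real.pi := by ring
      rw [e, Real.cos_add_pi, cosm, hcos (t, 1) ⟨ht, m1⟩, ← neg_div]
      refine div_nonneg ?_ (norm_nonneg _)
      simp only [hQ1, Complex.sub_re]
      have := (hPm t ht).2
      simp only [mem_ofPred_eq] at this
      linarith
    · rw [abs_le]
      constructor <;> linarith
  have v11 : θ (1, 1) - (c1 - Real.pi) = Real.pi / 2 := by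
    have e : θ (1, 1) - (c1 - Real.pi) = (θ (1, 1) - c1) + Real.pi := by ring
    rw [sin_pin e2 (s := 1) (by rw [e, Real.sin_add_pi, sinm, s11]; norm_num), Real.arcsin_one]
  -- edge t = 1
  have e3 : |θ (1, 0) - c1| ≤ Real.pi / 2 := by
    have := center (φ := fun s => θ (1, 1 - s)) (c := c1) ?_ ?_ ?_
    · simpa using this
    · refine hθc.comp (by fun_prop) (fun s hs => ⟨m1, ?_⟩)
      exact ⟨by linarith [hs.2], by linarith [hs.1]⟩
    · intro s hs
      have hs' : 1 - s ∈ Icc (0:ℝ) 1 := ⟨by linarith [hs.2], by linarith [hs.1]⟩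
      rw [cosm, hcos (1, 1 - s) ⟨m1, hs'⟩]
      refine div_nonneg ?_ (norm_nonneg _)
      simp only [hP1, Complex.sub_re]
      have := (hQm (1 - s) hs').2
      simp only [mem_ofPred_eq] at this
      linarith
    · simp only [sub_zero]
      rw [abs_le]
      constructor <;> linarith
  have v10 : θ (1, 0) - c1 = Real.pi / 2 := by
    rw [sin_pin e3 (s := 1) (by rw [sinm, s10]), Real.arcsin_one]
  -- edge s = 0
  have e4 : |θ (0, 0) - (c1 + Real.pi)| ≤ Real.pi / 2 := by
    have := center (φ := fun t => θ (1 - t, 0)) (c := c1 + Real.pi) ?_ ?_ ?_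
    · simpa using this
    · refine hθc.comp (by fun_prop) (fun s hs => ⟨?_, m0⟩)
      exact ⟨by linarith [hs.2], by linarith [hs.1]⟩
    · intro t ht
      have ht' : 1 - t ∈ Icc (0:ℝ) 1 := ⟨by linarith [ht.2], by linarith [ht.1]⟩
      have e : θ (1 - t, 0) - (c1 + Real.pi) = (θ (1 - t, 0) - c1) - Real.pi := by ring
      rw [e, Real.cos_sub_pi, cosm, hcos (1 - t, 0) ⟨ht', m0⟩, ← neg_div]
      refine div_nonneg ?_ (norm_nonneg _)
      simp only [hQ0, Complex.sub_re]
      have := (hPm (1 - t) ht').2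
      simp only [mem_ofPred_eq] at this
      linarith
    · simp only [sub_zero]
      rw [abs_le]
      constructor <;> linarith
  rw [hc1] at e4
  have := (abs_le.1 e4).1
  linarith

end Pool.Agent.Q193.ST
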