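import Pool.Agent.Q193.ST.Stm

namespace Pool.Agent.Q193.ST

universe u

/-- assembly check -/
theorem fin_of
    (tLIFT : J_LIFT) (tUNI : J_LIFT → J_UNI) (tCROSS : J_LIFT → J_CROSS) (tCOMP : J_COMP)
    (tREACH : J_REACH) (tNULL : J_NULL) (tTLA : J_UNI → J_CROSS → J_COMP → J_NULL → J_TLA)
    (tTLG1 : J_TLA → J_REACH → J_TLG1) (tTLG2 : J_TLG1 → J_TLG2) (tRAYS : J_TLG2 → J_RAYS)
    (tTHRU : J_TLG2 → J_RAYS → J_THRU) (tGLOB : J_THRU → J_GLOB) (tIMM1 : J_IMM1.{u})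
    (tIMM2 : J_IMM1.{u} → J_GLOB → J_IMM2.{u}) : J_IMM2.{u} := by
  have h1 := tTLA (tUNI tLIFT) (tCROSS tLIFT) tCOMP tNULL
  have h2 := tTLG2 (tTLG1 h1 tREACH)
  exact tIMM2 tIMM1 (tGLOB (tTHRU h2 (tRAYS h2)))

end Pool.Agent.Q193.ST
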