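import Pool.Agent.Q193.ST.THRU

namespace Pool.Agent.Q193.ST

open Set Metric Filter Topology

/-- shortening a flat segment with given midpoint -/
theorem shorten {z v : ℂ} {t : ℝ} (ht : t ∈ Icc (0:ℝ) 1) :
    segment ℝ (z - t • v) (z + t • v) ⊆ segment ℝ (z - v) (z + v) := by
  refine (convex_segment _ _).segment_subset ?_ ?_
  · rw [segment_eq_image']
    refine ⟨(1 - t) / 2, ⟨by linarith [ht.2], by linarith [ht.1]⟩, ?_⟩
    simp only [Complex.real_smul]
    push_cast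
    ring
  · rw [segment_eq_image']
    refine ⟨(1 + t) / 2, ⟨by linarith [ht.1], by linarith [ht.2]⟩, ?_⟩
    simp only [Complex.real_smul]
    push_cast
    ring

theorem t_GLOB (h1 : J_THRU) : J_GLOB := by
  intro f U hU hf hsemi q hqU
  by_contra hcon
  set N : Set ℂ := {z | z ∈ U ∧ ¬ ∃ v : ℂ, v ≠ 0 ∧ segment ℝ (z - v) (z + v) ⊆ U ∧
    Flat f (segment ℝ (z - v) (z + v))} with hN
  have hqN : q ∈ N := ⟨hqU, hcon⟩
  set F : Set ℂ := closure N with hF
  obtain ⟨r', hr', hr'U⟩ := Metric.isOpen_iff.1 hU q hqU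
  set r : ℝ := r' / 3 with hr
  have hr0 : 0 < r := by positivity
  have hB2 : closedBall q (2 * r) ⊆ U :=
    (closedBall_subset_ball (by rw [hr]; linarith)).trans hr'U
  have hD : ContinuousOn (fderiv ℝ f) (closedBall q (2 * r)) :=
    (hf.continuousOn_fderiv_of_isOpen hU le_rfl).mono hB2
  set Z : Set ℂ := F ∩ closedBall q r with hZ
  have hZc : IsClosed Z := isClosed_closure.inter isClosed_closedBall
  haveI : CompleteSpace Z := hZc.completeSpace_coe
  set ℓ : ℕ → ℝ := fun n => r / (n + 1) with hℓ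
  have hℓ0 : ∀ n, 0 < ℓ n := fun n => by rw [hℓ]; positivity
  have hℓr : ∀ n, ℓ n ≤ r := fun n => by
    rw [hℓ]
    simp only
    rw [div_le_iff₀ (by positivity)]
    have : (0:ℝ) ≤ n := Nat.cast_nonneg n
    nlinarith
  set E : ℕ → Set Z := fun n => {z | ∃ w : ℂ, ‖w‖ = ℓ n ∧
    Flat f (segment ℝ (z : ℂ) ((z : ℂ) + w))} with hE
  have hKB : ∀ n, ∀ x ∈ closedBall q r ×ˢ sphere (0:ℂ) (ℓ n),
      x.1 ∈ closedBall q (2 * r) ∧ x.1 + x.2 ∈ closedBall q (2 * r) := by
    rintro n ⟨z, w⟩ ⟨hz, hw⟩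
    rw [mem_sphere_zero_iff_norm] at hw
    simp only at hz hw ⊢
    rw [mem_closedBall] at hz ⊢
    refine ⟨by linarith, ?_⟩
    rw [mem_closedBall]
    have h5 := dist_triangle (z + w) z q
    have h6 : dist (z + w) z = ‖w‖ := by rw [dist_eq_norm]; simp
    have h7 := hℓr n
    linarith
  have hEc : ∀ n, IsClosed (E n) := by
    intro n
    have hc := flat_compact (convex_closedBall q (2 * r)) hD
      ((isCompact_closedBall q r).prod (isCompact_sphere (0:ℂ) (ℓ n))) (hKB n)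
    have e : E n = (fun z : Z => (z : ℂ)) ⁻¹' (Prod.fst '' {x ∈ closedBall q r ×ˢ
        sphere (0:ℂ) (ℓ n) | Flat f (segment ℝ x.1 (x.1 + x.2))}) := by
      ext z
      constructor
      · rintro ⟨w, hw, hfl⟩
        exact ⟨((z : ℂ), w), ⟨⟨z.2.2, mem_sphere_zero_iff_norm.2 hw⟩, hfl⟩, rfl⟩
      · rintro ⟨⟨z', w⟩, ⟨⟨hz, hw⟩, hfl⟩, hzz⟩
        have hzz' : z' = (z : ℂ) := hzz
        subst hzz'
        exact ⟨w, mem_sphere_zero_iff_norm.1 hw, hfl⟩
    rw [e]
    exact (hc.image continuous_fst).isClosed.preimage continuous_subtype_val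
  have hEu : ⋃ n, E n = univ := by
    rw [eq_univ_iff_forall]
    intro z
    obtain ⟨w, hwz, -, hfl⟩ := hsemi z (hB2 (closedBall_subset_closedBall (by linarith) z.2.2))
    have hd : 0 < ‖w - z‖ := norm_pos_iff.2 (sub_ne_zero.2 hwz)
    obtain ⟨n, hn⟩ := exists_nat_gt (r / ‖w - z‖)
    have hn1 : ℓ n ≤ ‖w - z‖ := by
      rw [hℓ]
      simp only
      rw [div_le_iff₀ (by positivity)]
      rw [div_lt_iff₀ hd] at hn
      nlinarith
    rw [mem_iUnion]
    refine ⟨n, (ℓ n / ‖w - z‖) • (w - z), ?_, ?_⟩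
    · rw [norm_smul, Real.norm_of_nonneg (by have := hℓ0 n; positivity)]
      field_simp
    · refine flat_mono hfl ((convex_segment _ _).segment_subset (left_mem_segment ℝ _ _) ?_)
      rw [segment_eq_image']
      exact ⟨ℓ n / ‖w - z‖, ⟨by have := hℓ0 n; positivity, by rwa [div_le_one hd]⟩, rfl⟩
  have hdense := dense_iUnion_interior_of_closed hEc hEu
  have hqZ : q ∈ Z := ⟨subset_closure hqN, mem_closedBall_self hr0.le⟩
  obtain ⟨z₀, hz₀V, hz₀⟩ := hdense.exists_mem_open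
    (U := (fun z : Z => (z : ℂ)) ⁻¹' ball q r)
    (isOpen_ball.preimage continuous_subtype_val) ⟨⟨q, hqZ⟩, mem_ball_self hr0⟩
  rw [mem_iUnion] at hz₀V
  obtain ⟨n, hn⟩ := hz₀V
  obtain ⟨ρ0, hρ0, hρ0E⟩ := Metric.isOpen_iff.1 isOpen_interior z₀ hn
  have hz₀' : dist (z₀ : ℂ) q < r := hz₀
  set ρ : ℝ := min ρ0 (r - dist (z₀ : ℂ) q) with hρ
  have hρpos : 0 < ρ := lt_min hρ0 (by linarith)
  have hρball : ball (z₀ : ℂ) ρ ⊆ ball q r := by
    refine ball_subset_ball' ?_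
    have : ρ ≤ r - dist (z₀ : ℂ) q := min_le_right _ _
    linarith
  have hρE : ∀ z ∈ F, z ∈ ball (z₀ : ℂ) ρ → ∃ w : ℂ, ‖w‖ = ℓ n ∧
      Flat f (segment ℝ z (z + w)) := by
    intro z hzF hz
    have hzZ : z ∈ Z := ⟨hzF, ball_subset_closedBall (hρball hz)⟩
    have hz2 : (⟨z, hzZ⟩ : Z) ∈ ball z₀ ρ0 := by
      rw [mem_ball]
      have h3 : dist z (z₀ : ℂ) < ρ := hz
      have h4 : ρ ≤ ρ0 := min_le_left _ _
      exact lt_of_lt_of_le h3 h4
    have hz3 : (⟨z, hzZ⟩ : Z) ∈ E n := interior_subset (hρ0E hz2)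
    exact hz3
  set R : ℝ := min (ρ / 2) (ℓ n / 4) with hR
  have hR0 : 0 < R := lt_min (by positivity) (by have := hℓ0 n; positivity)
  have hRρ : R ≤ ρ / 2 := min_le_left _ _
  have hRℓ : R ≤ ℓ n / 4 := min_le_right _ _
  have hballU : closedBall (z₀ : ℂ) R ⊆ U := by
    refine (closedBall_subset_ball (by linarith)).trans (hρball.trans ?_)
    exact (ball_subset_closedBall).trans ((closedBall_subset_closedBall (by linarith)).trans hB2)
  have hSit : Sit f U F (z₀ : ℂ) R := by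
    refine ⟨hU, hf, hR0, hballU, isClosed_closure, ?_, ?_⟩
    · rintro z ⟨hz, hzF⟩
      have hz' : dist z (z₀ : ℂ) < R := hz
      obtain ⟨w, hw, hfl⟩ := hρE z hzF (ball_subset_ball (by linarith) hz)
      have hcont : ContinuousOn (fun t : ℝ => dist (z + t • w) (z₀ : ℂ)) (Icc 0 1) := by fun_prop
      have hlow : dist (z + (0:ℝ) • w) (z₀ : ℂ) ≤ R := by simpa using hz'.le
      have hup : R ≤ dist (z + (1:ℝ) • w) (z₀ : ℂ) := by
        rw [one_smul]
        have h5 := dist_triangle (z + w) (z₀ : ℂ) z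
        have h6 : dist (z + w) z = ‖w‖ := by rw [dist_eq_norm]; simp
        rw [dist_comm (z₀ : ℂ) z] at h5
        linarith
      obtain ⟨t, ht, htR⟩ := intermediate_value_Icc zero_le_one hcont ⟨hlow, hup⟩
      refine ⟨z + t • w, mem_sphere.2 htR, ?_⟩
      refine flat_mono hfl ((convex_segment _ _).segment_subset (left_mem_segment ℝ _ _) ?_)
      rw [segment_eq_image']
      exact ⟨t, ht, by simp⟩
    · rintro z ⟨hz, hzF⟩
      have hzU : z ∈ U := hballU (ball_subset_closedBall hz)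
      have hzN : z ∉ N := fun h => hzF (subset_closure h)
      have hex : ∃ v : ℂ, v ≠ 0 ∧ segment ℝ (z - v) (z + v) ⊆ U ∧
          Flat f (segment ℝ (z - v) (z + v)) := by
        by_contra hc
        exact hzN ⟨hzU, hc⟩
      obtain ⟨v, hv0, -, hfl⟩ := hex
      have hvn : 0 < ‖v‖ := norm_pos_iff.2 hv0
      have hzd : dist z (z₀ : ℂ) < R := hz
      set t : ℝ := min 1 ((R - dist z (z₀ : ℂ)) / (2 * ‖v‖)) with ht
      have ht0 : 0 < t := lt_min one_pos (div_pos (by linarith) (by positivity))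
      have ht1 : t ≤ 1 := min_le_left _ _
      have ht2 : t * ‖v‖ < R - dist z (z₀ : ℂ) := by
        have h2 : t ≤ (R - dist z (z₀ : ℂ)) / (2 * ‖v‖) := min_le_right _ _
        have h3 : t * ‖v‖ ≤ (R - dist z (z₀ : ℂ)) / (2 * ‖v‖) * ‖v‖ := by gcongr
        have h4 : (R - dist z (z₀ : ℂ)) / (2 * ‖v‖) * ‖v‖ = (R - dist z (z₀ : ℂ)) / 2 := by
          field_simp
        linarith
      refine ⟨t • v, smul_ne_zero ht0.ne' hv0, ?_, flat_mono hfl (shorten ⟨ht0.le, ht1⟩)⟩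
      have hn' : ‖t • v‖ < R - dist z (z₀ : ℂ) := by
        rw [norm_smul, Real.norm_of_nonneg ht0.le]
        exact ht2
      refine (convex_ball _ _).segment_subset ?_ ?_
      · rw [mem_ball]
        have h5 := dist_triangle (z - t • v) z (z₀ : ℂ)
        have h6 : dist (z - t • v) z = ‖t • v‖ := by rw [dist_eq_norm]; simp
        linarith
      · rw [mem_ball]
        have h5 := dist_triangle (z + t • v) z (z₀ : ℂ)
        have h6 : dist (z + t • v) z = ‖t • v‖ := by rw [dist_eq_norm]; simp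
        linarith
  have hthru := h1 f U F (z₀ : ℂ) R hSit
  have hz₀F : (z₀ : ℂ) ∈ closure N := z₀.2.1
  rw [Metric.mem_closure_iff] at hz₀F
  obtain ⟨x, hxN, hx⟩ := hz₀F R hR0
  obtain ⟨v, hv0, hvB, hfl⟩ := hthru x (by rw [mem_ball, dist_comm]; exact hx)
  exact hxN.2 ⟨v, hv0, hvB.trans (ball_subset_closedBall.trans hballU), hfl⟩

end Pool.Agent.Q193.ST
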