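import Pool.Agent.Q193.ST.Stm

namespace Pool.Agent.Q193.ST

open Set Metric Filter Topology MeasureTheory

/-- mean value estimate -/
theorem mve {h h' : ℝ → ℝ} (hd : ∀ y ∈ Icc (-1 : ℝ) 1, HasDerivWithinAt h (h' y) (Icc (-1) 1) y)
    {a b s ω : ℝ} (ha : a ∈ Icc (-1:ℝ) 1) (hb : b ∈ Icc (-1:ℝ) 1)
    (hω : ∀ y ∈ uIcc a b, |h' y - s| ≤ ω) : |h a - h b - s * (a - b)| ≤ ω * |a - b| := by
  have hsub : uIcc b a ⊆ Icc (-1:ℝ) 1 := by
    rw [uIcc_comm]
    exact uIcc_subset_Icc ha hb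
  have key := (convex_uIcc b a).norm_image_sub_le_of_norm_hasDerivWithin_le
    (f := fun y => h y - s * y) (f' := fun y => h' y - s) (C := ω)
    (fun y hy => by
      have h1 := (hd y (hsub hy)).mono hsub
      have h2 := (hasDerivWithinAt_id y (uIcc b a)).const_mul s
      have h3 : HasDerivWithinAt (fun y => h y - s * y) (h' y - s * 1) (uIcc b a) y := h1.sub h2
      rw [mul_one] at h3
      exact h3)
    (fun y hy => by
      rw [uIcc_comm] at hy
      exact hω y hy) left_mem_uIcc right_mem_uIcc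
  simp only [Real.norm_eq_abs] at key
  have e : h a - h b - s * (a - b) = h a - s * a - (h b - s * b) := by ring
  rw [e]
  exact key

theorem t_NULL : J_NULL := by
  intro h h' hd hc P hP hnest
  have huc : UniformContinuousOn h' (Icc (-1) 1) :=
    isCompact_Icc.uniformContinuousOn_of_continuous hc
  have hcover : (fun p : ℝ × ℝ => h' p.1) '' P ⊆
      ⋃ n : ℕ, (fun p : ℝ × ℝ => h' p.1) '' {p ∈ P | 1 / ((n:ℝ) + 1) ≤ p.2 - p.1} := by
    rintro _ ⟨p, hp, rfl⟩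
    obtain ⟨n, hn⟩ := exists_nat_one_div_lt (sub_pos.2 (hP p hp).2.1)
    rw [mem_iUnion]
    exact ⟨n, p, ⟨hp, hn.le⟩, rfl⟩
  refine measure_mono_null hcover (measure_iUnion_null fun n => ?_)
  set c : ℝ := 1 / ((n:ℝ) + 1) with hcdef
  have hc0 : 0 < c := by rw [hcdef]; positivity
  set Pn : Set (ℝ × ℝ) := {p ∈ P | c ≤ p.2 - p.1} with hPn
  -- the basic estimate
  have hest : ∀ ε > 0, ∃ δ > 0, ∀ p ∈ Pn, ∀ q ∈ Pn, |(p.2 - p.1) - (q.2 - q.1)| < δ →
      |h' p.1 - h' q.1| ≤ ε * |(p.2 - p.1) - (q.2 - q.1)| := by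
    intro ε hε
    rw [Metric.uniformContinuousOn_iff] at huc
    obtain ⟨δ, hδ, hδ2⟩ := huc (ε * c) (by positivity)
    refine ⟨δ, hδ, ?_⟩
    rintro p ⟨hp, hpc⟩ q ⟨hq, hqc⟩ hpq
    rcases hnest p hp q hq with h0 | h0
    · rw [h0, sub_self, abs_zero]
      positivity
    obtain ⟨p1, p2, p3, p4, p5⟩ := hP p hp
    obtain ⟨q1, q2, q3, q4, q5⟩ := hP q hq
    have hsum : |p.1 - q.1| + |p.2 - q.2| = |(p.2 - p.1) - (q.2 - q.1)| := by
      rcases h0 with ⟨h01, h02⟩ | ⟨h01, h02⟩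
      · rw [abs_of_neg (by linarith), abs_of_pos (by linarith), abs_of_pos (by linarith)]
        ring
      · rw [abs_of_pos (by linarith), abs_of_neg (by linarith), abs_of_neg (by linarith)]
        ring
    have hosc : ∀ x ∈ Icc (-1:ℝ) 1, ∀ y ∈ Icc (-1:ℝ) 1, |x - y| < δ → |h' x - h' y| ≤ ε * c := by
      intro x hx y hy hxy
      have := hδ2 x hx y hy (by rw [Real.dist_eq]; exact hxy)
      rw [Real.dist_eq] at this
      exact this.le
    have mp1 : p.1 ∈ Icc (-1:ℝ) 1 := ⟨p1, by linarith⟩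
    have mp2 : p.2 ∈ Icc (-1:ℝ) 1 := ⟨by linarith, p3⟩
    have mq1 : q.1 ∈ Icc (-1:ℝ) 1 := ⟨q1, by linarith⟩
    have mq2 : q.2 ∈ Icc (-1:ℝ) 1 := ⟨by linarith, q3⟩
    have e1 := mve hd (s := h' q.1) (ω := ε * c) mp1 mq1 (by
      intro y hy
      refine hosc y (uIcc_subset_Icc mp1 mq1 hy) q.1 mq1 ?_
      have hy' : y ∈ uIcc q.1 p.1 := by rw [uIcc_comm]; exact hy
      have h3 : |y - q.1| ≤ |p.1 - q.1| := abs_sub_left_of_mem_uIcc hy'
      have h4 := abs_nonneg (p.2 - q.2)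
      linarith)
    have e2 := mve hd (s := h' q.1) (ω := ε * c) mp2 mq2 (by
      intro y hy
      rw [q4]
      refine hosc y (uIcc_subset_Icc mp2 mq2 hy) q.2 mq2 ?_
      have hy' : y ∈ uIcc q.2 p.2 := by rw [uIcc_comm]; exact hy
      have h3 : |y - q.2| ≤ |p.2 - q.2| := abs_sub_left_of_mem_uIcc hy'
      have h4 := abs_nonneg (p.1 - q.1)
      linarith)
    -- subtract
    have e3 : (h' p.1 - h' q.1) * (p.2 - p.1) =
        (h p.2 - h q.2 - h' q.1 * (p.2 - q.2)) - (h p.1 - h q.1 - h' q.1 * (p.1 - q.1)) := by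
      linear_combination -p5 + q5
    have e4 : |h' p.1 - h' q.1| * (p.2 - p.1) ≤ ε * c * |(p.2 - p.1) - (q.2 - q.1)| := by
      rw [← abs_of_pos (show 0 < p.2 - p.1 by linarith), ← abs_mul, e3,
        abs_of_pos (show 0 < p.2 - p.1 by linarith), ← hsum]
      refine (abs_sub _ _).trans ?_
      linarith
    have e5 : |h' p.1 - h' q.1| * c ≤ |h' p.1 - h' q.1| * (p.2 - p.1) :=
      mul_le_mul_of_nonneg_left hpc (abs_nonneg _)
    have e6 : |h' p.1 - h' q.1| * c ≤ (ε * |(p.2 - p.1) - (q.2 - q.1)|) * c := by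
      linarith
    exact le_of_mul_le_mul_right e6 hc0
  -- the function v
  classical
  set T : Set ℝ := (fun p : ℝ × ℝ => p.2 - p.1) '' Pn with hT
  have hsame : ∀ p ∈ Pn, ∀ q ∈ Pn, p.2 - p.1 = q.2 - q.1 → h' p.1 = h' q.1 := by
    rintro p ⟨hp, -⟩ q ⟨hq, -⟩ hpq
    rcases hnest p hp q hq with h0 | ⟨h01, h02⟩ | ⟨h01, h02⟩
    · exact h0
    · linarith
    · linarith
  set v : ℝ → ℝ := fun w => if hw : ∃ p ∈ Pn, p.2 - p.1 = w then h' (Classical.choose hw).1 else 0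
    with hv
  have hvp : ∀ p ∈ Pn, v (p.2 - p.1) = h' p.1 := by
    intro p hp
    have hex : ∃ q ∈ Pn, q.2 - q.1 = p.2 - p.1 := ⟨p, hp, rfl⟩
    rw [hv]
    simp only
    rw [dif_pos hex]
    have h3 := Classical.choose_spec hex
    exact hsame _ h3.1 p hp h3.2
  have himg : (fun p : ℝ × ℝ => h' p.1) '' Pn = v '' T := by
    ext y
    constructor
    · rintro ⟨p, hp, rfl⟩
      exact ⟨p.2 - p.1, ⟨p, hp, rfl⟩, hvp p hp⟩
    · rintro ⟨_, ⟨p, hp, rfl⟩, rfl⟩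
      exact ⟨p, hp, (hvp p hp).symm⟩
  rw [himg]
  refine addHaar_image_eq_zero_of_det_fderivWithin_eq_zero volume
    (f' := fun _ => (0 : ℝ →L[ℝ] ℝ)) ?_ ?_
  · rintro _ ⟨p, hp, rfl⟩
    refine HasFDerivWithinAt.of_isLittleO ?_
    rw [Asymptotics.isLittleO_iff]
    intro ε hε
    obtain ⟨δ, hδ, hδ2⟩ := hest ε hε
    have hnear : ∀ᶠ w in 𝓝[T] (p.2 - p.1), |w - (p.2 - p.1)| < δ := by
      refine mem_nhdsWithin_of_mem_nhds ?_
      exact Metric.ball_mem_nhds _ hδ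
    filter_upwards [hnear, self_mem_nhdsWithin] with w hw hwT
    obtain ⟨q, hq, rfl⟩ := hwT
    simp only at hw ⊢
    rw [hvp q hq, hvp p hp]
    simp only [ContinuousLinearMap.zero_apply, sub_zero, Real.norm_eq_abs]
    exact hδ2 q hq p hp hw
  · intro x _
    simp [ContinuousLinearMap.det]

end Pool.Agent.Q193.ST
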