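import Pool.Agent.Q193.ST.THRU

namespace Pool.Agent.Q193.ST

open Set Metric Filter Topology

theorem t_RAYS (h1 : J_TLG2) : J_RAYS := by
  intro f U F p R hS z hz
  have hT := h1 f U F p R hS
  have hD : ContinuousOn (fderiv ℝ f) (closedBall p R) :=
    (hS.hf.continuousOn_fderiv_of_isOpen hS.hU le_rfl).mono hS.hB
  have hzc := ball_subset_closedBall hz
  have hR := hS.hR
  -- the compact set
  have hK : IsCompact (({z} : Set ℂ) ×ˢ ((fun b : ℂ => b - z) '' closedBall p R)) :=
    isCompact_singleton.prod ((isCompact_closedBall p R).image (by fun_prop))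
  have hKB : ∀ x ∈ (({z} : Set ℂ) ×ˢ ((fun b : ℂ => b - z) '' closedBall p R)),
      x.1 ∈ closedBall p R ∧ x.1 + x.2 ∈ closedBall p R := by
    rintro ⟨a, w⟩ ⟨ha, b, hb, rfl⟩
    have ha' : a = z := ha
    subst ha'
    refine ⟨hzc, ?_⟩
    simpa using hb
  have hcomp := flat_compact (convex_closedBall p R) hD hK hKB
  have hne : {x ∈ (({z} : Set ℂ) ×ˢ ((fun b : ℂ => b - z) '' closedBall p R)) |
      Flat f (segment ℝ x.1 (x.1 + x.2))}.Nonempty := by
    refine ⟨(z, 0), ⟨rfl, z, hzc, by simp⟩, ?_⟩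
    simp only [add_zero, segment_same]
    intro x hx y hy
    rw [mem_singleton_iff] at hx hy
    rw [hx, hy]
  obtain ⟨⟨a, w⟩, ⟨⟨ha, hw⟩, hfl⟩, hmax⟩ := hcomp.exists_isMaxOn hne
    (f := fun x : ℂ × ℂ => ‖x.2‖) (by fun_prop)
  have ha' : a = z := ha
  subst ha'
  simp only at hfl
  obtain ⟨b, hb, hbw⟩ := hw
  simp only at hbw
  have hb2 : a + w = b := by rw [← hbw]; ring
  rw [hb2] at hfl
  have hmax' : ∀ c ∈ closedBall p R, Flat f (segment ℝ a c) → ‖c - a‖ ≤ ‖b - a‖ := by
    intro c hc hflc
    have := hmax (show (a, c - a) ∈ _ from ⟨⟨rfl, c, hc, rfl⟩, by simpa using hflc⟩)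
    simp only [mem_ofPred_eq] at this
    rw [← hbw] at this
    exact this
  by_cases hbs : b ∈ sphere p R
  · exact ⟨b, hbs, hfl⟩
  have hbb : b ∈ ball p R := by
    rw [mem_ball]
    exact lt_of_le_of_ne (mem_closedBall.1 hb) (fun h => hbs (mem_sphere.2 h))
  have hflba : Flat f (segment ℝ b a) := by rw [segment_symm]; exact hfl
  by_cases hbF : b ∈ F
  · obtain ⟨c, hc, hflc⟩ := hS.ray b ⟨hbb, hbF⟩
    refine ⟨c, hc, ?_⟩
    refine flat_mono (hT b hb a hzc c (sphere_subset_closedBall hc) hflba hflc) ?_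
    exact (convex_convexHull ℝ _).segment_subset (subset_convexHull ℝ _ (by simp))
      (subset_convexHull ℝ _ (by simp))
  · exfalso
    obtain ⟨v, hv0, hvB, hvfl⟩ := hS.thr b ⟨hbb, hbF⟩
    -- choose the sign
    have key : ∀ v : ℂ, v ≠ 0 → b + v ∈ ball p R → Flat f (segment ℝ b (b + v)) →
        0 ≤ v.re * (b - a).re + v.im * (b - a).im → False := by
      intro v hv0 hvB hvfl hin
      have h2 := hT b hb a hzc (b + v) (ball_subset_closedBall hvB) hflba hvfl
      have h3 : Flat f (segment ℝ a (b + v)) :=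
        flat_mono h2 ((convex_convexHull ℝ _).segment_subset (subset_convexHull ℝ _ (by simp))
          (subset_convexHull ℝ _ (by simp)))
      have h4 := hmax' _ (ball_subset_closedBall hvB) h3
      have h5 : ‖b + v - a‖ ^ 2 ≤ ‖b - a‖ ^ 2 := by gcongr
      rw [← Complex.normSq_eq_norm_sq, ← Complex.normSq_eq_norm_sq, Complex.normSq_apply,
        Complex.normSq_apply] at h5
      have h6 : 0 < v.re * v.re + v.im * v.im := by
        rw [← Complex.normSq_apply]
        exact Complex.normSq_pos.2 hv0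
      simp only [Complex.sub_re, Complex.add_re, Complex.sub_im, Complex.add_im] at h5 hin
      nlinarith
    have hm1 : b + v ∈ ball p R := hvB (right_mem_segment ℝ _ _)
    have hm2 : b + -v ∈ ball p R := by
      rw [← sub_eq_add_neg]
      exact hvB (left_mem_segment ℝ _ _)
    have hbmem : b ∈ segment ℝ (b - v) (b + v) := by
      rw [segment_eq_image']
      refine ⟨1/2, ⟨by norm_num, by norm_num⟩, ?_⟩
      simp only [Complex.real_smul]
      push_cast
      ring
    have hf1 : Flat f (segment ℝ b (b + v)) :=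
      flat_mono hvfl ((convex_segment _ _).segment_subset hbmem (right_mem_segment ℝ _ _))
    have hf2 : Flat f (segment ℝ b (b + -v)) := by
      rw [← sub_eq_add_neg]
      exact flat_mono hvfl ((convex_segment _ _).segment_subset hbmem (left_mem_segment ℝ _ _))
    rcases le_total 0 (v.re * (b - a).re + v.im * (b - a).im) with h | h
    · exact key v hv0 hm1 hf1 h
    · refine key (-v) (neg_ne_zero.2 hv0) hm2 hf2 ?_
      simp only [Complex.neg_re, Complex.neg_im]
      linarith

end Pool.Agent.Q193.ST
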