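import Pool.Agent.Q193.ST.Stm

namespace Pool.Agent.Q193.ST

open Set Metric Filter Topology

theorem flat_mono {f : ℂ → ℝ} {S T : Set ℂ} (h : Flat f T) (hST : S ⊆ T) : Flat f S :=
  fun x hx y hy => h x (hST hx) y (hST hy)

theorem flat_seg_iff {f : ℂ → ℝ} {z w : ℂ} :
    Flat f (segment ℝ z (z + w)) ↔ ∀ t ∈ Icc (0:ℝ) 1, fderiv ℝ f (z + t • w) = fderiv ℝ f z := by
  have hseg : segment ℝ z (z + w) = (fun t : ℝ => z + t • w) '' Icc (0:ℝ) 1 := by
    rw [segment_eq_image']
    simp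
  constructor
  · intro h t ht
    refine h _ ?_ _ (left_mem_segment ℝ _ _)
    rw [hseg]
    exact ⟨t, ht, rfl⟩
  · intro h x hx y hy
    rw [hseg] at hx hy
    obtain ⟨t, ht, rfl⟩ := hx
    obtain ⟨s, hs, rfl⟩ := hy
    simp only
    rw [h t ht, h s hs]

/-- the pairs `(z, w)` of a compact set with flat `[z, z+w]` form a compact set -/
theorem flat_compact {f : ℂ → ℝ} {B : Set ℂ} (hB : Convex ℝ B)
    (hD : ContinuousOn (fderiv ℝ f) B) {K : Set (ℂ × ℂ)} (hK : IsCompact K)
    (hKB : ∀ x ∈ K, x.1 ∈ B ∧ x.1 + x.2 ∈ B) :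
    IsCompact {x ∈ K | Flat f (segment ℝ x.1 (x.1 + x.2))} := by
  have hmem : ∀ x ∈ K, ∀ t ∈ Icc (0:ℝ) 1, x.1 + t • x.2 ∈ B := by
    intro x hx t ht
    have := hB.add_smul_sub_mem (hKB x hx).1 (hKB x hx).2 ht
    simpa using this
  have heq : {x ∈ K | Flat f (segment ℝ x.1 (x.1 + x.2))} =
      ⋂ t ∈ Icc (0:ℝ) 1, {x ∈ K | fderiv ℝ f (x.1 + t • x.2) - fderiv ℝ f x.1 = 0} := by
    ext x
    simp only [mem_setOf_eq, mem_iInter, flat_seg_iff]
    constructor
    · rintro ⟨h1, h2⟩ t ht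
      exact ⟨h1, by rw [h2 t ht, sub_self]⟩
    · intro h
      refine ⟨(h 0 ⟨le_rfl, zero_le_one⟩).1, fun t ht => sub_eq_zero.1 (h t ht).2⟩
  rw [heq]
  have hcl : ∀ t ∈ Icc (0:ℝ) 1,
      IsClosed {x ∈ K | fderiv ℝ f (x.1 + t • x.2) - fderiv ℝ f x.1 = 0} := by
    intro t ht
    have hc : ContinuousOn (fun x : ℂ × ℂ => fderiv ℝ f (x.1 + t • x.2) - fderiv ℝ f x.1) K := by
      refine ContinuousOn.sub ?_ ?_
      · exact hD.comp (by fun_prop) (fun x hx => hmem x hx t ht)
      · exact hD.comp (by fun_prop) (fun x hx => (hKB x hx).1)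
    exact hc.preimage_isClosed_of_isClosed hK.isClosed (isClosed_singleton (x := (0 : ℂ →L[ℝ] ℝ)))
  refine hK.of_isClosed_subset (isClosed_biInter hcl) ?_
  intro x hx
  simp only [mem_iInter] at hx
  exact (hx 0 ⟨le_rfl, zero_le_one⟩).1

/-- the set of vectors `w` with flat `[z, z+w]` is convex -/
theorem convW {f : ℂ → ℝ} {p : ℂ} {R : ℝ}
    (hT : ∀ o ∈ closedBall p R, ∀ A ∈ closedBall p R, ∀ B ∈ closedBall p R,
      Flat f (segment ℝ o A) → Flat f (segment ℝ o B) → Flat f (convexHull ℝ {o, A, B}))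
    {z : ℂ} (hz : z ∈ closedBall p R) :
    Convex ℝ {w : ℂ | z + w ∈ closedBall p R ∧ Flat f (segment ℝ z (z + w))} := by
  rintro w1 ⟨h1, h1'⟩ w2 ⟨h2, h2'⟩ a b ha hb hab
  have hmem : z + (a • w1 + b • w2) ∈ convexHull ℝ {z, z + w1, z + w2} := by
    have := (convex_convexHull ℝ {z, z + w1, z + w2}) (subset_convexHull ℝ _ (show z + w1 ∈ ({z, z + w1, z + w2} : Set ℂ) by simp))
      (subset_convexHull ℝ _ (show z + w2 ∈ ({z, z + w1, z + w2} : Set ℂ) by simp)) ha hb hab
    have e : z + (a • w1 + b • w2) = a • (z + w1) + b • (z + w2) := by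
      rw [smul_add, smul_add]
      have : z = (a + b) • z := by rw [hab, one_smul]
      nth_rewrite 1 [this]
      rw [add_smul]
      abel
    rw [e]
    exact this
  refine ⟨?_, flat_mono (hT z hz _ h1 _ h2 h1' h2') ?_⟩
  · refine convexHull_min ?_ (convex_closedBall p R) hmem
    intro x hx
    simp only [mem_insert_iff, mem_singleton_iff] at hx
    rcases hx with rfl | rfl | rfl
    · exact hz
    · exact h1
    · exact h2
  · exact (convex_convexHull ℝ _).segment_subset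
      (subset_convexHull ℝ _ (by simp)) hmem

/-- vectors `w` with flat `[z, z+w]` inside the closed ball -/
def Wz (f : ℂ → ℝ) (p : ℂ) (R : ℝ) (z : ℂ) : Set ℂ :=
  {w : ℂ | z + w ∈ closedBall p R ∧ Flat f (segment ℝ z (z + w))}

theorem starW {f : ℂ → ℝ} {p : ℂ} {R : ℝ} {z w : ℂ} (hz : z ∈ closedBall p R)
    (hw : w ∈ Wz f p R z) {t : ℝ} (ht : t ∈ Icc (0:ℝ) 1) : t • w ∈ Wz f p R z := by
  have hsub : segment ℝ z (z + t • w) ⊆ segment ℝ z (z + w) := by
    refine (convex_segment z (z + w)).segment_subset (left_mem_segment ℝ _ _) ?_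
    rw [segment_eq_image']
    exact ⟨t, ht, by simp⟩
  refine ⟨?_, flat_mono hw.2 hsub⟩
  exact (convex_closedBall p R).segment_subset hz hw.1 (hsub (right_mem_segment ℝ _ _))

theorem noboth {f : ℂ → ℝ} {p : ℂ} {R : ℝ} {q : ℂ} (hq : q ∈ ball p R)
    (hmid : ¬ ∃ v : ℂ, v ≠ 0 ∧ segment ℝ (q - v) (q + v) ⊆ ball p R ∧
      Flat f (segment ℝ (q - v) (q + v))) {w : ℂ} (hw0 : w ≠ 0) (h1 : w ∈ Wz f p R q)
    (h2 : -w ∈ Wz f p R q) : False := by
  apply hmid
  have hqc := ball_subset_closedBall hq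
  have hr : 0 < R - dist q p := by
    have := mem_ball.1 hq
    linarith
  have hwn : 0 < ‖w‖ := norm_pos_iff.2 hw0
  set t : ℝ := min 1 ((R - dist q p) / (2 * ‖w‖)) with ht
  have ht0 : 0 < t := lt_min one_pos (by positivity)
  have ht1 : t ≤ 1 := min_le_left _ _
  have ht2 : t * ‖w‖ < R - dist q p := by
    have : t ≤ (R - dist q p) / (2 * ‖w‖) := min_le_right _ _
    have h3 : t * ‖w‖ ≤ (R - dist q p) / (2 * ‖w‖) * ‖w‖ := by gcongr
    have h4 : (R - dist q p) / (2 * ‖w‖) * ‖w‖ = (R - dist q p) / 2 := by field_simp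
    linarith
  have s1 := starW hqc h1 ⟨ht0.le, ht1⟩
  have s2 := starW hqc h2 ⟨ht0.le, ht1⟩
  have hseg : segment ℝ (q - t • w) (q + t • w) ⊆
      segment ℝ q (q + t • w) ∪ segment ℝ q (q + t • -w) := by
    intro x hx
    rw [segment_eq_image'] at hx
    obtain ⟨θ, hθ, rfl⟩ := hx
    simp only
    rcases le_total θ (1/2) with h | h
    · right
      rw [segment_eq_image']
      refine ⟨1 - 2 * θ, ⟨by linarith, by linarith [hθ.1]⟩, ?_⟩
      simp only [Complex.real_smul]
      push_cast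
      ring
    · left
      rw [segment_eq_image']
      refine ⟨2 * θ - 1, ⟨by linarith, by linarith [hθ.2]⟩, ?_⟩
      simp only [Complex.real_smul]
      push_cast
      ring
  refine ⟨t • w, smul_ne_zero ht0.ne' hw0, ?_, ?_⟩
  · refine (convex_ball p R).segment_subset ?_ ?_
    · rw [mem_ball]
      have : dist (q - t • w) p ≤ dist q p + ‖t • w‖ := by
        have h5 := dist_triangle (q - t • w) q p
        have h6 : dist (q - t • w) q = ‖t • w‖ := by rw [dist_eq_norm]; simp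
        linarith
      rw [norm_smul, Real.norm_of_nonneg ht0.le] at this
      linarith
    · rw [mem_ball]
      have : dist (q + t • w) p ≤ dist q p + ‖t • w‖ := by
        have h5 := dist_triangle (q + t • w) q p
        have h6 : dist (q + t • w) q = ‖t • w‖ := by rw [dist_eq_norm]; simp
        linarith
      rw [norm_smul, Real.norm_of_nonneg ht0.le] at this
      linarith
  · have key : ∀ x ∈ segment ℝ (q - t • w) (q + t • w), fderiv ℝ f x = fderiv ℝ f q := by
      intro x hx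
      rcases hseg hx with h | h
      · exact s1.2 x h q (left_mem_segment ℝ _ _)
      · exact s2.2 x h q (left_mem_segment ℝ _ _)
    intro x hx y hy
    rw [key x hx, key y hy]

theorem convW0 {f : ℂ → ℝ} {p : ℂ} {R : ℝ} {q : ℂ}
    (hT : ∀ o ∈ closedBall p R, ∀ A ∈ closedBall p R, ∀ B ∈ closedBall p R,
      Flat f (segment ℝ o A) → Flat f (segment ℝ o B) → Flat f (convexHull ℝ {o, A, B}))
    (hq : q ∈ ball p R)
    (hmid : ¬ ∃ v : ℂ, v ≠ 0 ∧ segment ℝ (q - v) (q + v) ⊆ ball p R ∧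
      Flat f (segment ℝ (q - v) (q + v))) : Convex ℝ (Wz f p R q \ {0}) := by
  have hqc := ball_subset_closedBall hq
  rintro w1 ⟨h1, h10⟩ w2 ⟨h2, h20⟩ a b ha hb hab
  refine ⟨convW hT hqc h1 h2 ha hb hab, ?_⟩
  intro h0
  rw [mem_singleton_iff] at h0 h10 h20
  have ha' : 0 < a := by
    rcases ha.eq_or_lt with h | h
    · exfalso
      rw [← h, zero_add] at hab
      rw [← h, hab] at h0
      simp at h0
      exact h20 h0
    · exact h
  have hb' : 0 < b := by
    rcases hb.eq_or_lt with h | h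
    · exfalso
      rw [← h, add_zero] at hab
      rw [← h, hab] at h0
      simp at h0
      exact h10 h0
    · exact h
  have e2 : w2 = -((a / b) • w1) := by
    have : b • w2 = -(a • w1) := by
      rw [eq_neg_iff_add_eq_zero, add_comm]
      exact h0
    have h3 : w2 = b⁻¹ • (b • w2) := by rw [smul_smul, inv_mul_cancel₀ hb'.ne', one_smul]
    rw [h3, this, smul_neg, smul_smul]
    congr 2
    rw [div_eq_inv_mul]
  have hab' : 0 < a / b := by positivity
  rcases le_total (a / b) 1 with h | h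
  · have s1 := starW hqc h1 (t := a / b) ⟨hab'.le, h⟩
    have s2 : -((a / b) • w1) ∈ Wz f p R q := by rw [← e2]; exact h2
    exact noboth hq hmid (smul_ne_zero hab'.ne' h10) s1 s2
  · have s2 := starW hqc h2 (t := b / a) ⟨by positivity, by rw [div_le_one ha']; rwa [one_le_div hb'] at h⟩
    have e3 : (b / a) • w2 = -w1 := by
      rw [e2, smul_neg, smul_smul]
      have : b / a * (a / b) = 1 := by field_simp
      rw [this, one_smul]
    rw [e3] at s2
    exact noboth hq hmid h10 h1 s2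

/-- long stationary vectors -/
theorem longW {f : ℂ → ℝ} {p : ℂ} {R δ : ℝ} {z : ℂ}
    (hray : ∃ c ∈ sphere p R, Flat f (segment ℝ z c)) (hδ : 0 < δ) (hz : dist z p + δ ≤ R) :
    ∃ w : ℂ, ‖w‖ = δ ∧ w ∈ Wz f p R z := by
  obtain ⟨c, hc, hfl⟩ := hray
  have hd : δ ≤ ‖c - z‖ := by
    have h1 := dist_triangle c z p
    rw [mem_sphere.1 hc] at h1
    rw [← dist_eq_norm]
    linarith
  have hpos : 0 < ‖c - z‖ := lt_of_lt_of_le hδ hd
  have hzc : z ∈ closedBall p R := by
    rw [mem_closedBall]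
    linarith
  have hc' : c - z ∈ Wz f p R z := by
    refine ⟨?_, ?_⟩
    · rw [add_sub_cancel]
      exact sphere_subset_closedBall hc
    · rw [add_sub_cancel]
      exact hfl
  refine ⟨(δ / ‖c - z‖) • (c - z), ?_, starW hzc hc' ⟨by positivity, by rwa [div_le_one hpos]⟩⟩
  rw [norm_smul, Real.norm_of_nonneg (by positivity)]
  field_simp

/-- step 1: a direction `n` -/
theorem exists_n {f : ℂ → ℝ} {p : ℂ} {R δ : ℝ} {q : ℂ} (hδ : 0 < δ) (hq : q ∈ ball p R)
    (hD : ContinuousOn (fderiv ℝ f) (closedBall p R))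
    (hqd : dist q p + δ ≤ R)
    (hT : ∀ o ∈ closedBall p R, ∀ A ∈ closedBall p R, ∀ B ∈ closedBall p R,
      Flat f (segment ℝ o A) → Flat f (segment ℝ o B) → Flat f (convexHull ℝ {o, A, B}))
    (hray : ∃ c ∈ sphere p R, Flat f (segment ℝ q c))
    (hmid : ¬ ∃ v : ℂ, v ≠ 0 ∧ segment ℝ (q - v) (q + v) ⊆ ball p R ∧
      Flat f (segment ℝ (q - v) (q + v))) :
    ∃ n : ℂ, ‖n‖ = 1 ∧ ∀ w : ℂ, ‖w‖ = δ → w ∈ Wz f p R q →
      0 < n.re * w.re + n.im * w.im := by
  have hqc := ball_subset_closedBall hq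
  have hconv := convW0 hT hq hmid
  obtain ⟨w1, hw1n, hw1⟩ := longW hray hδ hqd
  have hw10 : w1 ≠ 0 := by
    intro h
    rw [h, norm_zero] at hw1n
    exact hδ.ne hw1n
  -- the compact set of long directions
  have hK : IsCompact (({q} : Set ℂ) ×ˢ sphere (0:ℂ) δ) :=
    isCompact_singleton.prod (isCompact_sphere 0 δ)
  have hKB : ∀ x ∈ (({q} : Set ℂ) ×ˢ sphere (0:ℂ) δ), x.1 ∈ closedBall p R ∧
      x.1 + x.2 ∈ closedBall p R := by
    rintro ⟨z, w⟩ ⟨hz, hw⟩
    simp only [mem_singleton_iff] at hz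
    subst hz
    refine ⟨hqc, ?_⟩
    rw [mem_sphere_zero_iff_norm] at hw
    rw [mem_closedBall]
    have h5 := dist_triangle (z + w) z p
    have h6 : dist (z + w) z = ‖w‖ := by rw [dist_eq_norm]; simp
    simp only at *
    linarith
  have hcomp := flat_compact (convex_closedBall p R) hD hK hKB
  set Dq : Set ℂ := {w | ‖w‖ = δ ∧ w ∈ Wz f p R q} with hDq
  have hDqc : IsCompact Dq := by
    have : Dq = Prod.snd '' {x ∈ (({q} : Set ℂ) ×ˢ sphere (0:ℂ) δ) |
        Flat f (segment ℝ x.1 (x.1 + x.2))} := by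
      ext w
      constructor
      · rintro ⟨h1, h2⟩
        exact ⟨(q, w), ⟨⟨rfl, mem_sphere_zero_iff_norm.2 h1⟩, h2.2⟩, rfl⟩
      · rintro ⟨⟨z, w'⟩, ⟨⟨hz, hw⟩, h2⟩, rfl⟩
        have hz' : z = q := hz
        subst hz'
        exact ⟨mem_sphere_zero_iff_norm.1 hw, (hKB (z, w') ⟨rfl, hw⟩).2, h2⟩
    rw [this]
    exact hcomp.image continuous_snd
  have hne : Dq.Nonempty := ⟨w1, hw1n, hw1⟩
  -- the angle
  have hslit : ∀ w ∈ Dq, w / w1 ∈ Complex.slitPlane := by
    rintro w ⟨hwn, hw⟩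
    have hn : ‖w / w1‖ = 1 := by rw [norm_div, hwn, hw1n, div_self hδ.ne']
    rw [Complex.mem_slitPlane_iff]
    by_contra hcon
    push Not at hcon
    obtain ⟨hre, him⟩ := hcon
    have h1 : ‖w / w1‖ ^ 2 = (w / w1).re ^ 2 := by
      rw [← Complex.normSq_eq_norm_sq, Complex.normSq_apply, him]
      ring
    rw [hn] at h1
    have h2 : (w / w1).re = -1 := by nlinarith
    have h3 : w / w1 = -1 := Complex.ext (by rw [h2]; simp) (by rw [him]; simp)
    have h4 : w = -w1 := by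
      field_simp at h3
      exact h3
    rw [h4] at hw
    exact noboth hq hmid hw10 hw1 hw
  have hαc : ContinuousOn (fun w : ℂ => Complex.arg (w / w1)) Dq := by
    intro w hw
    have hc1 : ContinuousAt (fun w : ℂ => w / w1) w := by fun_prop
    exact (ContinuousAt.comp (f := fun w : ℂ => w / w1) (g := Complex.arg)
      (Complex.continuousAt_arg (hslit w hw)) hc1).continuousWithinAt
  have hexp : ∀ w ∈ Dq, w = w1 * Complex.exp (Complex.arg (w / w1) * Complex.I) := by
    rintro w ⟨hwn, -⟩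
    have hn : ‖w / w1‖ = 1 := by rw [norm_div, hwn, hw1n, div_self hδ.ne']
    have := Complex.norm_mul_exp_arg_mul_I (w / w1)
    rw [hn] at this
    simp only [Complex.ofReal_one, one_mul] at this
    rw [this]
    field_simp
  obtain ⟨wm, hwm, hmin⟩ := hDqc.exists_isMinOn hne hαc
  obtain ⟨wp, hwp, hmax⟩ := hDqc.exists_isMaxOn hne hαc
  set αm : ℝ := Complex.arg (wm / w1) with hαm
  set αp : ℝ := Complex.arg (wp / w1) with hαp
  have hα1 : Complex.arg (w1 / w1) = 0 := by rw [div_self hw10]; exact Complex.arg_one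
  have hm0 : αm ≤ 0 := by
    have := hmin (show w1 ∈ Dq from ⟨hw1n, hw1⟩)
    simp only [mem_setOf_eq, hα1] at this
    exact this
  have hp0 : 0 ≤ αp := by
    have := hmax (show w1 ∈ Dq from ⟨hw1n, hw1⟩)
    simp only [mem_setOf_eq, hα1] at this
    exact this
  have hm1 : -Real.pi < αm := Complex.neg_pi_lt_arg _
  have hp1 : αp < Real.pi := by
    refine lt_of_le_of_ne (Complex.arg_le_pi _) ?_
    intro h
    rw [Complex.arg_eq_pi_iff] at h
    have := hslit wp hwp
    rw [Complex.mem_slitPlane_iff] at this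
    rcases this with h2 | h2
    · linarith [h.1]
    · exact h2 h.2
  have hlt : αp - αm < Real.pi := by
    by_contra hcon
    push Not at hcon
    have hap : 0 < Real.sin αp := by
      apply Real.sin_pos_of_pos_of_lt_pi
      · linarith
      · exact hp1
    have ham : 0 < Real.sin (-αm) := by
      apply Real.sin_pos_of_pos_of_lt_pi
      · linarith
      · linarith
    have hb : 0 ≤ -Real.sin (αp - αm) := by
      have : Real.sin (αp - αm) = -Real.sin (αp - αm - Real.pi) := by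
        rw [Real.sin_sub_pi]; ring
      rw [this, neg_neg]
      apply Real.sin_nonneg_of_nonneg_of_le_pi
      · linarith
      · linarith
    set a : ℝ := Real.sin (-αm) with ha
    set b : ℝ := -Real.sin (αp - αm) with hbdef
    set c : ℝ := Real.sin αp with hc
    have hsum : 0 < a + b + c := by positivity
    have hzero : a • wp + b • w1 + c • wm = 0 := by
      have e1 := hexp wp hwp
      have e2 := hexp wm hwm
      rw [← hαp] at e1
      rw [← hαm] at e2
      rw [e1, e2]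
      simp only [Complex.real_smul]
      have e3 : (a : ℂ) * (w1 * Complex.exp (αp * Complex.I)) + b * w1 +
          c * (w1 * Complex.exp (αm * Complex.I)) =
          w1 * (a * Complex.exp (αp * Complex.I) + b + c * Complex.exp (αm * Complex.I)) := by
        ring
      rw [e3]
      have e4 : (a : ℂ) * Complex.exp (αp * Complex.I) + b + c * Complex.exp (αm * Complex.I) = 0 := by
        rw [Complex.exp_mul_I, Complex.exp_mul_I, ← Complex.ofReal_cos, ← Complex.ofReal_sin,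
          ← Complex.ofReal_cos, ← Complex.ofReal_sin]
        apply Complex.ext
        · simp only [Complex.add_re, Complex.mul_re, Complex.ofReal_re, Complex.ofReal_im,
            Complex.I_re, Complex.I_im, Complex.add_im, Complex.mul_im, Complex.zero_re]
          rw [ha, hbdef, hc, Real.sin_sub, Real.sin_neg]
          ring
        · simp only [Complex.add_re, Complex.mul_re, Complex.ofReal_re, Complex.ofReal_im,
            Complex.I_re, Complex.I_im, Complex.add_im, Complex.mul_im, Complex.zero_im]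
          rw [ha, hc, Real.sin_neg]
          ring
      rw [e4, mul_zero]
    have hmemP : ∀ w ∈ Dq, w ∈ Wz f p R q \ {0} := by
      rintro w ⟨hwn, hw⟩
      refine ⟨hw, ?_⟩
      intro h
      rw [mem_singleton_iff] at h
      rw [h, norm_zero] at hwn
      exact hδ.ne hwn
    have hab : 0 < a + b := by positivity
    have h12 : (a / (a + b)) • wp + (b / (a + b)) • w1 ∈ Wz f p R q \ {0} :=
      hconv (hmemP wp hwp) (hmemP w1 ⟨hw1n, hw1⟩) (by positivity) (by positivity)
        (by field_simp)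
    have h123 := hconv h12 (hmemP wm hwm) (a := (a + b) / (a + b + c)) (b := c / (a + b + c))
      (by positivity) (by positivity) (by field_simp)
    apply h123.2
    rw [mem_singleton_iff]
    have e5 : ((a + b) / (a + b + c)) • ((a / (a + b)) • wp + (b / (a + b)) • w1) +
        (c / (a + b + c)) • wm = (1 / (a + b + c)) • (a • wp + b • w1 + c • wm) := by
      simp only [smul_add, smul_smul]
      congr 3
      · field_simp
      · field_simp
      · ring
    rw [e5, hzero, smul_zero]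
  -- the direction
  set μ : ℝ := (αp + αm) / 2 with hμ
  refine ⟨(w1 / δ) * Complex.exp (μ * Complex.I), ?_, ?_⟩
  · rw [norm_mul, Complex.norm_exp_ofReal_mul_I, mul_one, norm_div, hw1n,
      Complex.norm_real, Real.norm_of_nonneg hδ.le, div_self hδ.ne']
  · intro w hwn hw
    have hwD : w ∈ Dq := ⟨hwn, hw⟩
    have e1 := hexp w hwD
    have l1 : αm ≤ Complex.arg (w / w1) := hmin hwD
    have l2 : Complex.arg (w / w1) ≤ αp := hmax hwD
    set α : ℝ := Complex.arg (w / w1) with hα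
    have hcos : 0 < Real.cos (α - μ) := by
      apply Real.cos_pos_of_mem_Ioo
      constructor
      · rw [hμ]; linarith
      · rw [hμ]; linarith
    have e2 : ((w1 / δ) * Complex.exp (μ * Complex.I)).re * w.re +
        ((w1 / δ) * Complex.exp (μ * Complex.I)).im * w.im =
        ((starRingEnd ℂ) ((w1 / δ) * Complex.exp (μ * Complex.I)) * w).re := by
      simp only [Complex.mul_re, Complex.conj_re, Complex.conj_im]
      ring
    have e3 : (starRingEnd ℂ) ((w1 / δ) * Complex.exp (μ * Complex.I)) * w =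
        ((δ * Real.cos (α - μ) : ℝ) : ℂ) + ((δ * Real.sin (α - μ) : ℝ) : ℂ) * Complex.I := by
      rw [e1, map_mul, map_div₀, Complex.conj_ofReal, ← Complex.exp_conj, map_mul,
        Complex.conj_ofReal, Complex.conj_I]
      have e4 : (starRingEnd ℂ) w1 / δ * Complex.exp (μ * -Complex.I) *
          (w1 * Complex.exp (α * Complex.I)) =
          ((starRingEnd ℂ) w1 * w1) / δ * (Complex.exp (μ * -Complex.I) *
            Complex.exp (α * Complex.I)) := by ring
      rw [e4, ← Complex.exp_add]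
      have e5 : (μ : ℂ) * -Complex.I + α * Complex.I = ((α - μ : ℝ) : ℂ) * Complex.I := by
        push_cast
        ring
      have e6 : (starRingEnd ℂ) w1 * w1 = ((δ ^ 2 : ℝ) : ℂ) := by
        rw [mul_comm, Complex.mul_conj, Complex.normSq_eq_norm_sq, hw1n]
      have e7 : (δ : ℂ) ≠ 0 := by exact_mod_cast hδ.ne'
      rw [e5, e6, Complex.exp_mul_I, ← Complex.ofReal_cos, ← Complex.ofReal_sin]
      push_cast
      field_simp
    rw [e2, e3]
    have e8 : (((δ * Real.cos (α - μ) : ℝ) : ℂ) +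
        ((δ * Real.sin (α - μ) : ℝ) : ℂ) * Complex.I).re = δ * Real.cos (α - μ) := by
      simp only [Complex.add_re, Complex.mul_re, Complex.ofReal_re, Complex.ofReal_im,
        Complex.I_re, Complex.I_im]
      ring
    rw [e8]
    exact mul_pos hδ hcos

theorem t_THRU (h1 : J_TLG2) (h2 : J_RAYS) : J_THRU := by
  intro f U F p R hS q hq
  by_contra hmid
  have hT := h1 f U F p R hS
  have hray := h2 f U F p R hS
  have hD : ContinuousOn (fderiv ℝ f) (closedBall p R) :=
    (hS.hf.continuousOn_fderiv_of_isOpen hS.hU le_rfl).mono hS.hB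
  have hqc := ball_subset_closedBall hq
  set δ : ℝ := (R - dist q p) / 2 with hδd
  have hδ : 0 < δ := by
    have := mem_ball.1 hq
    rw [hδd]
    linarith
  have hqd : dist q p + 2 * δ = R := by rw [hδd]; ring
  obtain ⟨n, hn1, hnpos⟩ := exists_n hδ hq hD (by linarith) hT (hray q hq) hmid
  have hnn : n.re * n.re + n.im * n.im = 1 := by
    have := Complex.normSq_apply n
    rw [Complex.normSq_eq_norm_sq, hn1] at this
    linarith
  -- the compact set of pairs
  set K : Set (ℂ × ℂ) := closedBall q (δ / 2) ×ˢ sphere (0:ℂ) δ with hKdef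
  have hK : IsCompact K := (isCompact_closedBall q (δ / 2)).prod (isCompact_sphere 0 δ)
  have hzB : ∀ z ∈ closedBall q (δ / 2), dist z p + δ ≤ R := by
    intro z hz
    have h5 := dist_triangle z q p
    have h6 := mem_closedBall.1 hz
    linarith
  have hzB' : ∀ z ∈ closedBall q (δ / 2), z ∈ closedBall p R := by
    intro z hz
    rw [mem_closedBall]
    linarith [hzB z hz]
  have hKB : ∀ x ∈ K, x.1 ∈ closedBall p R ∧ x.1 + x.2 ∈ closedBall p R := by
    rintro ⟨z, w⟩ ⟨hz, hw⟩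
    refine ⟨hzB' z hz, ?_⟩
    rw [mem_sphere_zero_iff_norm] at hw
    rw [mem_closedBall]
    have h5 := dist_triangle (z + w) z p
    have h6 : dist (z + w) z = ‖w‖ := by rw [dist_eq_norm]; simp
    have h7 := hzB z hz
    simp only at *
    linarith
  have hcomp := flat_compact (convex_closedBall p R) hD hK hKB
  set 𝒟 : Set (ℂ × ℂ) := {x ∈ K | Flat f (segment ℝ x.1 (x.1 + x.2))} with h𝒟
  -- lower bound at q
  have hgc : Continuous fun w : ℂ => n.re * w.re + n.im * w.im := by fun_prop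
  obtain ⟨κ0, hκ0, hκ0b⟩ : ∃ κ0 : ℝ, 0 < κ0 ∧ ∀ w : ℂ, (q, w) ∈ 𝒟 →
      κ0 ≤ n.re * w.re + n.im * w.im := by
    have hc1 : IsCompact (𝒟 ∩ (fun x : ℂ × ℂ => x.1) ⁻¹' {q}) :=
      hcomp.inter_right (isClosed_singleton.preimage continuous_fst)
    rcases (𝒟 ∩ (fun x : ℂ × ℂ => x.1) ⁻¹' {q}).eq_empty_or_nonempty with he | hne
    · refine ⟨1, one_pos, fun w hw => ?_⟩
      exfalso
      have : (q, w) ∈ 𝒟 ∩ (fun x : ℂ × ℂ => x.1) ⁻¹' {q} := ⟨hw, rfl⟩
      rw [he] at this
      exact this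
    · obtain ⟨x0, hx0, hmin⟩ := hc1.exists_isMinOn hne
        (f := fun x : ℂ × ℂ => n.re * x.2.re + n.im * x.2.im) (by fun_prop)
      refine ⟨n.re * x0.2.re + n.im * x0.2.im, ?_, ?_⟩
      · obtain ⟨⟨hx0K, hfl⟩, hx1⟩ := hx0
        have hx1' : x0.1 = q := hx1
        rw [hx1'] at hfl
        refine hnpos x0.2 (mem_sphere_zero_iff_norm.1 hx0K.2) ⟨?_, hfl⟩
        have := (hKB x0 hx0K).2
        rwa [hx1'] at this
      · intro w hw
        exact hmin (show (q, w) ∈ 𝒟 ∩ (fun x : ℂ × ℂ => x.1) ⁻¹' {q} from ⟨hw, rfl⟩)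
  set κ : ℝ := κ0 / 2 with hκd
  have hκ : 0 < κ := by rw [hκd]; linarith
  obtain ⟨ρ, hρ, hρb⟩ : ∃ ρ : ℝ, 0 < ρ ∧ ∀ z w : ℂ, dist z q < ρ → (z, w) ∈ 𝒟 →
      κ ≤ n.re * w.re + n.im * w.im := by
    have hc1 : IsCompact (𝒟 ∩ {x : ℂ × ℂ | n.re * x.2.re + n.im * x.2.im ≤ κ}) :=
      hcomp.inter_right (isClosed_le (by fun_prop) continuous_const)
    have hc2 := (hc1.image continuous_fst).isClosed
    have hq2 : q ∈ (Prod.fst '' (𝒟 ∩ {x : ℂ × ℂ | n.re * x.2.re + n.im * x.2.im ≤ κ}))ᶜ := by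
      rintro ⟨⟨z, w⟩, ⟨hx, hle⟩, hz⟩
      have hz' : z = q := hz
      subst hz'
      have h3 := hκ0b w hx
      have h4 : n.re * w.re + n.im * w.im ≤ κ := hle
      rw [hκd] at h4
      linarith
    obtain ⟨ρ, hρ, hsub⟩ := Metric.isOpen_iff.1 hc2.isOpen_compl q hq2
    refine ⟨ρ, hρ, fun z w hz hx => ?_⟩
    by_contra hcon
    push Not at hcon
    exact hsub (mem_ball.2 hz) ⟨(z, w), ⟨hx, hcon.le⟩, rfl⟩
  -- the transversal
  obtain ⟨ε, hε, hε1, hε2, hε3⟩ : ∃ ε : ℝ, 0 < ε ∧ ε * (1 + 2 * δ / κ) < ρ ∧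
      ε * (1 + 2 * δ / κ) ≤ δ / 2 ∧ 2 * ε ≤ κ := by
    have hc : 0 < 1 + 2 * δ / κ := by positivity
    refine ⟨min (min (ρ / 2 / (1 + 2 * δ / κ)) (δ / 2 / (1 + 2 * δ / κ))) (κ / 2), ?_, ?_, ?_, ?_⟩
    · positivity
    · have h3 : min (min (ρ / 2 / (1 + 2 * δ / κ)) (δ / 2 / (1 + 2 * δ / κ))) (κ / 2) ≤
          ρ / 2 / (1 + 2 * δ / κ) := (min_le_left _ _).trans (min_le_left _ _)
      have h4 := mul_le_mul_of_nonneg_right h3 hc.le
      rw [div_mul_cancel₀ _ hc.ne'] at h4
      linarith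
    · have h3 : min (min (ρ / 2 / (1 + 2 * δ / κ)) (δ / 2 / (1 + 2 * δ / κ))) (κ / 2) ≤
          δ / 2 / (1 + 2 * δ / κ) := (min_le_left _ _).trans (min_le_right _ _)
      have h4 := mul_le_mul_of_nonneg_right h3 hc.le
      rw [div_mul_cancel₀ _ hc.ne'] at h4
      exact h4
    · have h3 : min (min (ρ / 2 / (1 + 2 * δ / κ)) (δ / 2 / (1 + 2 * δ / κ))) (κ / 2) ≤ κ / 2 :=
        min_le_right _ _
      linarith
  set S : ℝ := 2 * ε * δ / κ with hSd
  have hS0 : 0 < S := by rw [hSd]; positivity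
  set zs : ℝ → ℂ := fun s => q + (-ε : ℝ) • n + s • (Complex.I * n) with hzs
  have hzsc : Continuous zs := by rw [hzs]; fun_prop
  have hzsd : ∀ s ∈ Icc (-S) S, dist (zs s) q ≤ ε * (1 + 2 * δ / κ) := by
    intro s hs
    rw [dist_eq_norm]
    have e : zs s - q = (-ε : ℝ) • n + s • (Complex.I * n) := by rw [hzs]; simp only; ring
    rw [e]
    refine (norm_add_le _ _).trans ?_
    rw [norm_smul, norm_smul, norm_mul, hn1, Complex.norm_I, Real.norm_eq_abs, Real.norm_eq_abs,
      abs_neg, abs_of_pos hε]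
    have h3 : |s| ≤ S := abs_le.2 ⟨hs.1, hs.2⟩
    have h4 : S = ε * (2 * δ / κ) := by rw [hSd]; ring
    rw [h4] at h3
    linarith
  have hzsK : ∀ s ∈ Icc (-S) S, zs s ∈ closedBall q (δ / 2) := fun s hs =>
    mem_closedBall.2 ((hzsd s hs).trans hε2)
  have hzsρ : ∀ s ∈ Icc (-S) S, dist (zs s) q < ρ := fun s hs => lt_of_le_of_lt (hzsd s hs) hε1
  have hex : ∀ s ∈ Icc (-S) S, ∃ w : ℂ, (zs s, w) ∈ 𝒟 := by
    intro s hs
    have hb : zs s ∈ ball p R := by
      rw [mem_ball]
      have := hzB _ (hzsK s hs)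
      linarith
    obtain ⟨w, hwn, hw⟩ := longW (hray _ hb) hδ (hzB _ (hzsK s hs))
    exact ⟨w, ⟨⟨hzsK s hs, mem_sphere_zero_iff_norm.2 hwn⟩, hw.2⟩⟩
  -- the two closed sets
  have hIc : IsCompact (Icc (-S) S ×ˢ sphere (0:ℂ) δ) := isCompact_Icc.prod (isCompact_sphere 0 δ)
  have hclosed : ∀ φ : ℝ × ℂ → ℝ, Continuous φ →
      IsClosed {s : ℝ | s ∈ Icc (-S) S ∧ ∃ w : ℂ, (zs s, w) ∈ 𝒟 ∧ 0 ≤ φ (s, w)} := by
    intro φ hφ
    have e : {s : ℝ | s ∈ Icc (-S) S ∧ ∃ w : ℂ, (zs s, w) ∈ 𝒟 ∧ 0 ≤ φ (s, w)} =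
        Prod.fst '' ((Icc (-S) S ×ˢ sphere (0:ℂ) δ) ∩ ((fun x : ℝ × ℂ => (zs x.1, x.2)) ⁻¹' 𝒟 ∩
          {x | 0 ≤ φ x})) := by
      ext s
      constructor
      · rintro ⟨hs, w, hw, hφw⟩
        exact ⟨(s, w), ⟨⟨hs, hw.1.2⟩, hw, hφw⟩, rfl⟩
      · rintro ⟨⟨s', w⟩, ⟨⟨hs, hw⟩, hw2, hφw⟩, rfl⟩
        exact ⟨hs, w, hw2, hφw⟩
    rw [e]
    refine (IsCompact.image ?_ continuous_fst).isClosed
    refine hIc.inter_right (IsClosed.inter ?_ (isClosed_le continuous_const hφ))
    exact hcomp.isClosed.preimage ((hzsc.comp continuous_fst).prodMk continuous_snd)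
  set A1 : Set ℝ := {s : ℝ | s ∈ Icc (-S) S ∧ ∃ w : ℂ, (zs s, w) ∈ 𝒟 ∧
    0 ≤ (fun x : ℝ × ℂ => x.1 * (n.re * x.2.re + n.im * x.2.im) +
      ε * (n.re * x.2.im - n.im * x.2.re)) (s, w)} with hA1
  set A2 : Set ℝ := {s : ℝ | s ∈ Icc (-S) S ∧ ∃ w : ℂ, (zs s, w) ∈ 𝒟 ∧
    0 ≤ (fun x : ℝ × ℂ => -(x.1 * (n.re * x.2.re + n.im * x.2.im) +
      ε * (n.re * x.2.im - n.im * x.2.re))) (s, w)} with hA2
  have hA1c : IsClosed A1 := hclosed (fun x : ℝ × ℂ => x.1 * (n.re * x.2.re + n.im * x.2.im) +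
      ε * (n.re * x.2.im - n.im * x.2.re)) (by fun_prop)
  have hA2c : IsClosed A2 := hclosed (fun x : ℝ × ℂ => -(x.1 * (n.re * x.2.re + n.im * x.2.im) +
      ε * (n.re * x.2.im - n.im * x.2.re))) (by fun_prop)
  have hhbound : ∀ w : ℂ, ‖w‖ = δ → |n.re * w.im - n.im * w.re| ≤ δ := by
    intro w hw
    apply abs_le_of_sq_le_sq _ hδ.le
    have h3 : w.re * w.re + w.im * w.im = δ ^ 2 := by
      have := Complex.normSq_apply w
      rw [Complex.normSq_eq_norm_sq, hw] at this
      linarith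
    nlinarith [sq_nonneg (n.re * w.re + n.im * w.im)]
  have hcov : Icc (-S) S ⊆ A1 ∪ A2 := by
    intro s hs
    obtain ⟨w, hw⟩ := hex s hs
    rcases le_total 0 (s * (n.re * w.re + n.im * w.im) + ε * (n.re * w.im - n.im * w.re)) with h | h
    · left
      exact ⟨hs, w, hw, h⟩
    · right
      exact ⟨hs, w, hw, by simp only; linarith⟩
  have hend : ∀ w : ℂ, ‖w‖ = δ → κ ≤ n.re * w.re + n.im * w.im →
      ε * |n.re * w.im - n.im * w.re| ≤ S * (n.re * w.re + n.im * w.im) := by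
    intro w hw hk
    have h3 := hhbound w hw
    have h4 : ε * |n.re * w.im - n.im * w.re| ≤ ε * δ := by gcongr
    have h5 : S * κ ≤ S * (n.re * w.re + n.im * w.im) := by gcongr
    have h6 : S * κ = 2 * ε * δ := by rw [hSd]; field_simp
    have h7 : 0 < ε * δ := by positivity
    linarith
  have hne1 : (Icc (-S) S ∩ A1).Nonempty := by
    have hs : S ∈ Icc (-S) S := ⟨by linarith, le_rfl⟩
    obtain ⟨w, hw⟩ := hex S hs
    refine ⟨S, hs, hs, w, hw, ?_⟩
    have h3 := hend w (mem_sphere_zero_iff_norm.1 hw.1.2) (hρb _ _ (hzsρ S hs) hw)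
    have h4 := neg_abs_le (n.re * w.im - n.im * w.re)
    have h5 : -(ε * |n.re * w.im - n.im * w.re|) ≤ ε * (n.re * w.im - n.im * w.re) := by
      nlinarith
    simp only
    linarith
  have hne2 : (Icc (-S) S ∩ A2).Nonempty := by
    have hs : -S ∈ Icc (-S) S := ⟨le_rfl, by linarith⟩
    obtain ⟨w, hw⟩ := hex (-S) hs
    refine ⟨-S, hs, hs, w, hw, ?_⟩
    have h3 := hend w (mem_sphere_zero_iff_norm.1 hw.1.2) (hρb _ _ (hzsρ (-S) hs) hw)
    have h4 := le_abs_self (n.re * w.im - n.im * w.re)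
    have h5 : ε * (n.re * w.im - n.im * w.re) ≤ ε * |n.re * w.im - n.im * w.re| := by
      nlinarith
    simp only
    linarith
  obtain ⟨s, hs, ⟨-, w1, hw1, hφ1⟩, -, w2, hw2, hφ2⟩ :=
    isPreconnected_closed_iff.1 (isPreconnected_Icc (a := -S) (b := S)) A1 A2 hA1c hA2c hcov
      hne1 hne2
  simp only at hφ1 hφ2
  have hk1 := hρb _ _ (hzsρ s hs) hw1
  have hk2 := hρb _ _ (hzsρ s hs) hw2
  have hzsB : zs s ∈ closedBall p R := hzB' _ (hzsK s hs)
  have hW1 : w1 ∈ Wz f p R (zs s) := ⟨(hKB _ hw1.1).2, hw1.2⟩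
  have hW2 : w2 ∈ Wz f p R (zs s) := ⟨(hKB _ hw2.1).2, hw2.2⟩
  -- the combination
  obtain ⟨w, hW, hg, hh⟩ : ∃ w : ℂ, w ∈ Wz f p R (zs s) ∧ κ ≤ n.re * w.re + n.im * w.im ∧
      s * (n.re * w.re + n.im * w.im) + ε * (n.re * w.im - n.im * w.re) = 0 := by
    set σ1 : ℝ := s * (n.re * w1.re + n.im * w1.im) + ε * (n.re * w1.im - n.im * w1.re) with hσ1
    set σ2 : ℝ := s * (n.re * w2.re + n.im * w2.im) + ε * (n.re * w2.im - n.im * w2.re) with hσ2
    rcases eq_or_lt_of_le hφ1 with h | h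
    · exact ⟨w1, hW1, hk1, h.symm⟩
    · have hd : 0 < σ1 - σ2 := by linarith
      have ha : 0 ≤ -σ2 / (σ1 - σ2) := div_nonneg (by linarith) hd.le
      have hb : 0 ≤ σ1 / (σ1 - σ2) := div_nonneg h.le hd.le
      have hab : -σ2 / (σ1 - σ2) + σ1 / (σ1 - σ2) = 1 := by field_simp; ring
      refine ⟨(-σ2 / (σ1 - σ2)) • w1 + (σ1 / (σ1 - σ2)) • w2,
        convW hT hzsB hW1 hW2 ha hb hab, ?_, ?_⟩
      · simp only [Complex.add_re, Complex.add_im, Complex.real_smul, Complex.re_ofReal_mul,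
          Complex.im_ofReal_mul]
        have e1 : n.re * (-σ2 / (σ1 - σ2) * w1.re + σ1 / (σ1 - σ2) * w2.re) +
            n.im * (-σ2 / (σ1 - σ2) * w1.im + σ1 / (σ1 - σ2) * w2.im) =
            (-σ2 / (σ1 - σ2)) * (n.re * w1.re + n.im * w1.im) +
            (σ1 / (σ1 - σ2)) * (n.re * w2.re + n.im * w2.im) := by ring
        rw [e1]
        have e2 : κ = (-σ2 / (σ1 - σ2)) * κ + (σ1 / (σ1 - σ2)) * κ := by
          rw [← add_mul, hab, one_mul]
        rw [e2]
        exact add_le_add (mul_le_mul_of_nonneg_left hk1 ha) (mul_le_mul_of_nonneg_left hk2 hb)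
      · simp only [Complex.add_re, Complex.add_im, Complex.real_smul, Complex.re_ofReal_mul,
          Complex.im_ofReal_mul]
        have e1 : s * (n.re * (-σ2 / (σ1 - σ2) * w1.re + σ1 / (σ1 - σ2) * w2.re) +
            n.im * (-σ2 / (σ1 - σ2) * w1.im + σ1 / (σ1 - σ2) * w2.im)) +
            ε * (n.re * (-σ2 / (σ1 - σ2) * w1.im + σ1 / (σ1 - σ2) * w2.im) -
              n.im * (-σ2 / (σ1 - σ2) * w1.re + σ1 / (σ1 - σ2) * w2.re)) =
            (-σ2 / (σ1 - σ2)) * σ1 + (σ1 / (σ1 - σ2)) * σ2 := by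
          rw [hσ1, hσ2]
          ring
        rw [e1]
        field_simp
        ring
  -- conclusion
  set g : ℝ := n.re * w.re + n.im * w.im with hgd
  have hg0 : 0 < g := lt_of_lt_of_le hκ hg
  have hv : q - zs s = (ε / g) • w := by
    have e1 : q - zs s = ε • n - s • (Complex.I * n) := by
      rw [hzs]
      simp only [neg_smul]
      ring
    have e2 : n.re * w.im - n.im * w.re = -s * g / ε := by
      field_simp
      linarith
    have e3 : w.re = g * n.re + (s * g / ε) * n.im := by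
      have : w.re = g * n.re - (n.re * w.im - n.im * w.re) * n.im := by
        rw [hgd]
        linear_combination (-w.re) * hnn
      rw [this, e2]
      ring
    have e4 : w.im = g * n.im - (s * g / ε) * n.re := by
      have : w.im = g * n.im + (n.re * w.im - n.im * w.re) * n.re := by
        rw [hgd]
        linear_combination (-w.im) * hnn
      rw [this, e2]
      ring
    rw [e1]
    apply Complex.ext
    · simp only [Complex.sub_re, Complex.real_smul, Complex.mul_re, Complex.mul_im,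
        Complex.I_re, Complex.I_im, Complex.ofReal_re, Complex.ofReal_im]
      rw [e3]
      field_simp
      ring
    · simp only [Complex.sub_im, Complex.real_smul, Complex.mul_re, Complex.mul_im,
        Complex.I_re, Complex.I_im, Complex.ofReal_re, Complex.ofReal_im]
      rw [e4]
      field_simp
      ring
  have h2v : (2 : ℝ) • (q - zs s) ∈ Wz f p R (zs s) := by
    rw [hv, smul_smul]
    refine starW hzsB hW ⟨by positivity, ?_⟩
    rw [← mul_div_assoc, div_le_one hg0]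
    linarith
  apply hmid
  refine ⟨q - zs s, ?_, ?_, ?_⟩
  · rw [hv]
    refine smul_ne_zero (by positivity) ?_
    intro h0
    rw [hgd, h0] at hg0
    simp at hg0
  · refine (convex_ball p R).segment_subset ?_ ?_
    · rw [sub_sub_cancel, mem_ball]
      have := hzB _ (hzsK s hs)
      linarith
    · rw [mem_ball]
      have h5 := dist_triangle (q + (q - zs s)) q p
      have h6 : dist (q + (q - zs s)) q = dist (zs s) q := by
        rw [dist_eq_norm, dist_eq_norm, add_sub_cancel_left, norm_sub_rev]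
      have h7 := hzsd s hs
      linarith
  · have e5 : q - (q - zs s) = zs s := sub_sub_cancel _ _
    have e6 : q + (q - zs s) = zs s + (2 : ℝ) • (q - zs s) := by
      rw [two_smul]
      ring
    rw [e5, e6]
    exact h2v.2

end Pool.Agent.Q193.ST
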