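import Pool.Agent.Q193.ST.TLG1

namespace Pool.Agent.Q193.ST

open Set Metric Filter Topology MeasureTheory

theorem comp_closed {L : Set ℂ} (hL : IsClosed L) {z : ℂ} (hz : z ∈ L) :
    IsClosed (connectedComponentIn L z) := by
  have h1 : IsPreconnected (closure (connectedComponentIn L z)) :=
    isPreconnected_connectedComponentIn.closure
  have h2 : closure (connectedComponentIn L z) ⊆ L :=
    closure_minimal (connectedComponentIn_subset _ _) hL
  have h3 := h1.subset_connectedComponentIn (subset_closure (mem_connectedComponentIn hz)) h2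
  exact isClosed_of_closure_subset h3

theorem t_TLA (h1 : J_UNI) (h2 : J_CROSS) (h3 : J_COMP) (h4 : J_NULL) : J_TLA := by
  intro β k h hβ hk hside hh hS e he
  set G : ℂ → ℝ × ℝ := fun z => (β z, k z) with hG
  have hGc : ContinuousOn G Tri := hβ.prodMk hk
  set K : ℂ → Set ℂ := fun z => connectedComponentIn {w | w ∈ Tri ∧ G w = G z} z with hK
  have hLcl : ∀ z, IsClosed {w | w ∈ Tri ∧ G w = G z} := fun z =>
    hGc.preimage_isClosed_of_isClosed tri_closed (isClosed_singleton (x := G z))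
  have hKT : ∀ z, K z ⊆ Tri := fun z w hw => (connectedComponentIn_subset _ _ hw).1
  have hKG : ∀ z, ∀ w ∈ K z, β w = β z ∧ k w = k z := by
    intro z w hw
    have h5 := (connectedComponentIn_subset _ _ hw).2
    simp only [hG, Prod.mk.injEq] at h5
    exact h5
  have hKz : ∀ z ∈ Tri, z ∈ K z := fun z hz => mem_connectedComponentIn ⟨hz, rfl⟩
  have hKc : ∀ z ∈ Tri, IsCompact (K z) := fun z hz =>
    tri_compact.of_isClosed_subset (comp_closed (hLcl z) ⟨hz, rfl⟩) (hKT z)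
  have hKp : ∀ z, IsPreconnected (K z) := fun z => isPreconnected_connectedComponentIn
  have hKeq : ∀ z, ∀ w ∈ K z, K w = K z := by
    intro z w hw
    have h5 := (connectedComponentIn_subset _ _ hw).2
    have h6 : {y | y ∈ Tri ∧ G y = G w} = {y | y ∈ Tri ∧ G y = G z} := by rw [h5]
    simp only [hK]
    rw [h6]
    exact (connectedComponentIn_eq hw).symm
  have hKre : ∀ z ∈ Tri, ∃ w ∈ K z, w.re = 1 := by
    intro z hz
    obtain ⟨S, hS1, hS2, hS3, hS4, w, hw, hw1⟩ := hS z hz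
    refine ⟨w, ?_, hw1⟩
    refine hS1.subset_connectedComponentIn hS2 ?_ hw
    intro y hy
    refine ⟨hS3 hy, ?_⟩
    simp only [hG, (hS4 y hy).1, (hS4 y hy).2]
  -- the closed sets
  set C1 : Set ℂ := {w | w.re = 1 ∧ w.im ≤ e} with hC1
  set C2 : Set ℂ := {w | w.re = 1 ∧ e ≤ w.im} with hC2
  have hC1c : IsClosed C1 := by
    have : C1 = {w : ℂ | w.re = 1} ∩ {w : ℂ | w.im ≤ e} := rfl
    rw [this]
    exact (isClosed_eq (by fun_prop) (by fun_prop)).inter (isClosed_le (by fun_prop) (by fun_prop))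
  have hC2c : IsClosed C2 := by
    have : C2 = {w : ℂ | w.re = 1} ∩ {w : ℂ | e ≤ w.im} := rfl
    rw [this]
    exact (isClosed_eq (by fun_prop) (by fun_prop)).inter (isClosed_le (by fun_prop) (by fun_prop))
  set Low : Set ℂ := {z | z ∈ Tri ∧ (K z ∩ C1).Nonempty} with hLow
  set Up : Set ℂ := {z | z ∈ Tri ∧ (K z ∩ C2).Nonempty} with hUp
  have hLowc : IsClosed Low := h3 Tri C1 G tri_compact hC1c hGc
  have hUpc : IsClosed Up := h3 Tri C2 G tri_compact hC2c hGc
  have hcov : Low ∪ Up = Tri := by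
    apply subset_antisymm
    · rintro z (hz | hz)
      · exact hz.1
      · exact hz.1
    · intro z hz
      obtain ⟨w, hw, hw1⟩ := hKre z hz
      rcases le_total w.im e with hwe | hwe
      · exact Or.inl ⟨hz, w, hw, hw1, hwe⟩
      · exact Or.inr ⟨hz, w, hw, hw1, hwe⟩
  have hconv1 : Convex ℝ (C1 ∩ Tri) := by
    refine Convex.inter ?_ tri_convex
    intro z hz w hw a b ha hb hab
    constructor
    · simp only [Complex.add_re, Complex.real_smul, Complex.re_ofReal_mul, hz.1, hw.1]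
      linarith
    · simp only [Complex.add_im, Complex.real_smul, Complex.im_ofReal_mul]
      have h5 := mul_le_mul_of_nonneg_left hz.2 ha
      have h6 := mul_le_mul_of_nonneg_left hw.2 hb
      have h7 : a * e + b * e = e := by rw [← add_mul, hab, one_mul]
      linarith
  have hconv2 : Convex ℝ (C2 ∩ Tri) := by
    refine Convex.inter ?_ tri_convex
    intro z hz w hw a b ha hb hab
    constructor
    · simp only [Complex.add_re, Complex.real_smul, Complex.re_ofReal_mul, hz.1, hw.1]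
      linarith
    · simp only [Complex.add_im, Complex.real_smul, Complex.im_ofReal_mul]
      have h5 := mul_le_mul_of_nonneg_left hz.2 ha
      have h6 := mul_le_mul_of_nonneg_left hw.2 hb
      have h7 : a * e + b * e = e := by rw [← add_mul, hab, one_mul]
      linarith
  have heT : (⟨1, e⟩ : ℂ) ∈ Tri := ⟨abs_le.2 he, le_rfl⟩
  have hprec : ∀ C : Set ℂ, Convex ℝ (C ∩ Tri) → (⟨1, e⟩ : ℂ) ∈ C →
      IsPreconnected {z | z ∈ Tri ∧ (K z ∩ C).Nonempty} := by
    intro C hC heC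
    refine isPreconnected_of_forall (⟨1, e⟩ : ℂ) ?_
    rintro y ⟨hy, w, hwK, hwC⟩
    refine ⟨K y ∪ (C ∩ Tri), ?_, Or.inr ⟨heC, heT⟩, Or.inl (hKz y hy), ?_⟩
    · rintro x (hx | hx)
      · exact ⟨hKT y hx, w, by rw [hKeq y x hx]; exact hwK, hwC⟩
      · exact ⟨hx.2, x, hKz x hx.2, hx.1⟩
    · exact IsPreconnected.union w hwK ⟨hwC, hKT y hwK⟩ (hKp y) hC.isPreconnected
  have hLowp : IsPreconnected Low := hprec C1 hconv1 ⟨rfl, le_rfl⟩
  have hUpp : IsPreconnected Up := hprec C2 hconv2 ⟨rfl, le_rfl⟩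
  have hDp : IsPreconnected (Low ∩ Up) :=
    h1 Tri Low Up tri_convex tri_compact hLowc hUpc hcov hLowp hUpp
  -- the two special points
  have heD : (⟨1, e⟩ : ℂ) ∈ Low ∩ Up :=
    ⟨⟨heT, _, hKz _ heT, rfl, le_rfl⟩, ⟨heT, _, hKz _ heT, rfl, le_rfl⟩⟩
  have h0T : (0:ℂ) ∈ Tri := ⟨by simp, by simp⟩
  have hV : segment ℝ (0:ℂ) ⟨1, 1⟩ ∪ segment ℝ (0:ℂ) ⟨1, -1⟩ ⊆ K 0 := by
    have hVp : IsPreconnected (segment ℝ (0:ℂ) ⟨1, 1⟩ ∪ segment ℝ (0:ℂ) ⟨1, -1⟩) :=
      IsPreconnected.union (0:ℂ) (left_mem_segment ℝ _ _) (left_mem_segment ℝ _ _)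
        (convex_segment _ _).isPreconnected (convex_segment _ _).isPreconnected
    refine hVp.subset_connectedComponentIn (Or.inl (left_mem_segment ℝ _ _)) ?_
    intro z hz
    have hz2 : z ∈ Tri ∧ |z.im| = z.re := by
      rcases hz with hz | hz
      · rw [segment_eq_image'] at hz
        obtain ⟨t, ht, rfl⟩ := hz
        simp only [sub_zero, zero_add, Complex.real_smul]
        refine ⟨⟨?_, ?_⟩, ?_⟩
        · simp [abs_of_nonneg ht.1]
        · simpa using ht.2
        · simp [abs_of_nonneg ht.1]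
      · rw [segment_eq_image'] at hz
        obtain ⟨t, ht, rfl⟩ := hz
        simp only [sub_zero, zero_add, Complex.real_smul]
        refine ⟨⟨?_, ?_⟩, ?_⟩
        · simp [abs_of_nonneg ht.1]
        · simpa using ht.2
        · simp [abs_of_nonneg ht.1]
    refine ⟨hz2.1, ?_⟩
    obtain ⟨b1, b2⟩ := hside z hz2.1 hz2.2
    obtain ⟨b3, b4⟩ := hside 0 h0T (by simp)
    simp only [hG, b1, b2, b3, b4]
  have h0D : (0:ℂ) ∈ Low ∩ Up := by
    refine ⟨⟨h0T, ⟨1, -1⟩, hV (Or.inr (right_mem_segment ℝ _ _)), rfl, he.1⟩,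
      ⟨h0T, ⟨1, 1⟩, hV (Or.inl (right_mem_segment ℝ _ _)), rfl, he.2⟩⟩
  have hβ0 : β 0 = 0 := (hside 0 h0T (by simp)).1
  -- the null set
  set P : Set (ℝ × ℝ) := {p | ∃ z ∈ Tri, (⟨1, p.1⟩ : ℂ) ∈ K z ∧ (⟨1, p.2⟩ : ℂ) ∈ K z ∧
    p.1 ≤ e ∧ e ≤ p.2 ∧ p.1 < p.2} with hP
  have hnull := h4 h (fun y => β ⟨1, y⟩) (fun y hy => (hh y hy).1)
    (by
      have hc : Continuous fun y : ℝ => (⟨1, y⟩ : ℂ) := by
        have : (fun y : ℝ => (⟨1, y⟩ : ℂ)) = fun y : ℝ => 1 + (y : ℂ) * Complex.I := by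
          funext y
          apply Complex.ext <;> simp
        rw [this]
        fun_prop
      exact hβ.comp hc.continuousOn (fun y hy => ⟨abs_le.2 hy, le_rfl⟩)) P
    (by
      rintro ⟨a, b⟩ ⟨z, hz, ha, hb, hae, heb, hab⟩
      simp only at ha hb hae heb hab ⊢
      have haT := hKT z ha
      have hbT := hKT z hb
      have ha1 := abs_le.1 haT.1
      have hb1 := abs_le.1 hbT.1
      simp only at ha1 hb1
      obtain ⟨ga, ka⟩ := hKG z _ ha
      obtain ⟨gb, kb⟩ := hKG z _ hb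
      refine ⟨ha1.1, hab, hb1.2, by rw [ga, gb], ?_⟩
      rw [(hh b ⟨by linarith, hb1.2⟩).2, (hh a ⟨ha1.1, by linarith⟩).2, ga, ka, gb, kb]
      ring)
    (by
      rintro ⟨a, b⟩ ⟨z, hz, ha, hb, hae, heb, hab⟩ ⟨a', b'⟩ ⟨z', hz', ha', hb', hae', heb', hab'⟩
      simp only at ha hb hae heb hab ha' hb' hae' heb' hab' ⊢
      by_cases hββ : β ⟨1, a⟩ = β ⟨1, a'⟩
      · exact Or.inl hββ
      right
      have hne : β z ≠ β z' := by
        rw [← (hKG z _ ha).1, ← (hKG z' _ ha').1]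
        exact hββ
      have hdisj : ∀ w, w ∈ K z → w ∈ K z' → False := by
        intro w hw hw'
        exact hne (by rw [← (hKG z w hw).1, ← (hKG z' w hw').1])
      have hdisj1 : Disjoint (K z) (K z') := disjoint_left.2 (fun w hw hw' => hdisj w hw hw')
      have hre : ∀ z, ∀ w ∈ K z, w.re ≤ 1 := fun z w hw => (hKT z hw).2
      have n1 : a ≠ a' := by rintro rfl; exact hdisj _ ha ha'
      have n2 : b ≠ b' := by rintro rfl; exact hdisj _ hb hb'
      have n3 : a' ≠ b := by rintro rfl; exact hdisj _ hb ha'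
      have n4 : a ≠ b' := by rintro rfl; exact hdisj _ ha hb'
      rcases lt_or_gt_of_ne n1 with hlt | hlt
      · left
        refine ⟨hlt, ?_⟩
        by_contra hcon
        push Not at hcon
        have h5 : b < b' := lt_of_le_of_ne hcon n2
        have h6 : a' < b := lt_of_le_of_ne (hae'.trans heb) n3
        exact h2 (K z) (K z') (hKc z hz) (hKc z' hz') (hKp z) (hKp z') (hre z) (hre z') hdisj1
          _ ha _ hb _ ha' _ hb' rfl rfl rfl rfl hlt h6 h5
      · right
        refine ⟨hlt, ?_⟩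
        by_contra hcon
        push Not at hcon
        have h5 : b' < b := lt_of_le_of_ne hcon n2.symm
        have h6 : a < b' := lt_of_le_of_ne (hae.trans heb') n4
        exact h2 (K z') (K z) (hKc z' hz') (hKc z hz) (hKp z') (hKp z) (hre z') (hre z)
          hdisj1.symm _ ha' _ hb' _ ha _ hb rfl rfl rfl rfl hlt h6 h5)
  have himg : β '' (Low ∩ Up) ⊆ {β ⟨1, e⟩} ∪ (fun p : ℝ × ℝ => β ⟨1, p.1⟩) '' P := by
    rintro _ ⟨z, ⟨⟨hz, w1, hw1, hw1r, hw1e⟩, ⟨-, w2, hw2, hw2r, hw2e⟩⟩, rfl⟩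
    have e1 : w1 = (⟨1, w1.im⟩ : ℂ) := Complex.ext hw1r rfl
    have e2 : w2 = (⟨1, w2.im⟩ : ℂ) := Complex.ext hw2r rfl
    rcases eq_or_lt_of_le (hw1e.trans hw2e) with heq | hlt
    · left
      have : w1.im = e := le_antisymm hw1e (by rw [heq]; exact hw2e)
      rw [mem_singleton_iff, ← (hKG z w1 hw1).1, e1, this]
    · right
      refine ⟨(w1.im, w2.im), ⟨z, hz, by rw [← e1]; exact hw1, by rw [← e2]; exact hw2, hw1e,
        hw2e, hlt⟩, ?_⟩
      simp only
      rw [← e1]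
      exact (hKG z w1 hw1).1
  have hvol : volume (β '' (Low ∩ Up)) = 0 := by
    refine measure_mono_null himg ?_
    refine measure_union_null ?_ hnull
    simp
  by_contra hne
  have hDsub : Low ∩ Up ⊆ Tri := fun z hz => hz.1.1
  have hord := (hDp.image β (hβ.mono hDsub)).ordConnected
  have hsub : uIcc (β ⟨1, e⟩) 0 ⊆ β '' (Low ∩ Up) :=
    hord.uIcc_subset ⟨_, heD, rfl⟩ ⟨0, h0D, hβ0⟩
  have hvol2 := measure_mono_null hsub hvol
  rw [Real.volume_interval, ENNReal.ofReal_eq_zero] at hvol2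
  have := abs_pos.2 (sub_ne_zero.2 (Ne.symm hne))
  linarith

end Pool.Agent.Q193.ST
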