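import Pool.Agent.Q193.ST.THRU

namespace Pool.Agent.Q193.ST

open Set Metric Filter Topology

theorem hull3 {o A B x : ℂ} (hx : x ∈ convexHull ℝ {o, A, B}) :
    ∃ t ∈ Icc (0:ℝ) 1, ∃ s ∈ Icc (0:ℝ) 1, x = o + t • (A + s • (B - A) - o) := by
  rw [convexHull_insert (by simp), convexHull_pair, mem_convexJoin] at hx
  obtain ⟨o', ho', y, hy, hxy⟩ := hx
  rw [mem_singleton_iff] at ho'
  subst ho'
  rw [segment_eq_image'] at hy hxy
  obtain ⟨s, hs, rfl⟩ := hy
  obtain ⟨t, ht, rfl⟩ := hxy
  exact ⟨t, ht, s, hs, rfl⟩

theorem hull3_mem {o A B : ℂ} {t s : ℝ} (ht : t ∈ Icc (0:ℝ) 1) (hs : s ∈ Icc (0:ℝ) 1) :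
    o + t • (A + s • (B - A) - o) ∈ convexHull ℝ {o, A, B} := by
  rw [convexHull_insert (by simp), convexHull_pair, mem_convexJoin]
  refine ⟨o, rfl, A + s • (B - A), ?_, ?_⟩
  · rw [segment_eq_image']
    exact ⟨s, hs, rfl⟩
  · rw [segment_eq_image']
    exact ⟨t, ht, rfl⟩

/-- along a segment on which the derivative in the direction of the segment is constant -/
theorem along {f : ℂ → ℝ} {U : Set ℂ} (hU : IsOpen U) (hf : ContDiffOn ℝ 1 f U) {x y : ℂ}
    (hxy : segment ℝ x y ⊆ U) {c : ℝ} (hc : ∀ z ∈ segment ℝ x y, fderiv ℝ f z (y - x) = c) :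
    f y = f x + c := by
  have hmem : ∀ r ∈ Icc (0:ℝ) 1, x + r • (y - x) ∈ segment ℝ x y := by
    intro r hr
    rw [segment_eq_image']
    exact ⟨r, hr, rfl⟩
  have hd : ∀ r ∈ Icc (0:ℝ) 1, HasDerivAt (fun r : ℝ => f (x + r • (y - x))) c r := by
    intro r hr
    have h1 : HasFDerivAt f (fderiv ℝ f (x + r • (y - x))) (x + r • (y - x)) :=
      ((hf.differentiableOn one_ne_zero).differentiableAt
        (hU.mem_nhds (hxy (hmem r hr)))).hasFDerivAt
    have h2 : HasDerivAt (fun r : ℝ => x + r • (y - x)) (y - x) r := by
      have := (hasDerivAt_id r).smul_const (y - x)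
      simpa using this.const_add x
    have h3 := h1.comp_hasDerivAt r h2
    rw [hc _ (hmem r hr)] at h3
    exact h3
  obtain ⟨r, hr, hr2⟩ := exists_hasDerivAt_eq_slope (fun r : ℝ => f (x + r • (y - x)))
    (fun _ => c) zero_lt_one (fun r hr => (hd r hr).continuousAt.continuousWithinAt)
    (fun r hr => hd r (Ioo_subset_Icc_self hr))
  simp only [one_smul, zero_smul, add_zero, sub_zero, div_one, add_sub_cancel] at hr2
  linarith

theorem t_TLG2 (h1 : J_TLG1) : J_TLG2 := by
  intro f U F p R hS o ho A hA B hB hfA hfB
  have h2 := h1 f U F p R hS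
  have hcb := convex_closedBall p R
  have hSU : closedBall p R ⊆ U := hS.hB
  have hhull : convexHull ℝ {o, A, B} ⊆ closedBall p R := by
    refine convexHull_min ?_ hcb
    intro x hx
    simp only [mem_insert_iff, mem_singleton_iff] at hx
    rcases hx with rfl | rfl | rfl
    · exact ho
    · exact hA
    · exact hB
  -- it is enough to compare with `o`
  suffices key : ∀ x ∈ convexHull ℝ {o, A, B}, fderiv ℝ f x = fderiv ℝ f o by
    intro x hx y hy
    rw [key x hx, key y hy]
  have keyA : ∀ x ∈ segment ℝ o A, fderiv ℝ f x = fderiv ℝ f o := fun x hx =>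
    hfA x hx o (left_mem_segment ℝ _ _)
  have keyB : ∀ x ∈ segment ℝ o B, fderiv ℝ f x = fderiv ℝ f o := fun x hx =>
    hfB x hx o (left_mem_segment ℝ _ _)
  have hAt : ∀ t ∈ Icc (0:ℝ) 1, o + t • (A - o) ∈ segment ℝ o A := by
    intro t ht
    rw [segment_eq_image']
    exact ⟨t, ht, rfl⟩
  have hBt : ∀ t ∈ Icc (0:ℝ) 1, o + t • (B - o) ∈ segment ℝ o B := by
    intro t ht
    rw [segment_eq_image']
    exact ⟨t, ht, rfl⟩
  by_cases hli : LinearIndependent ℝ ![A - o, B - o]
  · -- independent case
    have hlip := LinearIndependent.pair_iff.1 hli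
    -- derivative along the cross lines
    have hcross : ∀ t ∈ Icc (0:ℝ) 1, ∀ s ∈ Icc (0:ℝ) 1,
        fderiv ℝ f (o + t • (A + s • (B - A) - o)) (t • (B - A)) =
          fderiv ℝ f o (t • (B - A)) := by
      intro t ht s hs
      rcases eq_or_lt_of_le ht.1 with h0 | h0
      · rw [← h0]; simp
      have hli' : LinearIndependent ℝ ![(o + t • (A - o)) - o, (o + t • (B - o)) - o] := by
        rw [LinearIndependent.pair_iff]
        intro a b hab
        have hab' : (a * t) • (A - o) + (b * t) • (B - o) = 0 := by
          rw [← hab]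
          simp only [add_sub_cancel_left, smul_smul]
        obtain ⟨h3, h4⟩ := hlip _ _ hab'
        exact ⟨(mul_eq_zero.1 h3).resolve_right h0.ne', (mul_eq_zero.1 h4).resolve_right h0.ne'⟩
      have hmA := hAt t ht
      have hmB := hBt t ht
      have h3 := h2 o ho (o + t • (A - o)) (hcb.segment_subset ho hA hmA) (o + t • (B - o))
        (hcb.segment_subset ho hB hmB) hli'
        (flat_mono hfA ((convex_segment _ _).segment_subset (left_mem_segment ℝ _ _) hmA))
        (flat_mono hfB ((convex_segment _ _).segment_subset (left_mem_segment ℝ _ _) hmB))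
        (o + t • (A + s • (B - A) - o)) (by
          rw [segment_eq_image']
          refine ⟨s, hs, ?_⟩
          simp only [Complex.real_smul]
          ring)
      have e : o + t • (B - o) - (o + t • (A - o)) = t • (B - A) := by
        simp only [Complex.real_smul]
        ring
      rw [e] at h3
      exact h3
    -- the values
    have hval : ∀ t ∈ Icc (0:ℝ) 1, ∀ s ∈ Icc (0:ℝ) 1,
        f (o + t • (A + s • (B - A) - o)) = f o + fderiv ℝ f o (t • (A + s • (B - A) - o)) := by
      intro t ht s hs
      have e1 : f (o + t • (A - o)) = f o + fderiv ℝ f o (t • (A - o)) := by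
        refine along hS.hU hS.hf (((convex_segment _ _).segment_subset
          (left_mem_segment ℝ _ _) (hAt t ht)).trans ((hcb.segment_subset ho hA).trans hSU)) ?_
        intro z hz
        rw [keyA z ((convex_segment _ _).segment_subset
          (left_mem_segment ℝ _ _) (hAt t ht) hz), add_sub_cancel_left]
      have e2 : f (o + t • (A + s • (B - A) - o)) =
          f (o + t • (A - o)) + s * fderiv ℝ f o (t • (B - A)) := by
        refine along hS.hU hS.hf ?_ ?_
        · refine (hcb.segment_subset ?_ ?_).trans hSU
          · exact hcb.segment_subset ho hA (hAt t ht)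
          · exact hhull (hull3_mem ht hs)
        · intro z hz
          rw [segment_eq_image'] at hz
          obtain ⟨r, hr, rfl⟩ := hz
          have hrs : r * s ∈ Icc (0:ℝ) 1 := ⟨mul_nonneg hr.1 hs.1, mul_le_one₀ hr.2 hs.1 hs.2⟩
          have e3 : o + t • (A - o) + r • (o + t • (A + s • (B - A) - o) - (o + t • (A - o))) =
              o + t • (A + (r * s) • (B - A) - o) := by
            simp only [Complex.real_smul]
            push_cast
            ring
          have e4 : o + t • (A + s • (B - A) - o) - (o + t • (A - o)) = s • (t • (B - A)) := by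
            simp only [Complex.real_smul]
            ring
          simp only
          rw [e3, e4, map_smul, hcross t ht (r * s) hrs, smul_eq_mul]
      rw [e2, e1]
      have e5 : t • (A + s • (B - A) - o) = t • (A - o) + s • (t • (B - A)) := by
        simp only [Complex.real_smul]
        ring
      have e6 : fderiv ℝ f o (s • (t • (B - A))) = s * fderiv ℝ f o (t • (B - A)) := by
        rw [map_smul, smul_eq_mul]
      rw [e5, map_add, e6]
      ring
    intro x hx
    obtain ⟨t, ht, s, hs, rfl⟩ := hull3 hx
    rcases eq_or_lt_of_le ht.1 with h0 | h0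
    · rw [← h0]; simp
    set y : ℂ := A + s • (B - A) with hy
    -- direction of the cross line
    have d1 : fderiv ℝ f (o + t • (y - o)) (B - A) = fderiv ℝ f o (B - A) := by
      have := hcross t ht s hs
      rw [map_smul, map_smul, smul_eq_mul, smul_eq_mul] at this
      exact mul_left_cancel₀ h0.ne' this
    -- direction of the ray
    have d2 : fderiv ℝ f (o + t • (y - o)) (y - o) = fderiv ℝ f o (y - o) := by
      have hin : o + t • (y - o) ∈ U := hSU (hhull (hull3_mem ht hs))
      have g1 : HasFDerivAt f (fderiv ℝ f (o + t • (y - o))) (o + t • (y - o)) :=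
        ((hS.hf.differentiableOn one_ne_zero).differentiableAt
          (hS.hU.mem_nhds hin)).hasFDerivAt
      have g2 : HasDerivAt (fun r : ℝ => o + r • (y - o)) (y - o) t := by
        have := (hasDerivAt_id t).smul_const (y - o)
        simpa using this.const_add o
      have g3 : HasDerivWithinAt (fun r : ℝ => f (o + r • (y - o)))
          (fderiv ℝ f (o + t • (y - o)) (y - o)) (Icc 0 1) t :=
        (g1.comp_hasDerivAt t g2).hasDerivWithinAt
      have g4 : HasDerivWithinAt (fun r : ℝ => f o + r * fderiv ℝ f o (y - o))
          (fderiv ℝ f o (y - o)) (Icc 0 1) t := by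
        have := ((hasDerivAt_id t).mul_const (fderiv ℝ f o (y - o))).const_add (f o)
        simpa using this.hasDerivWithinAt
      have g5 : HasDerivWithinAt (fun r : ℝ => f (o + r • (y - o)))
          (fderiv ℝ f o (y - o)) (Icc 0 1) t := by
        refine g4.congr ?_ ?_
        · intro r hr
          rw [hval r hr s hs, map_smul, smul_eq_mul]
        · rw [hval t ht s hs, map_smul, smul_eq_mul]
      exact (uniqueDiffOn_Icc (zero_lt_one (α := ℝ)) t ht).eq_deriv _ g3 g5
    have hli2 : LinearIndependent ℝ ![y - o, B - A] := by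
      rw [LinearIndependent.pair_iff]
      intro a b hab
      have hab' : (a * (1 - s) - b) • (A - o) + (a * s + b) • (B - o) = 0 := by
        rw [← hab, hy]
        simp only [Complex.real_smul]
        push_cast
        ring
      obtain ⟨h3, h4⟩ := hlip _ _ hab'
      have h5 : a = 0 := by linarith
      refine ⟨h5, ?_⟩
      rw [h5] at h4
      linarith
    have hcard : Fintype.card (Fin 2) = Module.finrank ℝ ℂ := by
      rw [Complex.finrank_real_complex]; simp
    let bas := basisOfLinearIndependentOfCardEqFinrank hli2 hcard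
    have hext : (fderiv ℝ f (o + t • (y - o)) : ℂ →ₗ[ℝ] ℝ) = (fderiv ℝ f o : ℂ →ₗ[ℝ] ℝ) := by
      refine bas.ext ?_
      intro i
      rw [coe_basisOfLinearIndependentOfCardEqFinrank]
      fin_cases i
      · simpa using d2
      · simpa using d1
    ext1
    have := congrArg (fun L : ℂ →ₗ[ℝ] ℝ => L) hext
    exact LinearMap.congr_fun this _
  · -- dependent case
    have hdep : (∃ c : ℝ, B - o = c • (A - o)) ∨ (∃ c : ℝ, A - o = c • (B - o)) := by
      rw [LinearIndependent.pair_iff] at hli
      push Not at hli
      obtain ⟨a, b, hab, hne⟩ := hli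
      by_cases hb : b = 0
      · right
        have ha : a ≠ 0 := fun h => hne h hb
        refine ⟨0, ?_⟩
        rw [hb, zero_smul, add_zero] at hab
        rw [zero_smul]
        exact (smul_eq_zero.1 hab).resolve_left ha
      · left
        refine ⟨-(a / b), ?_⟩
        have h3 : b • (B - o) = -(a • (A - o)) := by
          rw [eq_neg_iff_add_eq_zero, add_comm]
          exact hab
        have h4 : B - o = b⁻¹ • (b • (B - o)) := by
          rw [smul_smul, inv_mul_cancel₀ hb, one_smul]
        rw [h4, h3, smul_neg, smul_smul, neg_smul, div_eq_inv_mul]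
    have hgen : ∀ A B : ℂ, (∃ c : ℝ, B - o = c • (A - o)) → convexHull ℝ {o, A, B} ⊆
        segment ℝ o A ∪ segment ℝ o B := by
      rintro A B ⟨c, hc⟩ x hx
      obtain ⟨t, ht, s, hs, rfl⟩ := hull3 hx
      have e1 : A + s • (B - A) - o = (1 - s + s * c) • (A - o) := by
        have : A + s • (B - A) - o = (1 - s) • (A - o) + s • (B - o) := by
          simp only [Complex.real_smul]
          push_cast
          ring
        rw [this, hc, smul_smul, ← add_smul]
      rw [e1, smul_smul]
      have hs1 : 0 ≤ 1 - s := by linarith [hs.2]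
      rcases le_or_gt 0 (1 - s + s * c) with h | h
      · rcases le_or_gt c 1 with hc1 | hc1
        · left
          rw [segment_eq_image']
          refine ⟨t * (1 - s + s * c), ⟨mul_nonneg ht.1 h, ?_⟩, rfl⟩
          have : 1 - s + s * c ≤ 1 := by nlinarith [hs.1]
          exact mul_le_one₀ ht.2 h this
        · right
          rw [segment_eq_image']
          have hc0 : 0 < c := by linarith
          refine ⟨t * ((1 - s + s * c) / c), ⟨mul_nonneg ht.1 (by positivity), ?_⟩, ?_⟩
          · refine mul_le_one₀ ht.2 (by positivity) ?_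
            rw [div_le_one hc0]
            nlinarith [hs.1]
          · simp only
            rw [hc, smul_smul]
            congr 2
            field_simp
      · right
        have hc0 : c < 0 := by
          by_contra hcc
          push Not at hcc
          have : 0 ≤ s * c := mul_nonneg hs.1 hcc
          linarith
        rw [segment_eq_image']
        refine ⟨t * ((1 - s + s * c) / c), ⟨mul_nonneg ht.1 (div_nonneg_of_nonpos h.le hc0.le), ?_⟩, ?_⟩
        · refine mul_le_one₀ ht.2 (div_nonneg_of_nonpos h.le hc0.le) ?_
          rw [div_le_one_of_neg hc0]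
          nlinarith [hs.2]
        · simp only
          rw [hc, smul_smul]
          congr 2
          have hc1 := hc0.ne
          field_simp
    intro x hx
    rcases hdep with h | h
    · rcases hgen A B h hx with h3 | h3
      · exact keyA x h3
      · exact keyB x h3
    · have hx' : x ∈ convexHull ℝ {o, B, A} := by
        have : ({o, B, A} : Set ℂ) = {o, A, B} := by
          ext z; simp only [mem_insert_iff, mem_singleton_iff]; tauto
        rw [this]; exact hx
      rcases hgen B A h hx' with h3 | h3
      · exact keyB x h3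
      · exact keyA x h3

end Pool.Agent.Q193.ST
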