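import Pool.Agent.Q193.ST.Stm

namespace Pool.Agent.Q193.ST

open Set Metric Filter Topology

/-- a continuous function with values in `2π ℤ` on a preconnected set is constant -/
theorem const_of_exp {S : Set ℂ} (hS : IsPreconnected S) {φ : ℂ → ℝ} (hφ : ContinuousOn φ S)
    (h : ∀ x ∈ S, Complex.exp ((φ x : ℂ) * Complex.I) = 1) {x y : ℂ} (hx : x ∈ S) (hy : y ∈ S) :
    φ x = φ y := by
  have hint : ∀ x ∈ S, ∃ n : ℤ, φ x = n * (2 * Real.pi) := by
    intro x hx
    obtain ⟨n, hn⟩ := Complex.exp_eq_one_iff.1 (h x hx)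
    refine ⟨n, ?_⟩
    have h1 := congrArg Complex.im hn
    simp only [Complex.mul_im, Complex.ofReal_re, Complex.I_im, mul_one, Complex.ofReal_im,
      Complex.I_re, mul_zero, add_zero] at h1
    rw [h1]
    simp
  have key : ∀ x ∈ S, ∀ y ∈ S, ¬ φ x < φ y := by
    intro x hx y hy hlt
    obtain ⟨m, hm⟩ := hint x hx
    obtain ⟨n, hn⟩ := hint y hy
    have hpi := Real.pi_pos
    have hmn : m < n := by
      rw [hm, hn] at hlt
      have : (m:ℝ) < n := lt_of_mul_lt_mul_right hlt (by positivity)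
      exact_mod_cast this
    have hmn' : (m : ℝ) + 1 ≤ n := by exact_mod_cast hmn
    obtain ⟨w, hw, hw2⟩ := (hS.image φ hφ).ordConnected.out ⟨x, hx, rfl⟩ ⟨y, hy, rfl⟩
      (show ((m : ℝ) + 1 / 2) * (2 * Real.pi) ∈ Icc (φ x) (φ y) by
        constructor
        · rw [hm]; nlinarith
        · rw [hn]; nlinarith)
    obtain ⟨k, hk⟩ := hint w hw
    rw [hk] at hw2
    have hk2 : (k:ℝ) = m + 1/2 := mul_right_cancel₀ (by positivity) hw2
    have h1 : (m : ℝ) < k := by linarith
    have h2 : (k : ℝ) < m + 1 := by linarith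
    have h1' : m < k := by exact_mod_cast h1
    have h2' : k < m + 1 := by exact_mod_cast h2
    omega
  exact le_antisymm (not_lt.1 (key y hy x hx)) (not_lt.1 (key x hx y hy))

theorem t_UNI (h1 : J_LIFT) : J_UNI := by
  intro X A B hX hXc hA hB hAB hAp hBp
  classical
  rw [isPreconnected_iff_subset_of_fully_disjoint_closed (hA.inter hB)]
  intro N1 N2 hN1 hN2 hcov hd
  by_contra hcon
  push Not at hcon
  obtain ⟨hn1, hn2⟩ := hcon
  obtain ⟨q, hq, hq1⟩ := not_subset.1 hn1
  obtain ⟨p, hp, hp2⟩ := not_subset.1 hn2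
  have hq2 : q ∈ N2 := (hcov hq).resolve_left hq1
  have hp1 : p ∈ N1 := (hcov hp).resolve_right hp2
  obtain ⟨t, ht0, ht1, ht⟩ := exists_continuous_zero_one_of_isClosed hN1 hN2 hd
  have htc : Continuous fun x => t x := t.continuous
  set u : ℂ → ℂ := fun x => if x ∈ A then Complex.exp (((Real.pi * t x : ℝ) : ℂ) * Complex.I)
    else Complex.exp (((-(Real.pi * t x) : ℝ) : ℂ) * Complex.I) with hu
  have huA : ∀ x ∈ A, u x = Complex.exp (((Real.pi * t x : ℝ) : ℂ) * Complex.I) := by
    intro x hx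
    rw [hu]
    simp only
    rw [if_pos hx]
  have huB : ∀ x ∈ B, u x = Complex.exp (((-(Real.pi * t x) : ℝ) : ℂ) * Complex.I) := by
    intro x hx
    by_cases hxA : x ∈ A
    · rw [huA x hxA]
      rcases hcov ⟨hxA, hx⟩ with h | h
      · have : t x = 0 := ht0 h
        rw [this]
        simp
      · have : t x = 1 := ht1 h
        rw [this]
        simp only [mul_one, Complex.ofReal_neg, neg_mul]
        rw [Complex.exp_neg, Complex.exp_pi_mul_I]
        norm_num
    · rw [hu]
      simp only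
      rw [if_neg hxA]
  have hc1 : Continuous fun x : ℂ => Complex.exp (((Real.pi * t x : ℝ) : ℂ) * Complex.I) := by
    fun_prop
  have hc2 : Continuous fun x : ℂ => Complex.exp (((-(Real.pi * t x) : ℝ) : ℂ) * Complex.I) := by
    fun_prop
  have hucont : ContinuousOn u X := by
    rw [← hAB]
    refine ContinuousOn.union_of_isClosed ?_ ?_ hA hB
    · exact hc1.continuousOn.congr huA
    · exact hc2.continuousOn.congr huB
  have hunorm : ∀ x ∈ X, ‖u x‖ = 1 := by
    intro x _
    rw [hu]
    simp only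
    split_ifs
    · exact Complex.norm_exp_ofReal_mul_I _
    · exact Complex.norm_exp_ofReal_mul_I _
  obtain ⟨θ, hθc, hθ⟩ := h1 ℂ X hX hXc u hucont hunorm
  have hAX : A ⊆ X := by rw [← hAB]; exact subset_union_left
  have hBX : B ⊆ X := by rw [← hAB]; exact subset_union_right
  have e1 : θ p - Real.pi * t p = θ q - Real.pi * t q := by
    refine const_of_exp hAp (φ := fun x => θ x - Real.pi * t x) ?_ ?_ hp.1 hq.1
    · exact (hθc.mono hAX).sub (continuousOn_const.mul htc.continuousOn)
    · intro x hx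
      rw [Complex.ofReal_sub, sub_mul, Complex.exp_sub, ← hθ x (hAX hx), huA x hx,
        div_self (Complex.exp_ne_zero _)]
  have e2 : θ p - -(Real.pi * t p) = θ q - -(Real.pi * t q) := by
    refine const_of_exp hBp (φ := fun x => θ x - -(Real.pi * t x)) ?_ ?_ hp.2 hq.2
    · exact (hθc.mono hBX).sub (continuousOn_const.mul htc.continuousOn).neg
    · intro x hx
      rw [Complex.ofReal_sub, sub_mul, Complex.exp_sub, ← hθ x (hBX hx), huB x hx,
        div_self (Complex.exp_ne_zero _)]
  have e3 : t p = 0 := ht0 hp1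
  have e4 : t q = 1 := ht1 hq2
  rw [e3, e4] at e1 e2
  have hpi := Real.pi_pos
  linarith

end Pool.Agent.Q193.ST
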