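import Pool.Agent.Q193.ST.LIFT
import Pool.Agent.Q193.ST.UNI
import Pool.Agent.Q193.ST.CROSS
import Pool.Agent.Q193.ST.COMP
import Pool.Agent.Q193.ST.NULL
import Pool.Agent.Q193.ST.TLA
import Pool.Agent.Q193.ST.TLG2
import Pool.Agent.Q193.ST.RAYS
import Pool.Agent.Q193.ST.THRU
import Pool.Agent.Q193.ST.GLOB

namespace Pool.Agent.Q193.ST

/-- Theorem for graphs: if every point of the open set `U` is an endpoint of a flat segment of the
C^1 function `f`, then every point is the midpoint of one. -/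
theorem graph : J_GLOB := by
  have hA := t_TLA (t_UNI t_LIFT) (t_CROSS t_LIFT) t_COMP t_NULL
  have hB := t_TLG2 (t_TLG1 hA t_REACH)
  exact t_GLOB (t_THRU hB (t_RAYS hB))

end Pool.Agent.Q193.ST
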