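import Pool.Agent.Q193.ST.TLG2

namespace Pool.Agent.Q193.ST

open Set Metric Filter Topology

universe u

theorem t_IMM2 (h1 : J_IMM1.{u}) (h2 : J_GLOB) : J_IMM2.{u} := by
  intro M _ _ _ φ hφ hsemi p
  obtain ⟨e, f, Λ, n, hp, hf, hinj, hrep⟩ := h1 M φ hφ p
  -- decomposition of vectors
  let J : ℂ × ℝ →ₗ[ℝ] E3 :=
    { toFun := fun x => Λ x.1 + x.2 • n
      map_add' := by
        intro x y
        simp only [Prod.fst_add, Prod.snd_add, map_add, add_smul]
        abel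
      map_smul' := by
        intro c x
        simp only [Prod.smul_fst, Prod.smul_snd, map_smul, RingHom.id_apply, smul_add, smul_eq_mul,
          mul_smul] }
  have hJinj : Function.Injective J := hinj
  have hfin : Module.finrank ℝ (ℂ × ℝ) = Module.finrank ℝ E3 := by
    rw [Module.finrank_prod, Complex.finrank_real_complex, Module.finrank_self]
    simp
  have hJsurj : Function.Surjective J :=
    (LinearMap.injective_iff_surjective_of_finrank_eq_finrank hfin).1 hJinj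
  have hdec : ∀ v : E3, ∃ (a : ℂ) (s : ℝ), v = Λ a + s • n := by
    intro v
    obtain ⟨⟨a, s⟩, h⟩ := hJsurj v
    exact ⟨a, s, h.symm⟩
  have hJ2 : ∀ (a b : ℂ) (s t : ℝ), Λ a + s • n = Λ b + t • n → a = b ∧ s = t := by
    intro a b s t h
    have h3 := hinj (a₁ := (a, s)) (a₂ := (b, t)) h
    exact Prod.mk.inj h3
  -- equality of tangent directions
  have hdir : ∀ ζ ∈ e.target, ∀ ξ ∈ e.target, tanDir φ (e.symm ζ) = tanDir φ (e.symm ξ) →
      fderiv ℝ f ζ = fderiv ℝ f ξ := by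
    intro ζ hζ ξ hξ h
    rw [(hrep ζ hζ).2, (hrep ξ hξ).2] at h
    refine ContinuousLinearMap.ext fun x => ?_
    have hx : Λ x + (fderiv ℝ f ζ x) • n ∈ LinearMap.range
        ((Λ + (fderiv ℝ f ζ).smulRight n : ℂ →L[ℝ] E3) : ℂ →ₗ[ℝ] E3) := ⟨x, by simp⟩
    rw [h] at hx
    obtain ⟨y, hy⟩ := hx
    have hy' : Λ y + (fderiv ℝ f ξ y) • n = Λ x + (fderiv ℝ f ζ x) • n := by
      rw [← hy]
      simp
    obtain ⟨h3, h4⟩ := hJ2 _ _ _ _ hy'
    rw [h3] at h4
    exact h4.symm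
  -- the graph is a semi-torse
  have hgraph : ∀ ζ ∈ e.target, ∃ w, w ≠ ζ ∧ segment ℝ ζ w ⊆ e.target ∧ Flat f (segment ℝ ζ w) := by
    intro ζ hζ
    obtain ⟨σ, hσ, hσ0⟩ := hsemi (e.symm ζ)
    obtain ⟨v, hv0, hv⟩ := hσ.line
    obtain ⟨a, s, has⟩ := hdec v
    have hsrc : e.symm ζ ∈ e.source := e.map_target hζ
    have hopen : IsOpen (σ ⁻¹' e.source) := e.open_source.preimage hσ.cont
    have h0mem : (0 : unitInterval) ∈ σ ⁻¹' e.source := by
      simp only [mem_preimage, hσ0]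
      exact hsrc
    obtain ⟨ε, hε, hεs⟩ := Metric.isOpen_iff.1 hopen 0 h0mem
    set t0 : ℝ := min 1 (ε / 2) with ht0
    have ht00 : 0 < t0 := lt_min one_pos (by positivity)
    have ht01 : t0 ≤ 1 := min_le_left _ _
    have ht0ε : t0 < ε := lt_of_le_of_lt (min_le_right _ _) (by linarith)
    -- points of the path
    have hpt : ∀ t : unitInterval, (t:ℝ) ≤ t0 → ζ + (t:ℝ) • a ∈ e.target ∧
        e.symm (ζ + (t:ℝ) • a) = σ t ∧ f (ζ + (t:ℝ) • a) = f ζ + t * s := by
      intro t ht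
      have hts : σ t ∈ e.source := by
        apply hεs
        rw [mem_ball, Subtype.dist_eq, Real.dist_eq]
        simp only [Set.Icc.coe_zero, sub_zero]
        rw [abs_of_nonneg t.2.1]
        linarith
      have htt : e (σ t) ∈ e.target := e.map_source hts
      have h3 := (hrep _ htt).1
      rw [e.left_inv hts, hv t, hσ0, (hrep ζ hζ).1, has] at h3
      have h4 : Λ (ζ + (t:ℝ) • a) + (f ζ + t * s) • n = Λ (e (σ t)) + f (e (σ t)) • n := by
        rw [← h3]
        simp only [map_add, map_smul, smul_add, add_smul, smul_smul]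
        abel
      obtain ⟨h5, h6⟩ := hJ2 _ _ _ _ h4
      rw [h5]
      exact ⟨htt, e.left_inv hts, h6.symm⟩
    have ha0 : a ≠ 0 := by
      intro ha
      obtain ⟨-, -, h5⟩ := hpt ⟨t0, ht00.le, ht01⟩ le_rfl
      simp only [ha, smul_zero, add_zero] at h5
      have h6 : t0 * s = 0 := by linarith
      have h7 : s = 0 := (mul_eq_zero.1 h6).resolve_left ht00.ne'
      apply hv0
      rw [has, ha, h7]
      simp
    refine ⟨ζ + t0 • a, ?_, ?_, ?_⟩
    · intro h
      have : t0 • a = 0 := by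
        have h3 : ζ + t0 • a = ζ + 0 := by rw [h, add_zero]
        exact add_left_cancel h3
      exact smul_ne_zero ht00.ne' ha0 this
    · intro w hw
      rw [segment_eq_image'] at hw
      obtain ⟨r, hr, rfl⟩ := hw
      have hr2 : r * t0 ≤ t0 := by nlinarith [hr.2]
      have hr3 : 0 ≤ r * t0 := mul_nonneg hr.1 ht00.le
      have := (hpt ⟨r * t0, hr3, hr2.trans ht01⟩ hr2).1
      simp only at this ⊢
      rw [add_sub_cancel_left, smul_smul]
      exact this
    · have key : ∀ w ∈ segment ℝ ζ (ζ + t0 • a), fderiv ℝ f w = fderiv ℝ f ζ := by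
        intro w hw
        rw [segment_eq_image'] at hw
        obtain ⟨r, hr, rfl⟩ := hw
        have hr2 : r * t0 ≤ t0 := by nlinarith [hr.2]
        have hr3 : 0 ≤ r * t0 := mul_nonneg hr.1 ht00.le
        obtain ⟨h5, h6, -⟩ := hpt ⟨r * t0, hr3, hr2.trans ht01⟩ hr2
        simp only at h5 h6 ⊢
        rw [add_sub_cancel_left, smul_smul]
        refine hdir _ h5 _ hζ ?_
        rw [h6]
        have h7 := congrArg AffineSubspace.direction (hσ.plane ⟨r * t0, hr3, hr2.trans ht01⟩)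
        simp only [tanPlane, AffineSubspace.direction_mk'] at h7
        rw [h7, hσ0]
      intro x hx y hy
      rw [key x hx, key y hy]
  -- apply the theorem for graphs
  obtain ⟨v, hv0, hvT, hvfl⟩ := h2 f e.target e.open_target hf hgraph (e p) (e.map_source hp)
  set ζ₀ : ℂ := e p with hζ₀
  have hmem : ∀ t : unitInterval, ζ₀ + (2 * (t:ℝ) - 1) • v ∈ segment ℝ (ζ₀ - v) (ζ₀ + v) := by
    intro t
    rw [segment_eq_image']
    refine ⟨t, t.2, ?_⟩
    simp only [Complex.real_smul]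
    push_cast
    ring
  have hmid : ζ₀ ∈ segment ℝ (ζ₀ - v) (ζ₀ + v) := by
    rw [segment_eq_image']
    refine ⟨1/2, ⟨by norm_num, by norm_num⟩, ?_⟩
    simp only [Complex.real_smul]
    push_cast
    ring
  set σ : unitInterval → M := fun t => e.symm (ζ₀ + (2 * (t:ℝ) - 1) • v) with hσ
  have hfd : ∀ t : unitInterval, fderiv ℝ f (ζ₀ + (2 * (t:ℝ) - 1) • v) = fderiv ℝ f ζ₀ := fun t =>
    hvfl _ (hmem t) _ hmid
  have hval : ∀ t : unitInterval, f (ζ₀ + (2 * (t:ℝ) - 1) • v) =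
      f (ζ₀ - v) + (2 * t) * fderiv ℝ f ζ₀ v := by
    intro t
    have hsub : segment ℝ (ζ₀ - v) (ζ₀ + (2 * (t:ℝ) - 1) • v) ⊆ segment ℝ (ζ₀ - v) (ζ₀ + v) :=
      (convex_segment _ _).segment_subset (left_mem_segment ℝ _ _) (hmem t)
    refine along e.open_target hf (hsub.trans hvT) ?_
    intro z hz
    have e1 : ζ₀ + (2 * (t:ℝ) - 1) • v - (ζ₀ - v) = (2 * (t:ℝ)) • v := by
      simp only [Complex.real_smul]
      push_cast
      ring
    rw [hvfl z (hsub hz) ζ₀ hmid, e1, map_smul, smul_eq_mul]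
  have hz0 : ζ₀ + (2 * ((0 : unitInterval) : ℝ) - 1) • v = ζ₀ - v := by
    simp only [Set.Icc.coe_zero, mul_zero, zero_sub, neg_smul, one_smul]
    ring
  have hφσ : ∀ t : unitInterval, φ (σ t) = φ (σ 0) + (t:ℝ) • ((2:ℝ) • (Λ v + (fderiv ℝ f ζ₀ v) • n)) := by
    intro t
    have e1 := (hrep _ (hvT (hmem t))).1
    have e2 := (hrep _ (hvT (hmem 0))).1
    simp only [hσ]
    rw [e1, e2, hval t, hz0]
    have e3 : ζ₀ + (2 * (t:ℝ) - 1) • v = (ζ₀ - v) + (2 * (t:ℝ)) • v := by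
      simp only [Complex.real_smul]
      push_cast
      ring
    rw [e3]
    simp only [map_add, map_smul, smul_add, add_smul, smul_smul]
    have e4 : (t:ℝ) * (2 * (fderiv ℝ f ζ₀) v) = 2 * (t:ℝ) * (fderiv ℝ f ζ₀) v := by ring
    have e5 : (t:ℝ) * 2 = 2 * (t:ℝ) := by ring
    rw [e4, e5]
    abel
  have hdirσ : ∀ t : unitInterval, tanDir φ (σ t) = tanDir φ (σ 0) := by
    intro t
    simp only [hσ]
    rw [(hrep _ (hvT (hmem t))).2, (hrep _ (hvT (hmem 0))).2, hfd t, hfd 0]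
  refine ⟨σ, ⟨?_, ?_, ?_⟩, ⟨1/2, by norm_num, by norm_num⟩, ?_, ?_, ?_⟩
  · have hc : Continuous fun t : unitInterval => ζ₀ + (2 * (t:ℝ) - 1) • v := by fun_prop
    exact e.continuousOn_symm.comp_continuous hc (fun t => hvT (hmem t))
  · refine ⟨(2:ℝ) • (Λ v + (fderiv ℝ f ζ₀ v) • n), ?_, hφσ⟩
    refine smul_ne_zero two_ne_zero ?_
    intro h
    have h3 : Λ v + (fderiv ℝ f ζ₀ v) • n = Λ 0 + (0:ℝ) • n := by rw [h]; simp
    exact hv0 (hJ2 _ _ _ _ h3).1
  · intro t
    simp only [tanPlane]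
    rw [hdirσ t]
    have hdir0 : (AffineSubspace.mk' (φ (σ 0)) (tanDir φ (σ 0))).direction = tanDir φ (σ 0) :=
      AffineSubspace.direction_mk' _ _
    have hmem2 : φ (σ t) ∈ AffineSubspace.mk' (φ (σ 0)) (tanDir φ (σ 0)) := by
      rw [AffineSubspace.mem_mk', hφσ t, vsub_eq_sub, add_sub_cancel_left]
      refine Submodule.smul_mem _ _ (Submodule.smul_mem _ _ ?_)
      simp only [hσ]
      rw [(hrep _ (hvT (hmem 0))).2, hfd 0]
      exact ⟨v, by simp⟩
    have := AffineSubspace.mk'_eq hmem2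
    rw [hdir0] at this
    exact this
  · show (0:ℝ) < 1/2
    norm_num
  · show (1/2:ℝ) < 1
    norm_num
  · simp only [hσ]
    have : ζ₀ + (2 * (1/2 : ℝ) - 1) • v = ζ₀ := by norm_num
    rw [this, hζ₀, e.left_inv hp]

end Pool.Agent.Q193.ST
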