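import Pool.Agent.Q193.ST.Stm

namespace Pool.Agent.Q193.ST

open Set Metric Filter Topology

theorem exp_arg_of_norm_one {q : ℂ} (hq : ‖q‖ = 1) :
    Complex.exp (Complex.arg q * Complex.I) = q := by
  have := Complex.norm_mul_exp_arg_mul_I q
  rw [hq] at this
  simpa using this

theorem slit_of_near {q : ℂ} (hq : ‖q - 1‖ < 1) : q ∈ Complex.slitPlane := by
  rw [Complex.mem_slitPlane_iff]
  left
  have h1 := Complex.abs_re_le_norm (q - 1)
  have h2 := (abs_lt.1 (lt_of_le_of_lt h1 hq)).1
  simp only [Complex.sub_re, Complex.one_re] at h2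
  linarith

theorem t_LIFT : J_LIFT := by
  intro E _ _ X hconv hcomp u hu hnorm
  rcases X.eq_empty_or_nonempty with rfl | ⟨c, hc⟩
  · exact ⟨fun _ => 0, continuousOn_empty _, fun x hx => absurd hx (notMem_empty x)⟩
  have huc := hcomp.uniformContinuousOn_of_continuous hu
  rw [Metric.uniformContinuousOn_iff] at huc
  obtain ⟨δ, hδ, hδ2⟩ := huc 1 one_pos
  obtain ⟨D, hD⟩ := hcomp.isBounded.subset_closedBall c
  obtain ⟨N, hN⟩ := exists_nat_gt (max D 0 / δ)
  have hN0 : 0 < (N:ℝ) := lt_of_le_of_lt (by positivity) hN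
  have hND : D < δ * N := by
    rw [div_lt_iff₀ hδ] at hN
    have := le_max_left D 0
    linarith
  set γ : E → ℕ → E := fun x j => c + ((j:ℝ) / N) • (x - c) with hγ
  have hγX : ∀ x ∈ X, ∀ j ≤ N, γ x j ∈ X := by
    intro x hx j hj
    refine hconv.add_smul_sub_mem hc hx ⟨by positivity, ?_⟩
    rw [div_le_one hN0]
    exact_mod_cast hj
  have hγd : ∀ x ∈ X, ∀ j, dist (γ x (j+1)) (γ x j) < δ := by
    intro x hx j
    have e : γ x (j+1) - γ x j = (1 / (N:ℝ)) • (x - c) := by
      rw [hγ]
      simp only
      rw [add_sub_add_left_eq_sub, ← sub_smul]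
      congr 1
      push_cast
      ring
    rw [dist_eq_norm, e, norm_smul, Real.norm_of_nonneg (by positivity)]
    have h1 : ‖x - c‖ ≤ D := by
      rw [← dist_eq_norm]
      exact hD hx
    rw [one_div, inv_mul_lt_iff₀ hN0]
    linarith
  have hγc : ∀ j, Continuous fun x => γ x j := by
    intro j
    rw [hγ]
    fun_prop
  set Q : ℕ → E → ℂ := fun j x => u (γ x (j+1)) / u (γ x j) with hQ
  have hQ1 : ∀ j < N, ∀ x ∈ X, ‖Q j x‖ = 1 := by
    intro j hj x hx
    rw [hQ]
    simp only
    rw [norm_div, hnorm _ (hγX x hx (j+1) hj), hnorm _ (hγX x hx j hj.le), div_one]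
  have hQs : ∀ j < N, ∀ x ∈ X, Q j x ∈ Complex.slitPlane := by
    intro j hj x hx
    apply slit_of_near
    have h1 := hδ2 _ (hγX x hx (j+1) hj) _ (hγX x hx j hj.le) (hγd x hx j)
    have h2 : ‖u (γ x j)‖ = 1 := hnorm _ (hγX x hx j hj.le)
    have h3 : u (γ x j) ≠ 0 := by
      intro h
      rw [h, norm_zero] at h2
      exact zero_ne_one h2
    have e : Q j x - 1 = (u (γ x (j+1)) - u (γ x j)) / u (γ x j) := by
      rw [hQ]
      simp only
      field_simp
    rw [e, norm_div, h2, div_one, ← dist_eq_norm]
    exact h1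
  refine ⟨fun x => Complex.arg (u c) + ∑ j ∈ Finset.range N, Complex.arg (Q j x), ?_, ?_⟩
  · refine continuousOn_const.add (continuousOn_finset_sum _ ?_)
    intro j hj
    rw [Finset.mem_range] at hj
    have hQc : ContinuousOn (Q j) X := by
      rw [hQ]
      simp only
      refine ContinuousOn.div ?_ ?_ ?_
      · exact hu.comp (hγc (j+1)).continuousOn (fun x hx => hγX x hx (j+1) hj)
      · exact hu.comp (hγc j).continuousOn (fun x hx => hγX x hx j hj.le)
      · intro x hx h
        have h2 : ‖u (γ x j)‖ = 1 := hnorm _ (hγX x hx j hj.le)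
        rw [h, norm_zero] at h2
        exact zero_ne_one h2
    intro x hx
    exact ContinuousAt.comp_continuousWithinAt (g := Complex.arg) (f := Q j)
      (Complex.continuousAt_arg (hQs j hj x hx)) (hQc x hx)
  · intro x hx
    have key : ∀ k ≤ N, Complex.exp (((Complex.arg (u c) + ∑ j ∈ Finset.range k,
        Complex.arg (Q j x) : ℝ) : ℂ) * Complex.I) = u (γ x k) := by
      intro k
      induction k with
      | zero =>
        intro _
        have e : γ x 0 = c := by rw [hγ]; simp
        rw [e]
        simp only [Finset.range_zero, Finset.sum_empty, add_zero]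
        exact exp_arg_of_norm_one (hnorm c hc)
      | succ k ih =>
        intro hk
        have hk' : k < N := hk
        rw [Finset.sum_range_succ, ← add_assoc, Complex.ofReal_add, add_mul, Complex.exp_add,
          ih hk'.le, exp_arg_of_norm_one (hQ1 k hk' x hx)]
        have h2 : ‖u (γ x k)‖ = 1 := hnorm _ (hγX x hx k hk'.le)
        have h3 : u (γ x k) ≠ 0 := by
          intro h
          rw [h, norm_zero] at h2
          exact zero_ne_one h2
        rw [hQ]
        simp only
        field_simp
    have h4 := key N le_rfl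
    have e : γ x N = x := by
      rw [hγ]
      simp only
      rw [div_self hN0.ne', one_smul, add_sub_cancel]
    rw [e] at h4
    exact h4.symm

end Pool.Agent.Q193.ST
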