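import Mathlib

/-!
# Project ST (helper193): every C^1 semi-torse is a torse (MP_88a170_gt, full answer)

The plane is `ℂ` (as a real plane). `f : ℂ → ℝ` is C^1 on the open set `U`.
A segment is *stationary* when the derivative `fderiv ℝ f` is constant on it.
Semi-torse: every point is an endpoint of a stationary segment. Torse: every point is the
midpoint of one.

Plan. LIFT (lifting of circle valued maps), UNI (unicoherence), CROSS (crossing lemma), COMP, REACH
(components of level sets), NULL (a small Sard lemma), TLA (triangle lemma, abstract form),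
TLG1, TLG2 (triangle lemma: a triangle two sides of which are stationary is flat), RAYS, THRU (local
theorem), GLOB (Baire), IMM1, IMM2 (immersed surfaces in three-space).

Each `J_X` below is a Prop with a complete proof in its docstring. A job `X` asks for
`theorem t_X : J_X` or, where it says from, for `theorem t_X (h1 : J_Y) ... : J_X`.
-/

namespace Pool.Agent.Q193.ST

open Set Metric Filter Topology MeasureTheory
open scoped Manifold ContDiff

/-- `f` has the same derivative at all points of `S`. -/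
def Flat (f : ℂ → ℝ) (S : Set ℂ) : Prop :=
  ∀ x ∈ S, ∀ y ∈ S, fderiv ℝ f x = fderiv ℝ f y

/-- JOB LIFT. Circle valued maps on convex compact sets lift.
Proof. If `X` is empty take `θ = 0`. Let `c ∈ X`. `u` is uniformly continuous on the compact `X`
(`IsCompact.uniformContinuousOn_of_continuous`): there is `δ > 0` with `‖u x - u y‖ < 1` for
`x, y ∈ X`, `dist x y < δ`. `X` is bounded by some `D`; take `N ≥ 1` with `D / N < δ`, and
`γ x j = c + (j / N) • (x - c)` for `j ≤ N`; `γ x j ∈ X` (convexity), `γ x 0 = c`, `γ x N = x`,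
`dist (γ x (j+1)) (γ x j) = ‖x - c‖ / N < δ`. Put
`θ x = arg (u c) + ∑ j in range N, arg (u (γ x (j+1)) / u (γ x j))`.
The quotient `q` has norm one and `‖q - 1‖ < 1`, so `q.re > 0`, `q ∈ slitPlane` and `arg` is
continuous at `q`; hence `θ` is continuous on `X`. `exp (i θ x)` is the product of
`exp (i arg (u c)) = u c` and of the quotients, i.e. `u x` (telescoping, `Finset.prod_range_div`-like
induction; `Complex.norm_mul_exp_arg_mul_I`). -/
def J_LIFT : Prop :=
  ∀ (E : Type) [NormedAddCommGroup E] [NormedSpace ℝ E] (X : Set E), Convex ℝ X → IsCompact X →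
    ∀ u : E → ℂ, ContinuousOn u X → (∀ x ∈ X, ‖u x‖ = 1) →
      ∃ θ : E → ℝ, ContinuousOn θ X ∧ ∀ x ∈ X, u x = Complex.exp (θ x * Complex.I)

/-- JOB UNI (from `J_LIFT`). Unicoherence of convex compact sets.
Proof. Suppose `A ∩ B` is not preconnected: by `isPreconnected_closed_iff` (or
`isPreconnected_iff_subset_of_disjoint_closed`) and closedness of `A ∩ B`
there are disjoint nonempty closed sets `N₁, N₂` with `A ∩ B = N₁ ∪ N₂` (intersect the two closed
sets with `A ∩ B`). Urysohn (`exists_continuous_zero_one_of_isClosed`) gives a continuous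
`t : ℂ → ℝ`, `0 ≤ t ≤ 1`, `t = 0` on `N₁`, `t = 1` on `N₂`. Put `u x = exp (iπ t x)` for `x ∈ A`
and `u x = exp (-iπ t x)` for `x ∉ A`. On `B` one has `u x = exp (-iπ t x)` everywhere: for
`x ∈ A ∩ B`, `t x ∈ {0,1}` and `exp (iπ t) = exp (-iπ t)`. So `u` is continuous on the closed
sets `A` and `B`, hence on `X = A ∪ B` (`ContinuousOn.union_of_isClosed` or by hand), and has norm
one. Let `θ` be a lift (J_LIFT). On `A`: `exp (i(θ - π t)) = 1`, so
`(θ - π t) / (2π)` is a continuous integer valued function on the preconnected set `A`, hence constant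
`= m`. On `B`: `(θ + π t) / (2π) = n` constant. At a point of `N₁`: `θ = 2πm = 2πn`. At a point
of `N₂`: `θ = 2πm + π = 2πn - π`. So `m = n` and `m + 1 = n`, contradiction. -/
def J_UNI : Prop :=
  ∀ X A B : Set ℂ, Convex ℝ X → IsCompact X → IsClosed A → IsClosed B → A ∪ B = X →
    IsPreconnected A → IsPreconnected B → IsPreconnected (A ∩ B)

/-- JOB CROSS (from `J_LIFT`). Two disjoint continua in the half plane `re ≤ 1` do not join
interlaced pairs of points of the line `re = 1`.
Proof. `K`, `K'` are disjoint and compact, so there is `δ > 0` with `dist z z' ≥ 3δ` for `z ∈ K`,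
`z' ∈ K'`. Let `N = thickening δ K ∩ {re ≤ 1}`. For `z ∈ K` the set `ball z δ ∩ {re ≤ 1}` is
convex and contained in `N`; so points of `K` at distance `< δ` are joined in `N` by a segment, and by
`IsPreconnected.induction₂` (with `P x y := JoinedIn N x y`) any two points of `K` are
`JoinedIn N`. Hence a continuous `P : [0,1] → N` with `P 0 = a`, `P 1 = b`, and in the same way
`Q : [0,1] → N'` with `Q 0 = a'`, `Q 1 = b'`. Then `P t ≠ Q s` always. Let
`m (t,s) = P t - Q s` and `u = m / ‖m‖` on the unit square of `ℝ × ℝ`; by J_LIFT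
`u (t,s) = exp (i θ (t,s))`, i.e. `m = ‖m‖ exp (i θ)`, `re m = ‖m‖ cos θ`, `im m = ‖m‖ sin θ`.
Edge `t = 0`: `re m = 1 - re (Q s) ≥ 0`, so `cos θ ≥ 0` along this edge and `θ` varies by at most `π`
there (otherwise, by the intermediate value theorem, it takes a value with `cos < 0`; more precisely `θ`
stays in one interval `[2πj - π/2, 2πj + π/2]`). Both ends are directions `-i` (`a - a'` and
`a - b'` are negative multiples of `i`), so `θ (0,0)` and `θ (0,1)` lie in `-π/2 + 2πℤ` and in the same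
interval: they are equal, `= 2πj - π/2`.
Edge `s = 1`: `re m = re (P t) - 1 ≤ 0`, `cos θ ≤ 0`, both ends directions `-i`: `θ (1,1) = θ (0,1)`.
Edge `t = 1`: `re m ≥ 0`; from direction `-i` at `s = 1` to direction `+i` (`b - a'`) at `s = 0`, in the
interval `[2πj - π/2, 2πj + π/2]`: `θ (1,0) = 2πj + π/2`.
Edge `s = 0`: `re m ≤ 0`; from `θ (1,0) = 2πj + π/2` in the interval `[2πj + π/2, 2πj + 3π/2]` to
direction `-i` at `t = 0`: `θ (0,0) = 2πj + 3π/2`. But `θ (0,0) = 2πj - π/2`. Contradiction. -/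
def J_CROSS : Prop :=
  ∀ K K' : Set ℂ, IsCompact K → IsCompact K' → IsPreconnected K → IsPreconnected K' →
    (∀ z ∈ K, z.re ≤ 1) → (∀ z ∈ K', z.re ≤ 1) → Disjoint K K' →
    ∀ a ∈ K, ∀ b ∈ K, ∀ a' ∈ K', ∀ b' ∈ K', a.re = 1 → b.re = 1 → a'.re = 1 → b'.re = 1 →
      a.im < a'.im → a'.im < b.im → b.im < b'.im → False

/-- JOB COMP. The set of points of a compact `X` whose level component (of a continuous `G`) meets a
given closed set is closed.
Proof. Write `L z = {w ∈ X | G w = G z}` (compact), `K z` its component through `z`. Let `z ∈ X` with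
`K z ∩ C = ∅`; we show that the same holds for all `z' ∈ X` near `z` (this gives that the complement of
the set is open, `X` being closed). In the compact Hausdorff space `L z` the component of `z` is the
intersection of the clopen sets containing `z` (`connectedComponent_eq_iInter_isClopen`), and
`L z ∩ C` is compact and misses it: so there is a splitting `L z = P ⊔ Q`, `P, Q` compact, disjoint,
`z ∈ P`, `P ∩ C = ∅`. Choose disjoint open `V ⊇ P`, `W ⊇ Q` with `V ∩ C = ∅` (`P` is compact,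
`P ∩ (Q ∪ C) = ∅`; `IsCompact.separation`, then shrink `V` by `Cᶜ`). `X \ (V ∪ W)` is compact and
`G ≠ G z` on it, so `‖G - G z‖ ≥ η > 0` there. For `z' ∈ X` close to `z`: `z' ∈ V` and
`‖G z' - G z‖ < η`, so `L z' ⊆ V ∪ W`, and the connected set `K z'` contains `z' ∈ V`, hence
`K z' ⊆ V` and `K z' ∩ C = ∅`. -/
def J_COMP : Prop :=
  ∀ (X C : Set ℂ) (G : ℂ → ℝ × ℝ), IsCompact X → IsClosed C → ContinuousOn G X →
    IsClosed {z : ℂ | z ∈ X ∧ (connectedComponentIn {w | w ∈ X ∧ G w = G z} z ∩ C).Nonempty}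

/-- JOB REACH. Level components reach the frontier.
Proof. Let `z ∈ X`, `L = {w ∈ X | G w = G z}` (compact), `K = connectedComponentIn L z`. If
`K ∩ frontier X ≠ ∅` take `S = K`. Suppose not. Then `K ∩ F = ∅`: a point `w ∈ K ∩ F` is in
`interior X` (`X` is closed, `w ∉ frontier X`), and the preconnected set `S_w` given by the first
hypothesis is contained in `L`, contains `w`, so lies in `K` and meets `frontier X`. So `K` is
contained in the open set `O = interior X \ F`. In the compact Hausdorff space `L` the component is the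
intersection of the clopen sets containing `z`, so there is `Q ⊆ L`, `z ∈ Q ⊆ O`, `Q` relatively
clopen in `L` (`Q` and `L \ Q` compact). `Q` is compact and nonempty, so it has an extreme point `q`:
`IsCompact.extremePoints_nonempty`. `q ∈ O`, so the second hypothesis gives `v ≠ 0` such that
`[q - v, q + v] ⊆ X` and `G = G q = G z` on it: it is contained in `L`, it is connected and meets the
clopen `Q`, so it is contained in `Q`. Now `q` is the midpoint of `q - v, q + v ∈ Q`:
contradiction to extremality. -/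
def J_REACH : Prop :=
  ∀ (Y : Type) [TopologicalSpace Y] [T2Space Y] (X F : Set ℂ) (G : ℂ → Y),
    IsCompact X → IsClosed F → ContinuousOn G X →
    (∀ z ∈ interior X ∩ F, ∃ S : Set ℂ, IsPreconnected S ∧ z ∈ S ∧ S ⊆ X ∧ (∀ w ∈ S, G w = G z) ∧
      (S ∩ frontier X).Nonempty) →
    (∀ z ∈ interior X \ F, ∃ v : ℂ, v ≠ 0 ∧ segment ℝ (z - v) (z + v) ⊆ X ∧
      ∀ w ∈ segment ℝ (z - v) (z + v), G w = G z) →
    ∀ z ∈ X, ∃ S : Set ℂ, IsPreconnected S ∧ z ∈ S ∧ S ⊆ X ∧ (∀ w ∈ S, G w = G z) ∧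
      (S ∩ frontier X).Nonempty

/-- JOB NULL. Nested bitangent chords have a null set of slopes. `P` is a set of pairs `(a,b)`,
`-1 ≤ a < b ≤ 1`, such that the line through `(a, h a)` and `(b, h b)` is tangent to the graph of `h`
at both points; two pairs of different slope are strictly nested.
Proof. It is enough to treat `P_n = {p ∈ P | p.2 - p.1 ≥ 1/(n+1)}` (countable union). Let
`w p = p.2 - p.1` and `T = w '' P_n ⊆ ℝ`. Two pairs with the same `w` are not strictly nested, so they
have the same slope; so there is `v : ℝ → ℝ` with `v (w p) = h' p.1` for `p ∈ P_n` (choice).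
Claim: for `p, q ∈ P_n` with `|w p - w q| ≤ δ`,
`|h' p.1 - h' q.1| ≤ (n+1) * ω(δ) * |w p - w q|`, `ω(δ) = sup {|h' x - h' y| : |x - y| ≤ δ}`
(`h'` is uniformly continuous on `[-1,1]`). Proof of the claim: trivial if the slopes agree, otherwise
nested, and `|p.1 - q.1| + |p.2 - q.2| = |w p - w q| ≤ δ`. Let `ℓ_p y = h p.1 + h' p.1 (y - p.1)`,
which also equals `h` at `y = p.2`; the same for `ℓ_q`. Then
`(ℓ_p - ℓ_q)(p.1) = h p.1 - h q.1 - h' q.1 (p.1 - q.1)` has absolute value `≤ ω(δ) |p.1 - q.1|` (mean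
value inequality for `h - h' q.1 * id` between `q.1` and `p.1`), and in the same way
`|(ℓ_p - ℓ_q)(p.2)| ≤ ω(δ) |p.2 - q.2|` (expand `ℓ_q` at `q.2`, where `h' q.2 = h' q.1`). Subtract:
`|h' p.1 - h' q.1| (p.2 - p.1) ≤ ω(δ) |w p - w q|`. So `v` has derivative `0` within `T` at each
point of `T`, and `v '' T` has measure zero by
`MeasureTheory.addHaar_image_eq_zero_of_det_fderivWithin_eq_zero` (the determinant of the zero map of
`ℝ` is `0`), or by hand. -/
def J_NULL : Prop :=
  ∀ h h' : ℝ → ℝ, (∀ y ∈ Icc (-1 : ℝ) 1, HasDerivWithinAt h (h' y) (Icc (-1) 1) y) →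
    ContinuousOn h' (Icc (-1) 1) → ∀ P : Set (ℝ × ℝ),
    (∀ p ∈ P, -1 ≤ p.1 ∧ p.1 < p.2 ∧ p.2 ≤ 1 ∧ h' p.1 = h' p.2 ∧
      h p.2 - h p.1 = h' p.1 * (p.2 - p.1)) →
    (∀ p ∈ P, ∀ q ∈ P, h' p.1 = h' q.1 ∨ (p.1 < q.1 ∧ q.2 < p.2) ∨ (q.1 < p.1 ∧ p.2 < q.2)) →
    volume ((fun p : ℝ × ℝ => h' p.1) '' P) = 0

/-- the standard triangle with vertices `0`, `1 - i`, `1 + i` -/
def Tri : Set ℂ := {z | |z.im| ≤ z.re ∧ z.re ≤ 1}

/-- JOB TLA (from `J_UNI`, `J_CROSS`, `J_COMP`, `J_NULL`). Triangle lemma, abstract form.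
Proof. `Tri` is compact and convex. Let `G = (β, k)`, `L z = {w ∈ Tri | G w = G z}`,
`K z = connectedComponentIn (L z) z` for `z ∈ Tri`: compact, connected, `K w = K z` for `w ∈ K z`, and
by the last hypothesis `K z` meets the right side `{re = 1}` (`S ⊆ K z`). The two sides
`{|im| = re}` form a connected set on which `G = 0`; so `K 0` contains the two sides, in particular
`1 - i` and `1 + i`.
Fix `e ∈ [-1,1]`. Let `Low = {z ∈ Tri | K z meets {re = 1, im ≤ e}}`,
`Up = {z ∈ Tri | K z meets {re = 1, im ≥ e}}`. Both are closed (J_COMP), `Low ∪ Up = Tri`. `Low` is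
connected: it is the union of the connected sets `K z` (`z ∈ Low`), each of which meets the connected
set `{re = 1, -1 ≤ im ≤ e} ⊆ Low`; the same for `Up`. By J_UNI `D = Low ∩ Up` is preconnected. `D`
contains `1 + i e` and `0`. So `β '' D` is a preconnected subset of `ℝ` containing `β (1 + ie)` and
`β 0 = 0`. We show that it has measure zero; then it is a point (if it contained two reals it would
contain the interval between them) and `β (1 + ie) = 0`.
For `z ∈ D` choose `a z ≤ e ≤ b z` with `1 + i a z, 1 + i b z ∈ K z` (points of `Tri`, so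
`-1 ≤ a z`, `b z ≤ 1`). If `a z = b z` then both are `e` and `β z = β (1 + ie)`. Let
`P = {(a z, b z) | z ∈ D, a z < b z}`. The first hypotheses of J_NULL hold with `h' y = β (1 + iy)`:
`h' (a z) = h' (b z) = β z`, `k` is the same at both points, so
`h (b z) - h (a z) = β z (b z - a z)`. Nestedness: let `z, z' ∈ D` with `β z ≠ β z'`. `K z`, `K z'` are
disjoint compact connected sets. Write `a, b, a', b'`. Then `a ≠ a'`, `b ≠ b'`, `a ≠ b'`, `a' ≠ b`. If
`a < a'` then `b' < b`: otherwise `a < a' ≤ e ≤ b < b'` with `a' ≠ b`, so `a' < b`, contradiction to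
J_CROSS with `K = K z`, `K' = K z'`. Symmetrically for `a' < a`. So J_NULL applies,
`β '' D ⊆ {β (1 + ie)} ∪ (h' ∘ fst) '' P` is a null set. -/
def J_TLA : Prop :=
  ∀ (β k : ℂ → ℝ) (h : ℝ → ℝ), ContinuousOn β Tri → ContinuousOn k Tri →
    (∀ z ∈ Tri, |z.im| = z.re → β z = 0 ∧ k z = 0) →
    (∀ y ∈ Icc (-1 : ℝ) 1, HasDerivWithinAt h (β ⟨1, y⟩) (Icc (-1) 1) y ∧
      h y = k ⟨1, y⟩ + β ⟨1, y⟩ * y) →
    (∀ z ∈ Tri, ∃ S : Set ℂ, IsPreconnected S ∧ z ∈ S ∧ S ⊆ Tri ∧
      (∀ w ∈ S, β w = β z ∧ k w = k z) ∧ ∃ w ∈ S, w.re = 1) →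
    ∀ y ∈ Icc (-1 : ℝ) 1, β ⟨1, y⟩ = 0

/-- The local situation: `F` is closed, from the points of `F` in the open ball stationary segments go
to the sphere, and the other points of the open ball are midpoints of stationary segments. -/
structure Sit (f : ℂ → ℝ) (U F : Set ℂ) (p : ℂ) (R : ℝ) : Prop where
  hU : IsOpen U
  hf : ContDiffOn ℝ 1 f U
  hR : 0 < R
  hB : closedBall p R ⊆ U
  hF : IsClosed F
  ray : ∀ z ∈ ball p R ∩ F, ∃ c ∈ sphere p R, Flat f (segment ℝ z c)
  thr : ∀ z ∈ ball p R \ F, ∃ v : ℂ, v ≠ 0 ∧ segment ℝ (z - v) (z + v) ⊆ ball p R ∧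
    Flat f (segment ℝ (z - v) (z + v))

/-- JOB TLG1 (from `J_TLA`, `J_REACH`). Triangle lemma, derivative along the third side.
Proof. Put `m = (A + B)/2 - o`, `e = (B - A)/2` (linearly independent over `ℝ` by hypothesis) and
`Ψ (x + iy) = o + x m + y e`; `Ψ 0 = o`, `Ψ (1 - i) = A`, `Ψ (1 + i) = B`; `Ψ` is an affine
homeomorphism of the plane (a bijection; its inverse is continuous, finite dimension) and maps `Tri` into
the closed ball (convexity: `x + iy ∈ Tri` is the convex combination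
`(1-x)·0 + ((x-y)/2)(1-i) + ((x+y)/2)(1+i)`). `Ψ (interior Tri)` is open, so it is contained in the
interior of the closed ball, the open ball. Let `D = fderiv ℝ f`, continuous on `U`, and
`T w = (D w, f w - D w w)` (continuous on `U`). On a segment of `U` on which `D` is
constant, `f` is affine along the segment and `T` is constant. Put, for `z = x + iy ∈ Tri`,
`w = Ψ z`,
`β z = (D w - D o) e`, `k z = f w - f o - D o (w - o) + (D w - D o) (m + o - w)`, and
`h y = f (Ψ (1+iy)) - f o - D o (Ψ (1+iy) - o)`. Then `β z`, `k z` are functions of `T w`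
(`k z = (T w).2 + (D w)(m + o) - f o + D o o - D o (m + o)`), they are continuous on `Tri`, and they
vanish on the sides `|y| = x` (there `w ∈ [o,A] ∪ [o,B]`, `T w = T o`). `h` has derivative
`β (1+iy)` and `h y = k (1+iy) + β (1+iy) y` (as `m + o - w = -y e` for `w = Ψ (1+iy)`).
Level components: apply J_REACH with `X = Tri`, `F' = Ψ⁻¹ F`, `G = T ∘ Ψ`,
`Y = (ℂ →L[ℝ] ℝ) × ℝ`. First hypothesis: `z ∈ interior Tri`, `Ψ z ∈ F`: then `Ψ z` is in the open ball
and `ray` gives `c` on the sphere, `D` constant on `[Ψ z, c]`. Take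
`S = [z, Ψ⁻¹ c] ∩ Tri`: convex; `Ψ⁻¹ c ∉ interior Tri` (otherwise `c` is in the open ball), so the
segment meets `frontier Tri` in a point of `Tri` (a preconnected set meeting the closed `Tri` and the
complement of its interior meets the frontier: `IsPreconnected.inter_frontier_nonempty` or the last point
in `Tri`). Second hypothesis: `z ∈ interior Tri`, `Ψ z ∉ F`: `thr` gives `v`; use a small multiple of
`Ψ_lin⁻¹ v`. Conclusion: for every `z ∈ Tri` there is a preconnected `S ⊆ Tri`, `z ∈ S`, `T ∘ Ψ`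
constant on `S`, `S` meets `frontier Tri ⊆ {|im| = re} ∪ {re = 1}`. If `S` meets `{re = 1}` we are
done; otherwise `T (Ψ z) = T o` and we replace `S` by `S ∪ {z ∈ Tri, |im z| = re z}`, which is
preconnected and contains `1 + i`. Now J_TLA gives `β (1+iy) = 0` for `|y| ≤ 1`, that is
`(D x - D o) (B - A) = 0` for `x ∈ [A, B]`. -/
def J_TLG1 : Prop :=
  ∀ (f : ℂ → ℝ) (U F : Set ℂ) (p : ℂ) (R : ℝ), Sit f U F p R →
    ∀ o ∈ closedBall p R, ∀ A ∈ closedBall p R, ∀ B ∈ closedBall p R,
      LinearIndependent ℝ ![A - o, B - o] → Flat f (segment ℝ o A) → Flat f (segment ℝ o B) →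
      ∀ x ∈ segment ℝ A B, fderiv ℝ f x (B - A) = fderiv ℝ f o (B - A)

/-- JOB TLG2 (from `J_TLG1`). Triangle lemma.
Proof. Let first `A - o`, `B - o` be linearly independent, `Δ = convexHull {o, A, B}`. For
`t ∈ (0,1]` put `A_t = o + t (A - o)`, `B_t = o + t (B - o)`: `Flat` on `[o, A_t] ⊆ [o, A]` and on
`[o, B_t]`, so J_TLG1 gives `(D x - D o)(B - A) = 0` for `x ∈ [A_t, B_t]` (`D = fderiv ℝ f`). These
segments cover `Δ \ {o}`. Let `g x = f x - f o - D o (x - o)`. `g = 0` on `[o, A]` (there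
`D = D o`), and along `[A_t, B_t]` the derivative of `g` is `(D x - D o)(B_t - A_t) = 0`; so `g = 0` on
`Δ`. At interior points of `Δ` the function `g` vanishes in a neighbourhood, so `D x = D o`; `D` is
continuous on `Δ ⊆ U` and `Δ` is the closure of its interior
(`Convex.closure_interior_eq_closure_of_nonempty_interior`; the interior is nonempty since the three points
are affinely independent), so `D x = D o` on `Δ`.
If they are dependent, the three points are on a line and `convexHull {o, A, B}` is contained in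
`[o, A] ∪ [o, B]` (if `B - o = t (A - o)`, say: for `t ≤ 0` the hull is `[B, A]`, for `t ≥ 0` it is
`[o, A]` or `[o, B]`), and `D = D o` there. -/
def J_TLG2 : Prop :=
  ∀ (f : ℂ → ℝ) (U F : Set ℂ) (p : ℂ) (R : ℝ), Sit f U F p R →
    ∀ o ∈ closedBall p R, ∀ A ∈ closedBall p R, ∀ B ∈ closedBall p R,
      Flat f (segment ℝ o A) → Flat f (segment ℝ o B) → Flat f (convexHull ℝ {o, A, B})

/-- JOB RAYS (from `J_TLG2`). From every point of the open ball a stationary segment goes to the sphere.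
Proof. Let `z ∈ ball p R` and `W = {w ∈ closedBall p R | Flat f [z,w]}`. `W` is compact
(`fderiv ℝ f` is continuous on the closed ball; `w_n → w` and `x = z + t (w - z)` is the limit of
`z + t (w_n - z)`), `z ∈ W`. Let `b ∈ W` maximise `‖w - z‖`.
If `b` is on the sphere we are done. So `b ∈ ball p R`.
Case `b ∈ F`: by `ray` there is `c` on the sphere with `Flat f [b,c]`. By J_TLG2 with `o = b`,
`A = z`, `B = c` the hull of `b, z, c` is flat, it contains `[z, c]`: done.
Case `b ∉ F`: `thr` gives `v ≠ 0` with `[b - v, b + v]` in the ball and flat; replacing `v` by `-v` we may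
suppose that the inner product `⟪v, b - z⟫ ≥ 0`. By J_TLG2 (`o = b`, `A = z`, `B = b + v`) `[z, b + v]` is
flat, and `‖b + v - z‖² = ‖b - z‖² + 2⟪v, b - z⟫ + ‖v‖² > ‖b - z‖²`: contradiction. (This covers
`b = z`.) -/
def J_RAYS : Prop :=
  ∀ (f : ℂ → ℝ) (U F : Set ℂ) (p : ℂ) (R : ℝ), Sit f U F p R →
    ∀ z ∈ ball p R, ∃ c ∈ sphere p R, Flat f (segment ℝ z c)

/-- JOB THRU (from `J_TLG2`, `J_RAYS`). Local theorem: every point of the open ball is a midpoint of a
stationary segment.
Proof. Let `q ∈ ball p R` and `δ = (R - dist q p)/2 > 0`. For `z ∈ ball q δ` the flat segment `[z, c]`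
of J_RAYS has length `≥ δ`; let `D z = {d : ‖d‖ = 1, Flat f [z, z + δ d]}`, nonempty and closed for such
`z` (`[z, z + δ d] ⊆ ball p R` as `dist z p + δ < R`), and closed in the sense:
`z_n → z ∈ ball q δ`, `d_n ∈ D z_n`, `d_n → d` imply `d ∈ D z`. Suppose that `q` is not the midpoint of
a flat segment `[q - v, q + v] ⊆ ball p R`, `v ≠ 0`. (Two flat segments `[q - εd, q]`, `[q, q + εd]`
form a flat `[q - εd, q + εd]`.)
(1) There is `n` with `⟪n, d⟫ > 0` for all `d ∈ D q`. Rotate so that `1 ∈ D q` (or write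
`d = d₀ exp (iα)`, `d₀ ∈ D q`, `α ∈ (-π, π)`, `-d₀ ∉ D q`). The set of the angles `α` is compact in
`(-π, π)`; let `α₋ ≤ 0 ≤ α₊` be its extreme elements. If `α₊ - α₋ < π` then
`n = d₀ exp (i(α₊ + α₋)/2)` works, `⟪n,d⟫ = cos (α - (α₊ + α₋)/2) ≥ cos ((α₊ - α₋)/2) > 0`. If
`α₊ - α₋ = π` the two directions are opposite: `q` is a midpoint, contradiction. If `α₊ - α₋ > π` then
the direction opposite to `α₊` has the angle `α₊ - π ∈ (α₋, 0)`, between the directions `α₋` and
`0` of `D q`, whose angle is `< π`: by J_TLG2 with `o = q` the triangle with vertices `q`, `q + δ d₀`,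
`q + δ d₀ exp (iα₋)` is flat and contains `[q, q - ε d₀ exp (iα₊)]` for a small `ε`; with
`[q, q + ε d₀ exp (iα₊)]` this gives a flat segment with midpoint `q`, contradiction. (Other proof: if
no such `n` exists then `0` is in the convex hull of the compact `D q`; Carathéodory.)
(2) There are `ρ ∈ (0, δ)` and `c > 0` (`c < 1`) with `⟪n, d⟫ ≥ c ‖n‖` for all `d ∈ D z`,
`z ∈ ball q ρ` (compactness; normalise `‖n‖ = 1`).
(3) Let `ν = i n`, `K = 2/c`, `ε > 0` so small that `(1 + K) ε < ρ` and `ε / c < δ`, and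
`z_s = q - ε n + s ν` for `|s| ≤ K ε`. For `d ∈ D z_s` put `σ(s,d) = s + ε ⟪ν,d⟫ / ⟪n,d⟫`: the point
`z_s + (ε/⟪n,d⟫) d = q + σ(s,d) ν` is on the flat segment `[z_s, z_s + δ d]`. `|ε⟪ν,d⟫/⟪n,d⟫| ≤ ε/c <
K ε`, so `σ > 0` for `s = K ε` and `σ < 0` for `s = -K ε`. The sets
`{s ∈ [-Kε, Kε] | ∃ d ∈ D z_s, σ(s,d) ≥ 0}` and the one with `≤` are closed, nonempty and cover the
interval, so they have a common point `s`: there are `d₁, d₂ ∈ D z_s` with
`σ(s,d₁) ≥ 0 ≥ σ(s,d₂)`.
(4) By J_TLG2 with `o = z_s`, `A = z_s + δ d₁`, `B = z_s + δ d₂` the triangle is flat. It contains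
`q + σ₁ ν` and `q + σ₂ ν` (`σ₁ ≥ 0 ≥ σ₂`), so it contains `q`, and more: it contains
`z_s + t (q + σ_j ν - z_s)` for `0 ≤ t ≤ 1 + η`, `η > 0` small (`(ε/⟪n,d⟫)(1 + η) ≤ δ`), so also
`z_s + t (q - z_s)` for `0 ≤ t ≤ 1 + η`; hence `[q - v, q + v]` with `v = η (q - z_s) ≠ 0`
(`η < 1`) is flat: contradiction. -/
def J_THRU : Prop :=
  ∀ (f : ℂ → ℝ) (U F : Set ℂ) (p : ℂ) (R : ℝ), Sit f U F p R →
    ∀ z ∈ ball p R, ∃ v : ℂ, v ≠ 0 ∧ segment ℝ (z - v) (z + v) ⊆ ball p R ∧
      Flat f (segment ℝ (z - v) (z + v))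

/-- JOB GLOB (from `J_THRU`). Theorem for graphs of C^1 functions on open subsets of the plane.
Proof. Let `N = {z ∈ U | z is not the midpoint of a flat [z - v, z + v] ⊆ U, v ≠ 0}` and suppose
`q ∈ N`. Let `F = closure N`, `r > 0` with `closedBall q (2r) ⊆ U`. `Z = F ∩ ball q r` is locally closed
in `ℂ`, so a Baire space (locally compact Hausdorff), and nonempty. For `z ∈ Z` the hypothesis gives a
flat segment `[z, w]`, shortened: for large `n` there is `w` with `‖w - z‖ = 1/(n+1)`, `Flat f [z,w]`.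
Let, for `1/(n+1) < r`, `E_n = {z ∈ Z | ∃ w, ‖w - z‖ = 1/(n+1) ∧ Flat f [z,w]}` (all these segments are in
`closedBall q (2r)`): closed in `Z` (compactness), and their union is `Z`. By Baire
(`nonempty_interior_of_iUnion_of_closed`) there are `n`, `z₀ ∈ Z` and `ρ > 0` with
`F ∩ ball z₀ ρ ⊆ E_n`, `ball z₀ ρ ⊆ ball q r`. Let `R = min (ρ/2) (1/(4(n+1)))`. Then
`Sit f U F z₀ R`: a point `z ∈ F ∩ ball z₀ R` has a flat `[z, w]` with `‖w - z‖ = 1/(n+1) > 2R`, so `w`
is outside the closed ball and the segment meets the sphere in a point `c`, `[z,c] ⊆ [z,w]`. A point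
`z ∈ ball z₀ R \ F` is not in `N`, so it is the midpoint of a flat segment, which can be shortened to lie in
the ball. By J_THRU every point of `ball z₀ R` is the midpoint of a flat segment in `U`, so
`ball z₀ R ∩ N = ∅`; but `z₀ ∈ closure N`. Contradiction. -/
def J_GLOB : Prop :=
  ∀ (f : ℂ → ℝ) (U : Set ℂ), IsOpen U → ContDiffOn ℝ 1 f U →
    (∀ z ∈ U, ∃ w, w ≠ z ∧ segment ℝ z w ⊆ U ∧ Flat f (segment ℝ z w)) →
    ∀ z ∈ U, ∃ v : ℂ, v ≠ 0 ∧ segment ℝ (z - v) (z + v) ⊆ U ∧ Flat f (segment ℝ (z - v) (z + v))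

/-! ### Immersed surfaces in three-space -/

abbrev E2 := EuclideanSpace ℝ (Fin 2)
abbrev E3 := EuclideanSpace ℝ (Fin 3)

universe u

section Imm

variable {M : Type u} [TopologicalSpace M] [ChartedSpace E2 M]

/-- the tangent map of `φ` at `p` (the tangent space of `M` at `p` is `E2`) -/
noncomputable def tanMap (φ : M → E3) (p : M) : E2 →L[ℝ] E3 := mfderiv 𝓘(ℝ, E2) 𝓘(ℝ, E3) φ p

/-- `φ` is a C^1 immersion of the surface `M` in three-space. -/
def IsImm (φ : M → E3) : Prop :=
  ContMDiff 𝓘(ℝ, E2) 𝓘(ℝ, E3) 1 φ ∧ ∀ p : M, Function.Injective (tanMap φ p)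

/-- the direction of the tangent plane -/
noncomputable def tanDir (φ : M → E3) (p : M) : Submodule ℝ E3 :=
  LinearMap.range (tanMap φ p : E2 →ₗ[ℝ] E3)

/-- the tangent plane of the surface at (the image of) `p`, an affine plane of three-space -/
noncomputable def tanPlane (φ : M → E3) (p : M) : AffineSubspace ℝ E3 :=
  AffineSubspace.mk' (φ p) (tanDir φ p)

/-- `σ` is a stationary segment of the surface `φ`: a path in `M` which `φ` maps onto a straight
segment of positive length, parametrised affinely, with the same tangent plane at all its points. -/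
structure StatSeg (φ : M → E3) (σ : unitInterval → M) : Prop where
  cont : Continuous σ
  line : ∃ v : E3, v ≠ 0 ∧ ∀ t : unitInterval, φ (σ t) = φ (σ 0) + (t : ℝ) • v
  plane : ∀ t : unitInterval, tanPlane φ (σ t) = tanPlane φ (σ 0)

/-- every point is an endpoint of a stationary segment -/
def SemiTorse (φ : M → E3) : Prop := ∀ p : M, ∃ σ, StatSeg φ σ ∧ σ 0 = p

/-- every point is an interior point of a stationary segment -/
def Torse (φ : M → E3) : Prop :=
  ∀ p : M, ∃ σ, StatSeg φ σ ∧ ∃ t : unitInterval, 0 < t ∧ t < 1 ∧ σ t = p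

end Imm

/-- JOB IMM1. An immersed C^1 surface is locally a graph.
Proof. Let `χ = chartAt E2 p` (all charts are `OpenPartialHomeomorph M E2`), `x₀ = χ p`,
`g = φ ∘ χ.symm`, C^1 on `χ.target` (`contMDiffOn_chart_symm`, `contMDiffOn_iff_contDiffOn`). For
`q ∈ χ.source`, `x = χ q`: `mfderiv φ q ∘ mfderiv χ.symm x = fderiv g x` and `mfderiv χ.symm x` is
bijective (it is inverse to `mfderiv χ q`), so `fderiv g x` is injective and has range `tanDir φ q`.
Choose a linear isomorphism `ι : ℂ ≃L[ℝ] E2`, put `Λ = fderiv g x₀ ∘ ι` (injective), `n ∉ range Λ`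
(dimension); then `(ζ, s) ↦ Λ ζ + s n` is injective, hence a linear isomorphism `ℂ × ℝ ≃ E3`; let `L`, `ν`
be the two components of its inverse, so `y = Λ (L y) + ν y • n`, `L ∘ Λ = id`. `L ∘ g` is C^1
near `x₀` with invertible derivative `L ∘ fderiv g x₀ = ι⁻¹` at `x₀`; the inverse function
theorem (`ContDiffAt.toOpenPartialHomeomorph` or the strict derivative version) gives an
`OpenPartialHomeomorph` `ψ` from `E2` to `ℂ` which coincides with `L ∘ g` on its source, with
`x₀ ∈ ψ.source ⊆ χ.target`, and after shrinking the source the derivative of `L ∘ g` is invertible on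
it, so `ψ.symm` is C^1 on `ψ.target` (`OpenPartialHomeomorph.contDiffAt_symm`). Put
`e = χ.trans ψ`, `f = ν ∘ g ∘ ψ.symm`. For `ζ ∈ e.target`:
`φ (e.symm ζ) = g (ψ.symm ζ) = Λ (L (g ..)) + ν (g ..) • n = Λ ζ + f ζ • n`. Differentiating,
`fderiv g x ∘ fderiv ψ.symm ζ = Λ + (fderiv f ζ) ⊗ n`, `x = ψ.symm ζ`, where
`fderiv ψ.symm ζ` is bijective; so the ranges agree. -/
def J_IMM1 : Prop :=
  ∀ (M : Type u) [TopologicalSpace M] [ChartedSpace E2 M] [IsManifold 𝓘(ℝ, E2) 1 M] (φ : M → E3),
    IsImm φ → ∀ p : M, ∃ (e : OpenPartialHomeomorph M ℂ) (f : ℂ → ℝ) (Λ : ℂ →L[ℝ] E3) (n : E3),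
      p ∈ e.source ∧ ContDiffOn ℝ 1 f e.target ∧
      Function.Injective (fun x : ℂ × ℝ => Λ x.1 + x.2 • n) ∧
      ∀ ζ ∈ e.target, φ (e.symm ζ) = Λ ζ + f ζ • n ∧
        tanDir φ (e.symm ζ) =
          LinearMap.range ((Λ + (fderiv ℝ f ζ).smulRight n : ℂ →L[ℝ] E3) : ℂ →ₗ[ℝ] E3)

/-- JOB IMM2 (from `J_IMM1`, `J_GLOB`). The theorem for immersed surfaces.
Proof. Let `φ` be a semi-torse, `p : M`, and `e, f, Λ, n` as in J_IMM1. `(ζ, s) ↦ Λ ζ + s n` is
injective, so bijective onto `E3` (dimension 3).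
Hypothesis of J_GLOB for `f` on `e.target` (open): let `ζ ∈ e.target`, `q = e.symm ζ` and `σ` a
stationary segment with `σ 0 = q`, direction `v = Λ a + s n`. For `t ∈ [0, t₀]`, `t₀ > 0` small,
`σ t ∈ e.source`; put `ζ t = e (σ t)`. Then `Λ (ζ t) + f (ζ t) n = φ (σ t) = φ q + t v`, so by
injectivity `ζ t = ζ + t a` and `f (ζ + t a) = f ζ + t s`. If `a = 0` then `s = 0` and `v = 0`,
contradiction. So `a ≠ 0`, `[ζ, ζ + t₀ a] ⊆ e.target`. The affine planes `tanPlane φ (σ t)` coincide,
so their directions (`AffineSubspace.direction_mk'`) do: the range of `h ↦ Λ h + f'(ζ + t a) h • n`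
is the range of `h ↦ Λ h + f'(ζ) h • n`; by injectivity `f'(ζ + t a) = f'(ζ)`. So the segment is flat.
Conclusion: let `ζ₀ = e p`, `[ζ₀ - v, ζ₀ + v] ⊆ e.target` flat, `v ≠ 0`. `f` is affine on it:
`f (ζ₀ + r v) = f ζ₀ + r f'(ζ₀) v` for `|r| ≤ 1`. `σ t = e.symm (ζ₀ + (2t - 1) v)` is continuous,
`φ (σ t) = φ (σ 0) + t • (2 (Λ v + f'(ζ₀) v • n))`, the vector is not zero by injectivity; the tangent
planes have the same direction, which contains the vector, so they coincide; `σ (1/2) = p`. -/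
def J_IMM2 : Prop :=
  ∀ (M : Type u) [TopologicalSpace M] [ChartedSpace E2 M] [IsManifold 𝓘(ℝ, E2) 1 M] (φ : M → E3),
    IsImm φ → SemiTorse φ → Torse φ

end Pool.Agent.Q193.ST
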