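import Pool.Agent.Q193.ST.TLG2

namespace Pool.Agent.Q193.ST

open Set Metric Filter Topology

theorem tri_closed : IsClosed Tri := by
  have : Tri = {z : ℂ | |z.im| ≤ z.re} ∩ {z : ℂ | z.re ≤ 1} := rfl
  rw [this]
  exact (isClosed_le (by fun_prop) (by fun_prop)).inter (isClosed_le (by fun_prop) (by fun_prop))

theorem tri_compact : IsCompact Tri := by
  refine Metric.isCompact_of_isClosed_isBounded tri_closed ?_
  refine (Metric.isBounded_closedBall (x := (0:ℂ)) (r := 2)).subset ?_
  intro z hz
  rw [mem_closedBall_zero_iff]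
  have h1 := Complex.norm_le_abs_re_add_abs_im z
  have h2 := hz.1
  have h3 := hz.2
  have h4 : 0 ≤ z.re := (abs_nonneg _).trans h2
  rw [abs_of_nonneg h4] at h1
  linarith

theorem tri_convex : Convex ℝ Tri := by
  intro z hz w hw a b ha hb hab
  constructor
  · simp only [Complex.add_im, Complex.add_re, Complex.real_smul, Complex.re_ofReal_mul,
      Complex.im_ofReal_mul]
    calc |a * z.im + b * w.im| ≤ |a * z.im| + |b * w.im| := abs_add_le _ _
      _ = a * |z.im| + b * |w.im| := by rw [abs_mul, abs_mul, abs_of_nonneg ha, abs_of_nonneg hb]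
      _ ≤ a * z.re + b * w.re :=
        add_le_add (mul_le_mul_of_nonneg_left hz.1 ha) (mul_le_mul_of_nonneg_left hw.1 hb)
  · simp only [Complex.add_re, Complex.real_smul, Complex.re_ofReal_mul]
    have h1 := mul_le_mul_of_nonneg_left hz.2 ha
    have h2 := mul_le_mul_of_nonneg_left hw.2 hb
    linarith

theorem tri_interior {z : ℂ} (h1 : |z.im| < z.re) (h2 : z.re < 1) : z ∈ interior Tri := by
  rw [mem_interior]
  refine ⟨{z : ℂ | |z.im| < z.re} ∩ {z : ℂ | z.re < 1}, ?_, ?_, ⟨h1, h2⟩⟩
  · rintro w ⟨hw1, hw2⟩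
    exact ⟨le_of_lt hw1, le_of_lt hw2⟩
  · exact (isOpen_lt (by fun_prop) (by fun_prop)).inter (isOpen_lt (by fun_prop) (by fun_prop))

theorem tri_frontier {z : ℂ} (h : z ∈ frontier Tri) : z ∈ Tri ∧ (|z.im| = z.re ∨ z.re = 1) := by
  have h1 : z ∈ Tri := tri_closed.frontier_subset h
  refine ⟨h1, ?_⟩
  by_contra hcon
  push Not at hcon
  exact h.2 (tri_interior (lt_of_le_of_ne h1.1 hcon.1) (lt_of_le_of_ne h1.2 hcon.2))

/-- the tangent plane is constant along a flat segment -/
theorem T_const {f : ℂ → ℝ} {U : Set ℂ} (hU : IsOpen U) (hf : ContDiffOn ℝ 1 f U) {a b : ℂ}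
    (hab : segment ℝ a b ⊆ U) (hfl : Flat f (segment ℝ a b)) :
    ∀ w ∈ segment ℝ a b, (fderiv ℝ f w, f w - fderiv ℝ f w w) =
      (fderiv ℝ f a, f a - fderiv ℝ f a a) := by
  intro w hw
  have h1 : fderiv ℝ f w = fderiv ℝ f a := hfl w hw a (left_mem_segment ℝ _ _)
  have hsub : segment ℝ a w ⊆ segment ℝ a b :=
    (convex_segment _ _).segment_subset (left_mem_segment ℝ _ _) hw
  have h2 : f w = f a + fderiv ℝ f a (w - a) := by
    refine along hU hf (hsub.trans hab) ?_
    intro z hz
    rw [hfl z (hsub hz) a (left_mem_segment ℝ _ _)]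
  rw [h1, h2, map_sub]
  congr 1
  ring

theorem meet_frontier {S T : Set ℂ} (hS : IsPreconnected S) (hT : IsClosed T) {z c : ℂ}
    (hz : z ∈ S) (hzT : z ∈ T) (hc : c ∈ S) (hcT : c ∉ T) : (S ∩ frontier T).Nonempty := by
  by_contra hcon
  rw [not_nonempty_iff_eq_empty] at hcon
  have hcov : S ⊆ interior T ∪ Tᶜ := by
    intro x hx
    by_cases hxT : x ∈ T
    · left
      by_contra hxI
      have : x ∈ S ∩ frontier T := ⟨hx, subset_closure hxT, hxI⟩
      rw [hcon] at this
      exact this
    · right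
      exact hxT
  have hzI : z ∈ interior T := by
    rcases hcov hz with h | h
    · exact h
    · exact absurd hzT h
  obtain ⟨x, -, hx1, hx2⟩ := hS (interior T) Tᶜ isOpen_interior hT.isOpen_compl hcov
    ⟨z, hz, hzI⟩ ⟨c, hc, hcT⟩
  exact hx2 (interior_subset hx1)

theorem t_TLG1 (h1 : J_TLA) (h2 : J_REACH) : J_TLG1 := by
  intro f U F p R hS o ho A hA B hB hli hfA hfB
  have hcb := convex_closedBall p R
  have hSU : closedBall p R ⊆ U := hS.hB
  have hlip := LinearIndependent.pair_iff.1 hli
  set m : ℂ := (1/2 : ℝ) • (A + B) - o with hm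
  set e : ℂ := (1/2 : ℝ) • (B - A) with he
  -- the linear map
  let L0 : ℂ →ₗ[ℝ] ℂ :=
    { toFun := fun z => z.re • m + z.im • e
      map_add' := by
        intro z w
        simp only [Complex.add_re, Complex.add_im, add_smul]
        abel
      map_smul' := by
        intro c z
        simp only [Complex.real_smul, Complex.re_ofReal_mul, Complex.im_ofReal_mul,
          RingHom.id_apply]
        push_cast
        ring }
  have hL0 : ∀ z : ℂ, L0 z = z.re • m + z.im • e := fun z => rfl
  have hinj : Function.Injective L0 := by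
    rw [← LinearMap.ker_eq_bot, LinearMap.ker_eq_bot']
    intro z hz
    rw [hL0] at hz
    have h3 : ((z.re - z.im) / 2) • (A - o) + ((z.re + z.im) / 2) • (B - o) = 0 := by
      rw [← hz, hm, he]
      simp only [Complex.real_smul]
      push_cast
      ring
    obtain ⟨h4, h5⟩ := hlip _ _ h3
    apply Complex.ext
    · simp only [Complex.zero_re]; linarith
    · simp only [Complex.zero_im]; linarith
  let Le : ℂ ≃ₗ[ℝ] ℂ := LinearEquiv.ofInjectiveEndo L0 hinj
  let Lc : ℂ ≃L[ℝ] ℂ := Le.toContinuousLinearEquiv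
  have hLc : ∀ z : ℂ, Lc z = z.re • m + z.im • e := fun z => rfl
  set Ψ : ℂ → ℂ := fun z => o + Lc z with hΨ
  have hΨc : Continuous Ψ := by
    rw [hΨ]
    exact continuous_const.add Lc.continuous
  have hΨo : IsOpenMap Ψ := by
    have : Ψ = (Homeomorph.addLeft o) ∘ Lc.toHomeomorph := rfl
    rw [this]
    exact (Homeomorph.addLeft o).isOpenMap.comp Lc.toHomeomorph.isOpenMap
  have hΨbar : ∀ z : ℂ, Ψ z = (1 - z.re) • o + ((z.re - z.im) / 2) • A +
      ((z.re + z.im) / 2) • B := by
    intro z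
    rw [hΨ]
    simp only
    rw [hLc, hm, he]
    simp only [Complex.real_smul]
    push_cast
    ring
  have hΨB : ∀ z ∈ Tri, Ψ z ∈ closedBall p R := by
    intro z hz
    have h3 := abs_le.1 hz.1
    have h4 := hz.2
    have hsum : (1 - z.re) + (z.re - z.im) / 2 + (z.re + z.im) / 2 = 1 := by ring
    rw [hΨbar]
    have := hcb.sum_mem (t := (Finset.univ : Finset (Fin 3)))
      (w := ![1 - z.re, (z.re - z.im) / 2, (z.re + z.im) / 2]) (z := ![o, A, B])
      (by
        intro i _
        fin_cases i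
        · simp; linarith
        · simp; linarith
        · simp; linarith)
      (by simp [Fin.sum_univ_three]; ring)
      (by
        intro i _
        fin_cases i
        · exact ho
        · exact hA
        · exact hB)
    simpa [Fin.sum_univ_three] using this
  have hΨI : ∀ z ∈ interior Tri, Ψ z ∈ ball p R := by
    intro z hz
    have h3 : Ψ '' (interior Tri) ⊆ interior (closedBall p R) := by
      refine interior_maximal ?_ (hΨo _ isOpen_interior)
      rintro _ ⟨w, hw, rfl⟩
      exact hΨB w (interior_subset hw)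
    rw [interior_closedBall p hS.hR.ne'] at h3
    exact h3 ⟨z, hz, rfl⟩
  have hΨseg : ∀ z w x : ℂ, x ∈ segment ℝ z w → Ψ x ∈ segment ℝ (Ψ z) (Ψ w) := by
    intro z w x hx
    rw [segment_eq_image'] at hx ⊢
    obtain ⟨t, ht, rfl⟩ := hx
    refine ⟨t, ht, ?_⟩
    rw [hΨ]
    simp only [map_add, map_smul, map_sub]
    simp only [Complex.real_smul]
    ring
  -- the tangent plane map
  set T : ℂ → (ℂ →L[ℝ] ℝ) × ℝ := fun w => (fderiv ℝ f w, f w - fderiv ℝ f w w) with hT
  have hDc : ContinuousOn (fderiv ℝ f) (closedBall p R) :=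
    (hS.hf.continuousOn_fderiv_of_isOpen hS.hU le_rfl).mono hSU
  have hTc : ContinuousOn T (closedBall p R) := by
    rw [hT]
    refine hDc.prodMk ((hS.hf.continuousOn.mono hSU).sub ?_)
    exact hDc.clm_apply continuousOn_id
  have hTseg : ∀ a b : ℂ, segment ℝ a b ⊆ U → Flat f (segment ℝ a b) →
      ∀ w ∈ segment ℝ a b, T w = T a := fun a b hab hfl => T_const hS.hU hS.hf hab hfl
  set G : ℂ → (ℂ →L[ℝ] ℝ) × ℝ := fun z => T (Ψ z) with hG
  have hGc : ContinuousOn G Tri := hTc.comp hΨc.continuousOn hΨB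
  -- the sides
  have hside : ∀ z ∈ Tri, |z.im| = z.re → G z = T o := by
    intro z hz hzs
    have hre : 0 ≤ z.re := (abs_nonneg _).trans hz.1
    rcases abs_choice z.im with h | h
    · rw [h] at hzs
      have h3 : Ψ z ∈ segment ℝ o B := by
        rw [segment_eq_image']
        refine ⟨z.re, ⟨hre, hz.2⟩, ?_⟩
        rw [hΨbar, hzs]
        simp only [Complex.real_smul]
        push_cast
        ring
      exact hTseg o B ((hcb.segment_subset ho hB).trans hSU) hfB _ h3
    · rw [h] at hzs
      have h3 : Ψ z ∈ segment ℝ o A := by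
        rw [segment_eq_image']
        refine ⟨z.re, ⟨hre, hz.2⟩, ?_⟩
        rw [hΨbar]
        have : z.im = -z.re := by linarith
        rw [this]
        simp only [Complex.real_smul]
        push_cast
        ring
      exact hTseg o A ((hcb.segment_subset ho hA).trans hSU) hfA _ h3
  -- level components reach the frontier
  have hreach := h2 ((ℂ →L[ℝ] ℝ) × ℝ) Tri (Ψ ⁻¹' F) G tri_compact (hS.hF.preimage hΨc) hGc
    (by
      rintro z ⟨hz, hzF⟩
      obtain ⟨c, hc, hfl⟩ := hS.ray (Ψ z) ⟨hΨI z hz, hzF⟩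
      have hzT : z ∈ Tri := interior_subset hz
      set c' : ℂ := Lc.symm (c - o) with hc'
      have hΨc' : Ψ c' = c := by
        rw [hΨ]
        simp only [hc', ContinuousLinearEquiv.apply_symm_apply, add_sub_cancel]
      have hc'I : c' ∉ interior Tri := by
        intro h
        have h3 := hΨI c' h
        rw [hΨc', mem_ball, mem_sphere.1 hc] at h3
        exact lt_irrefl _ h3
      refine ⟨segment ℝ z c' ∩ Tri, ((convex_segment z c').inter tri_convex).isPreconnected,
        ⟨left_mem_segment ℝ _ _, hzT⟩, inter_subset_right, ?_, ?_⟩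
      · rintro w ⟨hw, -⟩
        have h3 := hΨseg z c' w hw
        rw [hΨc'] at h3
        exact hTseg (Ψ z) c ((hcb.segment_subset (hΨB z hzT) (sphere_subset_closedBall hc)).trans
          hSU) hfl _ h3
      · by_cases hcT : c' ∈ Tri
        · refine ⟨c', ⟨right_mem_segment ℝ _ _, hcT⟩, subset_closure hcT, hc'I⟩
        · obtain ⟨w, hw1, hw2⟩ := meet_frontier (convex_segment z c').isPreconnected tri_closed
            (left_mem_segment ℝ _ _) hzT (right_mem_segment ℝ _ _) hcT
          exact ⟨w, ⟨hw1, tri_closed.frontier_subset hw2⟩, hw2⟩)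
    (by
      rintro z ⟨hz, hzF⟩
      obtain ⟨v, hv0, hvB, hfl⟩ := hS.thr (Ψ z) ⟨hΨI z hz, hzF⟩
      set v' : ℂ := Lc.symm v with hv'
      have hv'0 : v' ≠ 0 := by
        rw [hv']
        simpa using hv0
      obtain ⟨ε, hε, hεT⟩ := Metric.isOpen_iff.1 isOpen_interior z hz
      have hvn : 0 < ‖v'‖ := norm_pos_iff.2 hv'0
      set t : ℝ := min 1 (ε / (2 * ‖v'‖)) with ht
      have ht0 : 0 < t := lt_min one_pos (by positivity)
      have ht1 : t ≤ 1 := min_le_left _ _
      have ht2 : t * ‖v'‖ < ε := by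
        have h2 : t ≤ ε / (2 * ‖v'‖) := min_le_right _ _
        have h3 : t * ‖v'‖ ≤ ε / (2 * ‖v'‖) * ‖v'‖ := by gcongr
        have h4 : ε / (2 * ‖v'‖) * ‖v'‖ = ε / 2 := by field_simp
        linarith
      have hn' : ‖t • v'‖ < ε := by
        rw [norm_smul, Real.norm_of_nonneg ht0.le]
        exact ht2
      refine ⟨t • v', smul_ne_zero ht0.ne' hv'0, ?_, ?_⟩
      · refine (Convex.segment_subset (convex_ball z ε) ?_ ?_).trans
          (hεT.trans interior_subset)
        · rw [mem_ball, dist_eq_norm]; simpa using hn'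
        · rw [mem_ball, dist_eq_norm]; simpa using hn'
      · intro w hw
        have h3 := hΨseg _ _ w hw
        have e1 : Ψ (z - t • v') = Ψ z - t • v := by
          rw [hΨ]
          simp only [map_sub, map_smul, hv', ContinuousLinearEquiv.apply_symm_apply]
          ring
        have e2 : Ψ (z + t • v') = Ψ z + t • v := by
          rw [hΨ]
          simp only [map_add, map_smul, hv', ContinuousLinearEquiv.apply_symm_apply]
          ring
        rw [e1, e2] at h3
        have hsh : segment ℝ (Ψ z - t • v) (Ψ z + t • v) ⊆ segment ℝ (Ψ z - v) (Ψ z + v) := by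
          refine (convex_segment _ _).segment_subset ?_ ?_
          · rw [segment_eq_image']
            refine ⟨(1 - t) / 2, ⟨by linarith, by linarith⟩, ?_⟩
            simp only [Complex.real_smul]
            push_cast
            ring
          · rw [segment_eq_image']
            refine ⟨(1 + t) / 2, ⟨by linarith, by linarith⟩, ?_⟩
            simp only [Complex.real_smul]
            push_cast
            ring
        have hvU : segment ℝ (Ψ z - v) (Ψ z + v) ⊆ U :=
          hvB.trans (ball_subset_closedBall.trans hSU)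
        have h4 := hTseg _ _ hvU hfl (Ψ w) (hsh h3)
        have hmid : Ψ z ∈ segment ℝ (Ψ z - v) (Ψ z + v) := by
          rw [segment_eq_image']
          refine ⟨1/2, ⟨by norm_num, by norm_num⟩, ?_⟩
          simp only [Complex.real_smul]
          push_cast
          ring
        have h5 := hTseg _ _ hvU hfl (Ψ z) hmid
        change T (Ψ w) = T (Ψ z)
        rw [h4, h5])
  -- the two sides
  have hV1 : ∀ z ∈ segment ℝ (0:ℂ) ⟨1, 1⟩ ∪ segment ℝ (0:ℂ) ⟨1, -1⟩, z ∈ Tri ∧ |z.im| = z.re := by
    intro z hz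
    rcases hz with hz | hz
    · rw [segment_eq_image'] at hz
      obtain ⟨t, ht, rfl⟩ := hz
      simp only [sub_zero, zero_add, Complex.real_smul]
      refine ⟨⟨?_, ?_⟩, ?_⟩
      · simp [abs_of_nonneg ht.1]
      · simpa using ht.2
      · simp [abs_of_nonneg ht.1]
    · rw [segment_eq_image'] at hz
      obtain ⟨t, ht, rfl⟩ := hz
      simp only [sub_zero, zero_add, Complex.real_smul]
      refine ⟨⟨?_, ?_⟩, ?_⟩
      · simp [abs_of_nonneg ht.1]
      · simpa using ht.2
      · simp [abs_of_nonneg ht.1]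
  have hV2 : ∀ z ∈ Tri, |z.im| = z.re → z ∈ segment ℝ (0:ℂ) ⟨1, 1⟩ ∪ segment ℝ (0:ℂ) ⟨1, -1⟩ := by
    intro z hz hzs
    have hre : 0 ≤ z.re := (abs_nonneg _).trans hz.1
    rcases abs_choice z.im with h | h
    · left
      rw [segment_eq_image']
      refine ⟨z.re, ⟨hre, hz.2⟩, ?_⟩
      simp only [sub_zero, zero_add, Complex.real_smul]
      apply Complex.ext
      · simp
      · simp; linarith
    · right
      rw [segment_eq_image']
      refine ⟨z.re, ⟨hre, hz.2⟩, ?_⟩
      simp only [sub_zero, zero_add, Complex.real_smul]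
      apply Complex.ext
      · simp
      · simp; linarith
  have hVp : IsPreconnected (segment ℝ (0:ℂ) ⟨1, 1⟩ ∪ segment ℝ (0:ℂ) ⟨1, -1⟩) :=
    IsPreconnected.union (0:ℂ) (left_mem_segment ℝ _ _) (left_mem_segment ℝ _ _)
      (convex_segment _ _).isPreconnected (convex_segment _ _).isPreconnected
  have hreach2 : ∀ z ∈ Tri, ∃ S : Set ℂ, IsPreconnected S ∧ z ∈ S ∧ S ⊆ Tri ∧
      (∀ w ∈ S, G w = G z) ∧ ∃ w ∈ S, w.re = 1 := by
    intro z hz
    obtain ⟨S, hS1, hS2, hS3, hS4, s0, hs0, hs0f⟩ := hreach z hz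
    obtain ⟨hs0T, h3 | h3⟩ := tri_frontier hs0f
    · have hGz : G z = T o := by rw [← hS4 s0 hs0, hside s0 hs0T h3]
      refine ⟨S ∪ (segment ℝ (0:ℂ) ⟨1, 1⟩ ∪ segment ℝ (0:ℂ) ⟨1, -1⟩),
        IsPreconnected.union s0 hs0 (hV2 s0 hs0T h3) hS1 hVp, Or.inl hS2, ?_, ?_, ?_⟩
      · exact union_subset hS3 (fun w hw => (hV1 w hw).1)
      · rintro w (hw | hw)
        · exact hS4 w hw
        · rw [hGz, hside w (hV1 w hw).1 (hV1 w hw).2]
      · exact ⟨⟨1, 1⟩, Or.inr (Or.inl (right_mem_segment ℝ _ _)), rfl⟩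
    · exact ⟨S, hS1, hS2, hS3, hS4, s0, hs0, h3⟩
  -- apply TLA
  set βT : (ℂ →L[ℝ] ℝ) × ℝ → ℝ := fun τ => (τ.1 - fderiv ℝ f o) e with hβT
  set kT : (ℂ →L[ℝ] ℝ) × ℝ → ℝ := fun τ => τ.2 + τ.1 (m + o) - f o + fderiv ℝ f o o -
    fderiv ℝ f o (m + o) with hkT
  have hΨ1 : ∀ y : ℝ, Ψ ⟨1, y⟩ = o + m + y • e := by
    intro y
    rw [hΨ]
    simp only
    rw [hLc]
    simp only [one_smul]
    ring
  have hmem1 : ∀ y ∈ Icc (-1:ℝ) 1, (⟨1, y⟩ : ℂ) ∈ Tri := by
    intro y hy
    exact ⟨abs_le.2 hy, le_rfl⟩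
  have hfin := h1 (fun z => βT (G z)) (fun z => kT (G z))
    (fun y => f (o + m + y • e) - f o - fderiv ℝ f o (m + y • e))
    (by
      have : Continuous βT := by rw [hβT]; fun_prop
      exact this.comp_continuousOn hGc)
    (by
      have : Continuous kT := by rw [hkT]; fun_prop
      exact this.comp_continuousOn hGc)
    (by
      intro z hz hzs
      rw [hside z hz hzs]
      constructor
      · simp [hβT, hT]
      · simp only [hkT, hT]
        ring)
    (by
      intro y hy
      have hin : o + m + y • e ∈ U := by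
        rw [← hΨ1]
        exact hSU (hΨB _ (hmem1 y hy))
      have g1 : HasFDerivAt f (fderiv ℝ f (o + m + y • e)) (o + m + y • e) :=
        ((hS.hf.differentiableOn one_ne_zero).differentiableAt
          (hS.hU.mem_nhds hin)).hasFDerivAt
      have g2 : HasDerivAt (fun r : ℝ => o + m + r • e) e y := by
        have := (hasDerivAt_id y).smul_const e
        simpa using this.const_add (o + m)
      have g3 : HasDerivAt (fun r : ℝ => m + r • e) e y := by
        have := (hasDerivAt_id y).smul_const e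
        simpa using this.const_add m
      have g4 : HasDerivAt (fun r : ℝ => fderiv ℝ f o (m + r • e)) (fderiv ℝ f o e) y :=
        ((fderiv ℝ f o).hasFDerivAt.comp_hasDerivAt y g3)
      constructor
      · have g5 := ((g1.comp_hasDerivAt y g2).sub_const (f o)).sub g4
        have e3 : βT (G ⟨1, y⟩) = fderiv ℝ f (o + m + y • e) e - fderiv ℝ f o e := by
          simp only [hβT, hG, hT, hΨ1]
          rfl
        rw [e3]
        exact g5.hasDerivWithinAt
      · simp only [hβT, hkT, hG, hT, hΨ1, map_add, map_smul, smul_eq_mul,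
          ContinuousLinearMap.sub_apply]
        ring)
    (by
      intro z hz
      obtain ⟨S, hS1, hS2, hS3, hS4, hS5⟩ := hreach2 z hz
      exact ⟨S, hS1, hS2, hS3, fun w hw => by simp only [hS4 w hw, and_self], hS5⟩)
  intro x hx
  rw [segment_eq_image'] at hx
  obtain ⟨s, hs, rfl⟩ := hx
  have h6 := hfin (2 * s - 1) ⟨by linarith [hs.1], by linarith [hs.2]⟩
  simp only [hβT, hG, hT, hΨ1, ContinuousLinearMap.sub_apply] at h6
  have e7 : o + m + (2 * s - 1) • e = A + s • (B - A) := by
    rw [hm, he]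
    simp only [Complex.real_smul]
    push_cast
    ring
  rw [e7] at h6
  have e8 : B - A = (2:ℝ) • e := by
    rw [he, smul_smul]
    norm_num
  have e9 : fderiv ℝ f (A + s • (B - A)) e = fderiv ℝ f o e := by linarith
  have e10 : ∀ D : ℂ →L[ℝ] ℝ, D (B - A) = 2 * D e := by
    intro D
    rw [e8, map_smul, smul_eq_mul]
  simp only
  rw [e10, e10, e9]

end Pool.Agent.Q193.ST
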